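import Pool.Agent.H95.FL.Int

/-!
# The maximisers

Equality in the energy inequality holds exactly for the measures carried by the lines of an
orthonormal basis with equal masses.
-/

namespace H95FL

open Finset H45FT MeasureTheory Topology

theorem rpow_lt_rho {lam t : ℝ} (hl : Real.pi / 2 ≤ lam) (h0 : 0 < t) (h1 : t < 1) :
    t ^ lam < rho t := by
  have p3 := Real.pi_gt_three
  have p4 := Real.pi_lt_four
  have e1 : t ^ lam ≤ t ^ (Real.pi / 2) := Real.rpow_le_rpow_of_exponent_ge h0 h1.le hl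
  have e2 : t ^ (Real.pi / 2) = t * t ^ (Real.pi / 2 - 1) := by
    have : t ^ (Real.pi / 2) = t ^ (1 + (Real.pi / 2 - 1)) := by congr 1; ring
    rw [this, Real.rpow_add h0, Real.rpow_one]
  have e3 := rpow_one_add_lt_one_add_mul_self (s := t - 1) (by linarith) (by linarith)
    (p := Real.pi / 2 - 1) (by linarith) (by linarith)
  rw [show 1 + (t - 1) = t by ring] at e3
  have e4 := mul_lt_mul_of_pos_left e3 h0
  unfold rho
  calc t ^ lam ≤ t * t ^ (Real.pi / 2 - 1) := by rw [← e2]; exact e1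
    _ < t * (1 + (Real.pi / 2 - 1) * (t - 1)) := e4
    _ = _ := by ring

theorem dich {lam t : ℝ} (hl : Real.pi / 2 ≤ lam) (h0 : 0 ≤ t) (h1 : t ≤ 1)
    (h : rho t ≤ t ^ lam) : t = 0 ∨ t = 1 := by
  by_contra hc
  push Not at hc
  have := rpow_lt_rho hl (lt_of_le_of_ne h0 (Ne.symm hc.1)) (lt_of_le_of_ne h1 hc.2)
  linarith

theorem cont_ang : Continuous ang := by
  unfold ang; fun_prop

theorem cont_rho : Continuous rho := by
  unfold rho; fun_prop

theorem fin_rho (hS : Star) (d : ℕ)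
    (t : Finset (EuclideanSpace ℝ (Fin (d + 1)))) (w : EuclideanSpace ℝ (Fin (d + 1)) → ℝ)
    (ht : ∀ v ∈ t, v ∈ Metric.sphere (0 : EuclideanSpace ℝ (Fin (d + 1))) 1)
    (hw : ∀ v ∈ t, 0 ≤ w v) (hw1 : ∑ v ∈ t, w v = 1) :
    ∑ v ∈ t, ∑ u ∈ t, w v * w u * rho (ang (@inner ℝ _ _ v u)) ≤ (d : ℝ) / (d + 1) := by
  classical
  have h1 : ∑ i ∈ t, ∑ j ∈ t, w i * w j * rho (ang (inner ℝ i j)) ≤
      (1 - 1 / ((d + 1 : ℕ) : ℝ)) * (∑ i ∈ t, w i) ^ 2 := by
    let e := t.equivFin
    have h := bd_all hS d (Fin t.card) Finset.univ (fun i => (e.symm i : EuclideanSpace ℝ (Fin (d + 1))))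
      (fun i => w (e.symm i)) (fun i _ => mem_sphere_zero_iff_norm.mp (ht _ (e.symm i).2))
      (fun i _ => hw _ (e.symm i).2)
    have hs : ∀ f : EuclideanSpace ℝ (Fin (d + 1)) → ℝ,
        ∑ i : Fin t.card, f (e.symm i) = ∑ v ∈ t, f v := by
      intro f
      rw [← Finset.sum_coe_sort t]
      exact Equiv.sum_comp e.symm (fun v => f v)
    rw [hs w] at h
    have h' : ∑ i : Fin t.card, ∑ j : Fin t.card, w (e.symm i) * w (e.symm j) *
        rho (ang (inner ℝ (e.symm i : EuclideanSpace ℝ (Fin (d + 1)))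
          (e.symm j : EuclideanSpace ℝ (Fin (d + 1)))))
        = ∑ i ∈ t, ∑ j ∈ t, w i * w j * rho (ang (inner ℝ i j)) := by
      rw [← hs (fun v => ∑ j ∈ t, w v * w j * rho (ang (inner ℝ v j)))]
      refine Finset.sum_congr rfl fun i _ => ?_
      exact hs (fun u => w (e.symm i) * w u *
        rho (ang (inner ℝ (e.symm i : EuclideanSpace ℝ (Fin (d + 1))) u)))
    rw [h'] at h
    exact h
  have hC : (1 - 1 / ((d + 1 : ℕ) : ℝ)) = (d : ℝ) / (d + 1) := by
    push_cast
    field_simp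
    ring
  rw [hC, hw1, one_pow, mul_one] at h1
  exact h1

theorem rho_bd (t : ℝ) : |rho (ang t)| ≤ 1 := by
  have h0 := ang_nonneg t
  have h1 := ang_le_one t
  rw [abs_of_nonneg (rho_nonneg h0)]
  have p3 := Real.pi_gt_three
  unfold rho
  have h3 : ang t ^ 2 ≤ ang t := by nlinarith
  have : (Real.pi / 2 - 1) * ang t ^ 2 ≤ (Real.pi / 2 - 1) * ang t :=
    mul_le_mul_of_nonneg_left h3 (by linarith)
  linarith

theorem rho_energy (hS : Star) (d : ℕ)
    (μ : Measure (EuclideanSpace ℝ (Fin (d + 1)))) (hμ : IsProbabilityMeasure μ)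
    (hs : μ (Metric.sphere (0 : EuclideanSpace ℝ (Fin (d + 1))) 1)ᶜ = 0) :
    ∫ x, ∫ y, rho (ang (@inner ℝ _ _ x y)) ∂μ ∂μ ≤ (d : ℝ) / (d + 1) := by
  refine integral_integral_le_of_finite μ hs (fun x y => rho (ang (@inner ℝ _ _ x y)))
    ?_ (B := 1) (fun x y => rho_bd _) (fun t w ht hw hw1 => fin_rho hS d t w ht hw hw1)
  exact cont_rho.comp (cont_ang.comp (by fun_prop))

/-- In the case of equality the support consists of equal or orthogonal lines. -/
theorem supp_dich (hS : Star) (d : ℕ) {lam : ℝ} (hl : Real.pi / 2 ≤ lam)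
    (μ : Measure (EuclideanSpace ℝ (Fin (d + 1)))) (hμ : IsProbabilityMeasure μ)
    (hs : μ (Metric.sphere (0 : EuclideanSpace ℝ (Fin (d + 1))) 1)ᶜ = 0)
    (he : (Real.pi / 2) ^ lam * ((d : ℝ) / (d + 1)) ≤
      ∫ x, ∫ y, Real.arccos |@inner ℝ _ _ x y| ^ lam ∂μ ∂μ)
    {x y : EuclideanSpace ℝ (Fin (d + 1))} (hx : x ∈ μ.support) (hy : y ∈ μ.support) :
    ang (@inner ℝ _ _ x y) = 0 ∨ ang (@inner ℝ _ _ x y) = 1 := by
  have hp := Real.pi_pos
  have hl0 : 0 ≤ lam := by linarith
  set A : ℝ := (Real.pi / 2) ^ lam with hA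
  have hA0 : 0 < A := by positivity
  let F1 : EuclideanSpace ℝ (Fin (d + 1)) × EuclideanSpace ℝ (Fin (d + 1)) → ℝ :=
    fun p => rho (ang (@inner ℝ _ _ p.1 p.2))
  let F2 : EuclideanSpace ℝ (Fin (d + 1)) × EuclideanSpace ℝ (Fin (d + 1)) → ℝ :=
    fun p => Real.arccos |@inner ℝ _ _ p.1 p.2| ^ lam
  have c1 : Continuous F1 := cont_rho.comp (cont_ang.comp (by fun_prop))
  have c2 : Continuous F2 := by
    have : Continuous fun p : EuclideanSpace ℝ (Fin (d + 1)) × EuclideanSpace ℝ (Fin (d + 1)) =>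
      Real.arccos |@inner ℝ _ _ p.1 p.2| := by fun_prop
    exact this.rpow_const fun _ => Or.inr hl0
  have i1 : Integrable F1 (μ.prod μ) :=
    Integrable.of_bound c1.aestronglyMeasurable 1 (Filter.Eventually.of_forall fun p => by
      rw [Real.norm_eq_abs]; exact rho_bd _)
  have i2 : Integrable F2 (μ.prod μ) :=
    Integrable.of_bound c2.aestronglyMeasurable (Real.pi ^ lam)
      (Filter.Eventually.of_forall fun p => by
        rw [Real.norm_eq_abs, abs_of_nonneg (Real.rpow_nonneg (Real.arccos_nonneg _) _)]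
        exact Real.rpow_le_rpow (Real.arccos_nonneg _) (Real.arccos_le_pi _) hl0)
  have g0 : ∀ p, 0 ≤ A * F1 p - F2 p := by
    intro p
    have h3 := rpow_le_rho hl (ang_nonneg (inner ℝ p.1 p.2)) (ang_le_one (inner ℝ p.1 p.2))
    have h4 : F2 p = A * ang (inner ℝ p.1 p.2) ^ lam := by
      simp only [F2]
      rw [← half_pi_ang, Real.mul_rpow (by positivity) (ang_nonneg _)]
    rw [h4]
    have := mul_le_mul_of_nonneg_left h3 hA0.le
    simp only [F1]
    linarith
  have ig : Integrable (fun p => A * F1 p - F2 p) (μ.prod μ) := (i1.const_mul A).sub i2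
  have e1 : ∫ p, F1 p ∂(μ.prod μ) = ∫ x, ∫ y, rho (ang (@inner ℝ _ _ x y)) ∂μ ∂μ :=
    integral_prod _ i1
  have e2 : ∫ p, F2 p ∂(μ.prod μ) = ∫ x, ∫ y, Real.arccos |@inner ℝ _ _ x y| ^ lam ∂μ ∂μ :=
    integral_prod _ i2
  have hr := rho_energy hS d μ hμ hs
  rw [← e1] at hr
  rw [← e2] at he
  have hz : ∫ p, (A * F1 p - F2 p) ∂(μ.prod μ) = 0 := by
    refine le_antisymm ?_ (integral_nonneg g0)
    rw [integral_sub (i1.const_mul A) i2, integral_const_mul]
    have := mul_le_mul_of_nonneg_left hr hA0.le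
    linarith
  have hae := (integral_eq_zero_iff_of_nonneg g0 ig).1 hz
  have hcont : Continuous fun p => A * F1 p - F2 p := (continuous_const.mul c1).sub c2
  have key : A * F1 (x, y) - F2 (x, y) = 0 := by
    by_contra hne
    have ho : IsOpen {p | A * F1 p - F2 p ≠ 0} := isOpen_ne_fun hcont continuous_const
    have hm : {p | A * F1 p - F2 p ≠ 0} ∈ 𝓝 (x, y) := ho.mem_nhds hne
    obtain ⟨U, hU, V, hV, hUV⟩ := mem_nhds_prod_iff.1 hm
    have h1 := (Measure.mem_support_iff_forall x).1 hx U hU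
    have h2 := (Measure.mem_support_iff_forall y).1 hy V hV
    have h3 : (μ.prod μ) {p | A * F1 p - F2 p ≠ 0} = 0 := by
      have := ae_iff.1 hae
      simpa using this
    have h4 : (μ.prod μ) (U ×ˢ V) = 0 := measure_mono_null hUV h3
    rw [Measure.prod_prod, mul_eq_zero] at h4
    rcases h4 with h4 | h4
    · exact h1.ne' h4
    · exact h2.ne' h4
  refine dich hl (ang_nonneg _) (ang_le_one _) ?_
  have h4 : F2 (x, y) = A * ang (inner ℝ x y) ^ lam := by
    simp only [F2]
    rw [← half_pi_ang, Real.mul_rpow (by positivity) (ang_nonneg _)]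
  rw [h4] at key
  have h5 : A * F1 (x, y) = A * ang (inner ℝ x y) ^ lam := by linarith
  exact (mul_left_cancel₀ hA0.ne' h5).le

/-- A set of unit vectors, any two of which are parallel or orthogonal, lies on the lines of an
orthonormal basis. -/
theorem exists_onb {n : ℕ} (K : Set (EuclideanSpace ℝ (Fin n))) (h1 : ∀ x ∈ K, ‖x‖ = 1)
    (h2 : ∀ x ∈ K, ∀ y ∈ K, (@inner ℝ _ _ x y : ℝ) = 0 ∨ |(@inner ℝ _ _ x y : ℝ)| = 1) :
    ∃ b : OrthonormalBasis (Fin n) ℝ (EuclideanSpace ℝ (Fin n)), ∀ x ∈ K, ∃ i, x = b i ∨ x = -b i := by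
  classical
  let P : ℕ → Prop := fun k => ∃ s : Finset (EuclideanSpace ℝ (Fin n)), (s : Set _) ⊆ K ∧
    Orthonormal ℝ (fun x : (s : Set (EuclideanSpace ℝ (Fin n))) => (x : EuclideanSpace ℝ (Fin n))) ∧
      s.card = k
  have hb : ∀ k, P k → k ≤ n := by
    rintro k ⟨s, -, h, rfl⟩
    have h3 := h.linearIndependent.fintype_card_le_finrank
    simpa using h3
  have h0 : P 0 := ⟨∅, by simp, by
    rw [orthonormal_subtype_iff_ite]; simp, rfl⟩
  have hP := Nat.findGreatest_spec (P := P) (Nat.zero_le n) h0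
  obtain ⟨s, hsK, hso, hsc⟩ := hP
  have hmax : ∀ x ∈ K, ∃ y ∈ s, |(@inner ℝ _ _ y x : ℝ)| = 1 := by
    intro x hx
    by_contra hcon
    push Not at hcon
    have hperp : ∀ y ∈ s, (@inner ℝ _ _ y x : ℝ) = 0 := fun y hy =>
      (h2 y (hsK hy) x hx).resolve_right (hcon y hy)
    have hxs : x ∉ s := by
      intro hxs
      apply hcon x hxs
      rw [real_inner_self_eq_norm_sq, h1 x hx]
      simp
    have hPs : P (s.card + 1) := by
      refine ⟨insert x s, ?_, ?_, Finset.card_insert_of_notMem hxs⟩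
      · rw [Finset.coe_insert]
        exact Set.insert_subset hx hsK
      · rw [orthonormal_subtype_iff_ite] at hso ⊢
        intro v hv w hw
        rw [Finset.coe_insert, Set.mem_insert_iff] at hv hw
        rcases hv with rfl | hv <;> rcases hw with rfl | hw
        · rw [if_pos rfl, real_inner_self_eq_norm_sq, h1 _ hx]; norm_num
        · have : v ≠ w := fun h => hxs (h ▸ hw)
          rw [if_neg this, real_inner_comm]
          exact hperp w hw
        · have : v ≠ w := fun h => hxs (h ▸ hv)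
          rw [if_neg this]
          exact hperp v hv
        · exact hso v hv w hw
    have h4 := Nat.le_findGreatest (hb _ hPs) hPs
    omega
  obtain ⟨u, b, hu, hbu⟩ := hso.exists_orthonormalBasis_extension
  have hcard : Fintype.card u = n := by
    have := Module.finrank_eq_card_basis b.toBasis
    simpa using this.symm
  let e : u ≃ Fin n := Fintype.equivFinOfCardEq hcard
  refine ⟨b.reindex e, fun x hx => ?_⟩
  obtain ⟨y, hy, hyx⟩ := hmax x hx
  have hyu : y ∈ u := hu hy
  refine ⟨e ⟨y, hyu⟩, ?_⟩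
  have hby : (b.reindex e) (e ⟨y, hyu⟩) = y := by
    rw [OrthonormalBasis.reindex_apply, Equiv.symm_apply_apply, hbu]
  rw [hby]
  have hy1 := h1 y (hsK hy)
  have hx1 := h1 x hx
  rcases eq_or_eq_neg_of_abs_eq hyx with h | h
  · left
    exact ((inner_eq_one_iff_of_norm_eq_one hy1 hx1).1 h).symm
  · right
    have h5 : (@inner ℝ _ _ y (-x) : ℝ) = 1 := by rw [inner_neg_right, h]; ring
    have h6 := (inner_eq_one_iff_of_norm_eq_one hy1 (by rw [norm_neg]; exact hx1)).1 h5
    rw [h6, neg_neg]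

section value

variable {d : ℕ} (μ : Measure (EuclideanSpace ℝ (Fin (d + 1)))) [IsProbabilityMeasure μ]
  (b : OrthonormalBasis (Fin (d + 1)) ℝ (EuclideanSpace ℝ (Fin (d + 1))))

theorem pair_disj {i j : Fin (d + 1)} (hij : i ≠ j) :
    Disjoint ({b i, -b i} : Set (EuclideanSpace ℝ (Fin (d + 1)))) {b j, -b j} := by
  have h := orthonormal_iff_ite.1 b.orthonormal
  rw [Set.disjoint_left]
  intro x hx hx'
  simp only [Set.mem_insert_iff, Set.mem_singleton_iff] at hx hx'
  have h1 := h i j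
  have h2 := h j j
  rw [if_neg hij] at h1
  rw [if_pos rfl] at h2
  have h3 : (@inner ℝ _ _ x (b j) : ℝ) = 0 := by
    rcases hx with rfl | rfl
    · exact h1
    · rw [inner_neg_left, h1, neg_zero]
  rcases hx' with rfl | rfl
  · rw [h2] at h3; exact one_ne_zero h3
  · rw [inner_neg_left, h2] at h3; norm_num at h3

theorem meas_pair (i : Fin (d + 1)) :
    MeasurableSet ({b i, -b i} : Set (EuclideanSpace ℝ (Fin (d + 1)))) :=
  (Set.toFinite _).measurableSet

theorem int_even (hc : μ (⋃ i, ({b i, -b i} : Set (EuclideanSpace ℝ (Fin (d + 1)))))ᶜ = 0)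
    (f : EuclideanSpace ℝ (Fin (d + 1)) → ℝ) (hf : ∀ x, f (-x) = f x) :
    ∫ x, f x ∂μ = ∑ i, μ.real {b i, -b i} * f (b i) := by
  classical
  have hae : f =ᵐ[μ] fun x => ∑ i, ({b i, -b i} : Set (EuclideanSpace ℝ (Fin (d + 1)))).indicator
      (fun _ => f (b i)) x := by
    have : ∀ᵐ x ∂μ, x ∈ ⋃ i, ({b i, -b i} : Set (EuclideanSpace ℝ (Fin (d + 1)))) := by
      rw [ae_iff]; exact hc
    filter_upwards [this] with x hx
    obtain ⟨j, hj⟩ := Set.mem_iUnion.1 hx
    rw [Finset.sum_eq_single j]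
    · rw [Set.indicator_of_mem hj]
      rcases hj with rfl | hj
      · rfl
      · rw [Set.mem_singleton_iff] at hj
        rw [hj, hf]
    · intro i _ hij
      rw [Set.indicator_of_notMem]
      exact fun h => Set.disjoint_left.1 (pair_disj b hij) h hj
    · intro h; exact absurd (Finset.mem_univ j) h
  rw [integral_congr_ae hae, integral_finset_sum]
  · refine Finset.sum_congr rfl fun i _ => ?_
    rw [integral_indicator_const _ (meas_pair b i), smul_eq_mul]
  · intro i _
    exact (integrable_const _).indicator (meas_pair b i)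

theorem mass_one (hc : μ (⋃ i, ({b i, -b i} : Set (EuclideanSpace ℝ (Fin (d + 1)))))ᶜ = 0) :
    ∑ i, μ.real {b i, -b i} = 1 := by
  have h := int_even μ b hc (fun _ => (1 : ℝ)) (fun _ => rfl)
  simpa using h.symm

theorem value_of_carried {lam : ℝ} (hl : 0 < lam)
    (hc : μ (⋃ i, ({b i, -b i} : Set (EuclideanSpace ℝ (Fin (d + 1)))))ᶜ = 0) :
    ∫ x, ∫ y, Real.arccos |@inner ℝ _ _ x y| ^ lam ∂μ ∂μ =
      (Real.pi / 2) ^ lam * (1 - ∑ i, μ.real {b i, -b i} ^ 2) := by
  classical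
  have h1 : ∀ x, ∫ y, Real.arccos |@inner ℝ _ _ x y| ^ lam ∂μ =
      ∑ j, μ.real {b j, -b j} * Real.arccos |@inner ℝ _ _ x (b j)| ^ lam := fun x =>
    int_even μ b hc (fun y => Real.arccos |@inner ℝ _ _ x y| ^ lam) (fun y => by
      simp only [inner_neg_right, abs_neg])
  simp_rw [h1]
  rw [int_even μ b hc (fun x => ∑ j, μ.real {b j, -b j} * Real.arccos |@inner ℝ _ _ x (b j)| ^ lam)
    (fun x => by simp only [inner_neg_left, abs_neg])]
  have h : ∀ i j : Fin (d + 1), (@inner ℝ _ _ (b i) (b j) : ℝ) = if i = j then 1 else 0 :=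
    fun i j => orthonormal_iff_ite.1 b.orthonormal i j
  have h2 : ∀ i j : Fin (d + 1), Real.arccos |@inner ℝ _ _ (b i) (b j)| ^ lam
      = (Real.pi / 2) ^ lam * (1 - if i = j then 1 else 0) := by
    intro i j
    rw [h]
    by_cases hij : i = j
    · simp [hij, Real.zero_rpow hl.ne']
    · simp [hij]
  simp only [h2]
  have h3 := mass_one μ b hc
  have h4 : ∀ i : Fin (d + 1), ∑ j, μ.real {b j, -b j} *
      ((Real.pi / 2) ^ lam * (1 - if i = j then (1 : ℝ) else 0)) =
      (Real.pi / 2) ^ lam * (1 - μ.real {b i, -b i}) := by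
    intro i
    have : ∀ j, μ.real {b j, -b j} * ((Real.pi / 2) ^ lam * (1 - if i = j then (1 : ℝ) else 0)) =
        (Real.pi / 2) ^ lam * μ.real {b j, -b j} -
          (Real.pi / 2) ^ lam * (if i = j then μ.real {b j, -b j} else 0) := by
      intro j
      split_ifs <;> ring
    simp_rw [this]
    rw [Finset.sum_sub_distrib, ← Finset.mul_sum, ← Finset.mul_sum, h3, Finset.sum_ite_eq]
    simp
    ring
  simp only [h4]
  have h5 : ∀ i : Fin (d + 1), μ.real {b i, -b i} * ((Real.pi / 2) ^ lam *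
      (1 - μ.real {b i, -b i})) = (Real.pi / 2) ^ lam * μ.real {b i, -b i} -
      (Real.pi / 2) ^ lam * μ.real {b i, -b i} ^ 2 := fun i => by ring
  simp only [h5]
  rw [Finset.sum_sub_distrib, ← Finset.mul_sum, ← Finset.mul_sum, h3]
  ring

theorem carried_of_mass (h : ∀ i, μ {b i, -b i} = ((d + 1 : ℕ) : ENNReal)⁻¹) :
    μ (⋃ i, ({b i, -b i} : Set (EuclideanSpace ℝ (Fin (d + 1)))))ᶜ = 0 := by
  have h1 : MeasurableSet (⋃ i, ({b i, -b i} : Set (EuclideanSpace ℝ (Fin (d + 1))))) :=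
    MeasurableSet.iUnion fun i => meas_pair b i
  rw [prob_compl_eq_zero_iff h1, measure_iUnion (fun i j hij => pair_disj b hij)
    (fun i => meas_pair b i), tsum_fintype]
  simp only [h, Finset.sum_const, Finset.card_univ, Fintype.card_fin, nsmul_eq_mul]
  exact ENNReal.mul_inv_cancel (by simp) (ENNReal.natCast_ne_top _)

end value

/-- The case of equality. -/
theorem energy_eq_iff (hS : Star) (d : ℕ) {lam : ℝ} (hl : Real.pi / 2 ≤ lam)
    (μ : Measure (EuclideanSpace ℝ (Fin (d + 1)))) (hμ : IsProbabilityMeasure μ)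
    (hs : μ (Metric.sphere (0 : EuclideanSpace ℝ (Fin (d + 1))) 1)ᶜ = 0) :
    ∫ x, ∫ y, Real.arccos |@inner ℝ _ _ x y| ^ lam ∂μ ∂μ =
      (Real.pi / 2) ^ lam * ((d : ℝ) / (d + 1)) ↔
    ∃ b : OrthonormalBasis (Fin (d + 1)) ℝ (EuclideanSpace ℝ (Fin (d + 1))),
      ∀ i, μ {b i, -b i} = ((d + 1 : ℕ) : ENNReal)⁻¹ := by
  have hp := Real.pi_pos
  have hl0 : 0 < lam := by linarith
  have hA0 : 0 < (Real.pi / 2) ^ lam := by positivity
  constructor
  · intro he
    have hsup : μ.support ⊆ Metric.sphere (0 : EuclideanSpace ℝ (Fin (d + 1))) 1 :=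
      Measure.support_subset_of_isClosed Metric.isClosed_sphere (by
        rw [mem_ae_iff]; exact hs)
    have hn : ∀ x ∈ μ.support, ‖x‖ = 1 := fun x hx => mem_sphere_zero_iff_norm.1 (hsup hx)
    obtain ⟨b, hb⟩ := exists_onb μ.support hn (fun x hx y hy => by
      rcases supp_dich hS d hl μ hμ hs he.ge hx hy with h | h
      · right
        have := cos_ang (abs_inner_le_one (hn x hx) (hn y hy))
        rw [h, mul_zero, Real.cos_zero] at this
        exact this.symm
      · left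
        have := cos_ang (abs_inner_le_one (hn x hx) (hn y hy))
        rw [h, mul_one, Real.cos_pi_div_two] at this
        exact abs_eq_zero.1 this.symm)
    have hc : μ (⋃ i, ({b i, -b i} : Set (EuclideanSpace ℝ (Fin (d + 1)))))ᶜ = 0 := by
      refine measure_mono_null ?_ (Measure.measure_compl_support (μ := μ))
      rw [Set.compl_subset_compl]
      intro x hx
      obtain ⟨i, hi⟩ := hb x hx
      exact Set.mem_iUnion.2 ⟨i, hi⟩
    have hv := value_of_carried μ b hl0 hc
    have hm := mass_one μ b hc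
    rw [hv] at he
    have h6 : 1 - ∑ i, μ.real {b i, -b i} ^ 2 = (d : ℝ) / (d + 1) := mul_left_cancel₀ hA0.ne' he
    have hd1 : (0 : ℝ) < (d : ℝ) + 1 := by positivity
    have h7 : ∑ i, (μ.real {b i, -b i} - 1 / ((d : ℝ) + 1)) ^ 2 = 0 := by
      have e : ∀ i, (μ.real {b i, -b i} - 1 / ((d : ℝ) + 1)) ^ 2 = μ.real {b i, -b i} ^ 2 -
          2 / ((d : ℝ) + 1) * μ.real {b i, -b i} + (1 / ((d : ℝ) + 1)) ^ 2 := fun i => by ring
      simp only [e]
      rw [Finset.sum_add_distrib, Finset.sum_sub_distrib, ← Finset.mul_sum, hm]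
      simp only [Finset.sum_const, Finset.card_univ, Fintype.card_fin, nsmul_eq_mul]
      have h8 : ∑ i, μ.real {b i, -b i} ^ 2 = 1 - (d : ℝ) / (d + 1) := by linarith
      rw [h8]
      push_cast
      field_simp
      ring
    refine ⟨b, fun i => ?_⟩
    have h9 := (Finset.sum_eq_zero_iff_of_nonneg (fun i _ => sq_nonneg _)).1 h7 i (Finset.mem_univ i)
    have h10 : μ.real {b i, -b i} = 1 / ((d : ℝ) + 1) := by
      have := pow_eq_zero_iff (two_ne_zero) |>.1 h9
      linarith
    rw [← ENNReal.toReal_eq_toReal_iff' (measure_ne_top _ _) (by simp)]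
    rw [ENNReal.toReal_inv, ENNReal.toReal_natCast]
    change μ.real {b i, -b i} = _
    rw [h10]
    push_cast
    ring
  · rintro ⟨b, hb⟩
    have hc := carried_of_mass μ b hb
    rw [value_of_carried μ b hl0 hc]
    have hm : ∀ i, μ.real {b i, -b i} = 1 / ((d : ℝ) + 1) := by
      intro i
      rw [Measure.real, hb i, ENNReal.toReal_inv, ENNReal.toReal_natCast]
      push_cast
      ring
    simp only [hm, Finset.sum_const, Finset.card_univ, Fintype.card_fin, nsmul_eq_mul]
    push_cast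
    field_simp
    ring

end H95FL
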