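import Pool.Agent.H95.FL.Roots

/-!
# The claims on real boxes
-/

namespace H95FL

open H41FT

theorem in_of {c w : ℕ} {lo hi x : ℝ} (e1 : vl c - w ≤ lo * SS) (e2 : hi * SS ≤ vl c + w)
    (h1 : lo ≤ x) (h2 : x ≤ hi) : |x * SS - vl c| ≤ w := by
  have hS := SS_pos
  have k1 := mul_le_mul_of_nonneg_right h1 hS.le
  have k2 := mul_le_mul_of_nonneg_right h2 hS.le
  rw [abs_le]; constructor <;> linarith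

theorem gN0 (p : P) : ev gN p ≤ 0 := by
  show ((0 : ℕ) : ℝ) ≤ 0
  simp

theorem gd_gA1 {p : P} (h : Real.sin (Real.pi / 2 * p 1) * Real.cos (Real.pi / 2 * (p 0 * p 2)) -
      Real.cos (Real.pi / 2 * p 0) ≤ 0) : ev gA1 p ≤ 0 := by
  exact h

theorem gd_gA2 {p : P} (h : Real.sin (Real.pi / 2 * p 1) * Real.sin (Real.pi / 2 * ((1 - p 0) * p 2 + p 0)) -
      Real.cos (Real.pi / 2 * p 0) ≤ 0) : ev gA2 p ≤ 0 := by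
  show Real.sin (Real.pi / 2 * p 1) * Real.sin (Real.pi / 2 * ((((1 : ℕ) : ℝ) - p 0) * p 2 + p 0)) -
    Real.cos (Real.pi / 2 * p 0) ≤ 0
  push_cast; exact h

theorem gd_gA3 {p : P} (h : Real.sin (Real.pi / 2 * p 1) * Real.sin (Real.pi / 2 * (p 0 - p 0 * p 2)) -
      Real.cos (Real.pi / 2 * p 0) ≤ 0) : ev gA3 p ≤ 0 := by
  exact h

theorem gd_gC1 {p : P} (h : 1000 * (Real.sin (Real.pi / 2 * p 1) * Real.cos (Real.pi / 2 * (p 0 - p 0 * p 2))) -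
      989 ≤ 0) : ev gC1 p ≤ 0 := by
  show ((1000 : ℕ) : ℝ) * (Real.sin (Real.pi / 2 * p 1) * Real.cos (Real.pi / 2 * (p 0 - p 0 * p 2))) -
    ((989 : ℕ) : ℝ) ≤ 0
  push_cast; exact h

theorem gd_gC2 {p : P} (h : 1000 * (Real.sin (Real.pi / 2 * p 1) * Real.sin (Real.pi / 2 * ((1 - p 0) * p 2))) -
      989 ≤ 0) : ev gC2 p ≤ 0 := by
  show ((1000 : ℕ) : ℝ) * (Real.sin (Real.pi / 2 * p 1) *
    Real.sin (Real.pi / 2 * ((((1 : ℕ) : ℝ) - p 0) * p 2))) - ((989 : ℕ) : ℝ) ≤ 0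
  push_cast; exact h

theorem clAA {p : P} (l0 : 0 ≤ p 0) (r0 : p 0 ≤ 9/10) (l1 : 1/10 ≤ p 1) (r1 : p 1 ≤ 1) (l2 : 0 ≤ p 2) (r2 : p 2 ≤ 1/2)
    (g0 : Real.sin (Real.pi / 2 * p 1) * Real.cos (Real.pi / 2 * (p 0 * p 2)) -
      Real.cos (Real.pi / 2 * p 0) ≤ 0)
    (g1 : 1000 * (Real.sin (Real.pi / 2 * p 1) * Real.cos (Real.pi / 2 * (p 0 - p 0 * p 2))) -
      989 ≤ 0) :
    0 < (ev Fz1) p ∧ Sm (ev Fz1) p := by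
  refine root_AA p ⟨?_, ?_, ?_⟩ (gd_gA1 g0) (gd_gC1 g1) (gN0 p)
  · exact in_of (by norm_num [vl, BB, SS]) (by norm_num [vl, BB, SS]) l0 r0
  · exact in_of (by norm_num [vl, BB, SS]) (by norm_num [vl, BB, SS]) l1 r1
  · exact in_of (by norm_num [vl, BB, SS]) (by norm_num [vl, BB, SS]) l2 r2

theorem clAB {p : P} (l0 : 0 ≤ p 0) (r0 : p 0 ≤ 9/10) (l1 : 0 ≤ p 1) (r1 : p 1 ≤ 1/10) (l2 : 0 ≤ p 2) (r2 : p 2 ≤ 1/2) :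
    0 < (D 1 (ev Fz1)) p ∧ Sm (ev Fz1) p := by
  refine root_AB p ⟨?_, ?_, ?_⟩ (gN0 p) (gN0 p) (gN0 p)
  · exact in_of (by norm_num [vl, BB, SS]) (by norm_num [vl, BB, SS]) l0 r0
  · exact in_of (by norm_num [vl, BB, SS]) (by norm_num [vl, BB, SS]) l1 r1
  · exact in_of (by norm_num [vl, BB, SS]) (by norm_num [vl, BB, SS]) l2 r2

theorem clBA {p : P} (l0 : 1/20 ≤ p 0) (r0 : p 0 ≤ 9/10) (l1 : 1/10 ≤ p 1) (r1 : p 1 ≤ 1) (l2 : 0 ≤ p 2) (r2 : p 2 ≤ 1)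
    (g0 : Real.sin (Real.pi / 2 * p 1) * Real.sin (Real.pi / 2 * ((1 - p 0) * p 2 + p 0)) -
      Real.cos (Real.pi / 2 * p 0) ≤ 0)
    (g1 : 1000 * (Real.sin (Real.pi / 2 * p 1) * Real.sin (Real.pi / 2 * ((1 - p 0) * p 2))) -
      989 ≤ 0) :
    0 < (ev Fz2) p ∧ Sm (ev Fz2) p := by
  refine root_BA p ⟨?_, ?_, ?_⟩ (gd_gA2 g0) (gd_gC2 g1) (gN0 p)
  · exact in_of (by norm_num [vl, BB, SS]) (by norm_num [vl, BB, SS]) l0 r0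
  · exact in_of (by norm_num [vl, BB, SS]) (by norm_num [vl, BB, SS]) l1 r1
  · exact in_of (by norm_num [vl, BB, SS]) (by norm_num [vl, BB, SS]) l2 r2

theorem clBB {p : P} (l0 : 1/10 ≤ p 0) (r0 : p 0 ≤ 9/10) (l1 : 0 ≤ p 1) (r1 : p 1 ≤ 1/10) (l2 : 0 ≤ p 2) (r2 : p 2 ≤ 1) :
    0 < (D 1 (ev Fz2)) p ∧ Sm (ev Fz2) p := by
  refine root_BB p ⟨?_, ?_, ?_⟩ (gN0 p) (gN0 p) (gN0 p)
  · exact in_of (by norm_num [vl, BB, SS]) (by norm_num [vl, BB, SS]) l0 r0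
  · exact in_of (by norm_num [vl, BB, SS]) (by norm_num [vl, BB, SS]) l1 r1
  · exact in_of (by norm_num [vl, BB, SS]) (by norm_num [vl, BB, SS]) l2 r2

theorem clBC {p : P} (l0 : 0 ≤ p 0) (r0 : p 0 ≤ 1/20) (l1 : 1/10 ≤ p 1) (r1 : p 1 ≤ 1) (l2 : 1/50 ≤ p 2) (r2 : p 2 ≤ 1)
    (g0 : Real.sin (Real.pi / 2 * p 1) * Real.sin (Real.pi / 2 * ((1 - p 0) * p 2 + p 0)) -
      Real.cos (Real.pi / 2 * p 0) ≤ 0)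
    (g1 : 1000 * (Real.sin (Real.pi / 2 * p 1) * Real.sin (Real.pi / 2 * ((1 - p 0) * p 2))) -
      989 ≤ 0) :
    0 < (ev Fz2) p ∧ Sm (ev Fz2) p := by
  refine root_BC p ⟨?_, ?_, ?_⟩ (gd_gA2 g0) (gd_gC2 g1) (gN0 p)
  · exact in_of (by norm_num [vl, BB, SS]) (by norm_num [vl, BB, SS]) l0 r0
  · exact in_of (by norm_num [vl, BB, SS]) (by norm_num [vl, BB, SS]) l1 r1
  · exact in_of (by norm_num [vl, BB, SS]) (by norm_num [vl, BB, SS]) l2 r2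

theorem clBD {p : P} (l0 : 0 ≤ p 0) (r0 : p 0 ≤ 1/10) (l1 : 0 ≤ p 1) (r1 : p 1 ≤ 1/10) (l2 : 1/10 ≤ p 2) (r2 : p 2 ≤ 1) :
    0 < (D 1 (ev Fz2)) p ∧ Sm (ev Fz2) p := by
  refine root_BD p ⟨?_, ?_, ?_⟩ (gN0 p) (gN0 p) (gN0 p)
  · exact in_of (by norm_num [vl, BB, SS]) (by norm_num [vl, BB, SS]) l0 r0
  · exact in_of (by norm_num [vl, BB, SS]) (by norm_num [vl, BB, SS]) l1 r1
  · exact in_of (by norm_num [vl, BB, SS]) (by norm_num [vl, BB, SS]) l2 r2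

theorem clBE {p : P} (l0 : 0 ≤ p 0) (r0 : p 0 ≤ 1/20) (l1 : 1/10 ≤ p 1) (r1 : p 1 ≤ 1) (l2 : 0 ≤ p 2) (r2 : p 2 ≤ 1/50) :
    0 < (D 0 (ev Fz2)) p ∧ Sm (ev Fz2) p := by
  refine root_BE p ⟨?_, ?_, ?_⟩ (gN0 p) (gN0 p) (gN0 p)
  · exact in_of (by norm_num [vl, BB, SS]) (by norm_num [vl, BB, SS]) l0 r0
  · exact in_of (by norm_num [vl, BB, SS]) (by norm_num [vl, BB, SS]) l1 r1
  · exact in_of (by norm_num [vl, BB, SS]) (by norm_num [vl, BB, SS]) l2 r2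

theorem clBF {p : P} (l0 : 0 ≤ p 0) (r0 : p 0 ≤ 1/20) (l1 : 1/10 ≤ p 1) (r1 : p 1 ≤ 1) (l2 : 0 ≤ p 2) (r2 : p 2 ≤ 1/50) :
    0 < (D 2 (ev Fz2)) p ∧ Sm (ev Fz2) p := by
  refine root_BF p ⟨?_, ?_, ?_⟩ (gN0 p) (gN0 p) (gN0 p)
  · exact in_of (by norm_num [vl, BB, SS]) (by norm_num [vl, BB, SS]) l0 r0
  · exact in_of (by norm_num [vl, BB, SS]) (by norm_num [vl, BB, SS]) l1 r1
  · exact in_of (by norm_num [vl, BB, SS]) (by norm_num [vl, BB, SS]) l2 r2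

theorem clBG {p : P} (l0 : 0 ≤ p 0) (r0 : p 0 ≤ 1/10) (l1 : 0 ≤ p 1) (r1 : p 1 ≤ 1/10) (l2 : 0 ≤ p 2) (r2 : p 2 ≤ 1/10) :
    0 < (D 0 (D 1 (ev Fz2))) p ∧ Sm (ev Fz2) p := by
  refine root_BG p ⟨?_, ?_, ?_⟩ (gN0 p) (gN0 p) (gN0 p)
  · exact in_of (by norm_num [vl, BB, SS]) (by norm_num [vl, BB, SS]) l0 r0
  · exact in_of (by norm_num [vl, BB, SS]) (by norm_num [vl, BB, SS]) l1 r1
  · exact in_of (by norm_num [vl, BB, SS]) (by norm_num [vl, BB, SS]) l2 r2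

theorem clBH {p : P} (l0 : 0 ≤ p 0) (r0 : p 0 ≤ 1/10) (l1 : 0 ≤ p 1) (r1 : p 1 ≤ 1/10) (l2 : 0 ≤ p 2) (r2 : p 2 ≤ 1/10) :
    0 < (D 2 (D 1 (ev Fz2))) p ∧ Sm (ev Fz2) p := by
  refine root_BH p ⟨?_, ?_, ?_⟩ (gN0 p) (gN0 p) (gN0 p)
  · exact in_of (by norm_num [vl, BB, SS]) (by norm_num [vl, BB, SS]) l0 r0
  · exact in_of (by norm_num [vl, BB, SS]) (by norm_num [vl, BB, SS]) l1 r1
  · exact in_of (by norm_num [vl, BB, SS]) (by norm_num [vl, BB, SS]) l2 r2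

theorem clCA {p : P} (l0 : 1/10 ≤ p 0) (r0 : p 0 ≤ 9/10) (l1 : 1/10 ≤ p 1) (r1 : p 1 ≤ 1) (l2 : 0 ≤ p 2) (r2 : p 2 ≤ 1/2)
    (g0 : Real.sin (Real.pi / 2 * p 1) * Real.sin (Real.pi / 2 * (p 0 - p 0 * p 2)) -
      Real.cos (Real.pi / 2 * p 0) ≤ 0) :
    0 < (ev Fz3) p ∧ Sm (ev Fz3) p := by
  refine root_CA p ⟨?_, ?_, ?_⟩ (gd_gA3 g0) (gN0 p) (gN0 p)
  · exact in_of (by norm_num [vl, BB, SS]) (by norm_num [vl, BB, SS]) l0 r0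
  · exact in_of (by norm_num [vl, BB, SS]) (by norm_num [vl, BB, SS]) l1 r1
  · exact in_of (by norm_num [vl, BB, SS]) (by norm_num [vl, BB, SS]) l2 r2

theorem clCB {p : P} (l0 : 1/10 ≤ p 0) (r0 : p 0 ≤ 9/10) (l1 : 0 ≤ p 1) (r1 : p 1 ≤ 1/10) (l2 : 0 ≤ p 2) (r2 : p 2 ≤ 1/2) :
    0 < (D 1 (ev Fz3)) p ∧ Sm (ev Fz3) p := by
  refine root_CB p ⟨?_, ?_, ?_⟩ (gN0 p) (gN0 p) (gN0 p)
  · exact in_of (by norm_num [vl, BB, SS]) (by norm_num [vl, BB, SS]) l0 r0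
  · exact in_of (by norm_num [vl, BB, SS]) (by norm_num [vl, BB, SS]) l1 r1
  · exact in_of (by norm_num [vl, BB, SS]) (by norm_num [vl, BB, SS]) l2 r2

theorem clCC {p : P} (l0 : 0 ≤ p 0) (r0 : p 0 ≤ 1/10) (l1 : 1/10 ≤ p 1) (r1 : p 1 ≤ 1) (l2 : 0 ≤ p 2) (r2 : p 2 ≤ 1/2) :
    0 < (D 0 (ev Fz3)) p ∧ Sm (ev Fz3) p := by
  refine root_CC p ⟨?_, ?_, ?_⟩ (gN0 p) (gN0 p) (gN0 p)
  · exact in_of (by norm_num [vl, BB, SS]) (by norm_num [vl, BB, SS]) l0 r0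
  · exact in_of (by norm_num [vl, BB, SS]) (by norm_num [vl, BB, SS]) l1 r1
  · exact in_of (by norm_num [vl, BB, SS]) (by norm_num [vl, BB, SS]) l2 r2

theorem clCD {p : P} (l0 : 0 ≤ p 0) (r0 : p 0 ≤ 1/10) (l1 : 0 ≤ p 1) (r1 : p 1 ≤ 1/10) (l2 : 0 ≤ p 2) (r2 : p 2 ≤ 1/2) :
    0 < (D 0 (D 1 (ev Fz3))) p ∧ Sm (ev Fz3) p := by
  refine root_CD p ⟨?_, ?_, ?_⟩ (gN0 p) (gN0 p) (gN0 p)
  · exact in_of (by norm_num [vl, BB, SS]) (by norm_num [vl, BB, SS]) l0 r0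
  · exact in_of (by norm_num [vl, BB, SS]) (by norm_num [vl, BB, SS]) l1 r1
  · exact in_of (by norm_num [vl, BB, SS]) (by norm_num [vl, BB, SS]) l2 r2

theorem clTA {p : P} (l0 : 0 ≤ p 0) (r0 : p 0 ≤ 1/10) (l1 : 0 ≤ p 1) (r1 : p 1 ≤ 1/10) (l2 : 0 ≤ p 2) (r2 : p 2 ≤ 1/10) :
    0 < (D 0 (D 2 (ev Fs0))) p ∧ Sm (ev Fs0) p := by
  refine root_TA p ⟨?_, ?_, ?_⟩ (gN0 p) (gN0 p) (gN0 p)
  · exact in_of (by norm_num [vl, BB, SS]) (by norm_num [vl, BB, SS]) l0 r0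
  · exact in_of (by norm_num [vl, BB, SS]) (by norm_num [vl, BB, SS]) l1 r1
  · exact in_of (by norm_num [vl, BB, SS]) (by norm_num [vl, BB, SS]) l2 r2

theorem clTB {p : P} (l0 : 0 ≤ p 0) (r0 : p 0 ≤ 1/10) (l1 : 0 ≤ p 1) (r1 : p 1 ≤ 1/10) (l2 : 0 ≤ p 2) (r2 : p 2 ≤ 1/10) :
    0 < (D 1 (D 2 (ev Fs0))) p ∧ Sm (ev Fs0) p := by
  refine root_TB p ⟨?_, ?_, ?_⟩ (gN0 p) (gN0 p) (gN0 p)
  · exact in_of (by norm_num [vl, BB, SS]) (by norm_num [vl, BB, SS]) l0 r0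
  · exact in_of (by norm_num [vl, BB, SS]) (by norm_num [vl, BB, SS]) l1 r1
  · exact in_of (by norm_num [vl, BB, SS]) (by norm_num [vl, BB, SS]) l2 r2

theorem clTC {p : P} (l0 : 0 ≤ p 0) (r0 : p 0 ≤ 1/10) (l1 : 0 ≤ p 1) (r1 : p 1 ≤ 1/10) (l2 : 0 ≤ p 2) (r2 : p 2 ≤ 1/10) :
    0 < (D 2 (ev Fs1)) p ∧ Sm (ev Fs1) p := by
  refine root_TC p ⟨?_, ?_, ?_⟩ (gN0 p) (gN0 p) (gN0 p)
  · exact in_of (by norm_num [vl, BB, SS]) (by norm_num [vl, BB, SS]) l0 r0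
  · exact in_of (by norm_num [vl, BB, SS]) (by norm_num [vl, BB, SS]) l1 r1
  · exact in_of (by norm_num [vl, BB, SS]) (by norm_num [vl, BB, SS]) l2 r2

theorem clSA {p : P} (l0 : 0 ≤ p 0) (r0 : p 0 ≤ 1/10) (l1 : 0 ≤ p 1) (r1 : p 1 ≤ 1/10) (l2 : 0 ≤ p 2) (r2 : p 2 ≤ 1/10) :
    0 < (D 0 (D 1 (D 0 (ev Fs3)))) p ∧ Sm (ev Fs3) p := by
  refine root_SA p ⟨?_, ?_, ?_⟩ (gN0 p) (gN0 p) (gN0 p)
  · exact in_of (by norm_num [vl, BB, SS]) (by norm_num [vl, BB, SS]) l0 r0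
  · exact in_of (by norm_num [vl, BB, SS]) (by norm_num [vl, BB, SS]) l1 r1
  · exact in_of (by norm_num [vl, BB, SS]) (by norm_num [vl, BB, SS]) l2 r2

theorem clSB {p : P} (l0 : 0 ≤ p 0) (r0 : p 0 ≤ 1/10) (l1 : 0 ≤ p 1) (r1 : p 1 ≤ 1/10) (l2 : 0 ≤ p 2) (r2 : p 2 ≤ 1/10) :
    0 < (D 1 (D 1 (D 0 (ev Fs3)))) p ∧ Sm (ev Fs3) p := by
  refine root_SB p ⟨?_, ?_, ?_⟩ (gN0 p) (gN0 p) (gN0 p)
  · exact in_of (by norm_num [vl, BB, SS]) (by norm_num [vl, BB, SS]) l0 r0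
  · exact in_of (by norm_num [vl, BB, SS]) (by norm_num [vl, BB, SS]) l1 r1
  · exact in_of (by norm_num [vl, BB, SS]) (by norm_num [vl, BB, SS]) l2 r2

theorem clSC {p : P} (l0 : 0 ≤ p 0) (r0 : p 0 ≤ 1/10) (l1 : 0 ≤ p 1) (r1 : p 1 ≤ 1/10) (l2 : 0 ≤ p 2) (r2 : p 2 ≤ 1/10) :
    0 < (D 2 (D 1 (D 0 (ev Fs3)))) p ∧ Sm (ev Fs3) p := by
  refine root_SC p ⟨?_, ?_, ?_⟩ (gN0 p) (gN0 p) (gN0 p)
  · exact in_of (by norm_num [vl, BB, SS]) (by norm_num [vl, BB, SS]) l0 r0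
  · exact in_of (by norm_num [vl, BB, SS]) (by norm_num [vl, BB, SS]) l1 r1
  · exact in_of (by norm_num [vl, BB, SS]) (by norm_num [vl, BB, SS]) l2 r2

theorem clSD {p : P} (l0 : 0 ≤ p 0) (r0 : p 0 ≤ 1/10) (l1 : 0 ≤ p 1) (r1 : p 1 ≤ 1/10) (l2 : 0 ≤ p 2) (r2 : p 2 ≤ 1/10) :
    0 < (D 0 (D 0 (D 2 (ev Fs3)))) p ∧ Sm (ev Fs3) p := by
  refine root_SD p ⟨?_, ?_, ?_⟩ (gN0 p) (gN0 p) (gN0 p)
  · exact in_of (by norm_num [vl, BB, SS]) (by norm_num [vl, BB, SS]) l0 r0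
  · exact in_of (by norm_num [vl, BB, SS]) (by norm_num [vl, BB, SS]) l1 r1
  · exact in_of (by norm_num [vl, BB, SS]) (by norm_num [vl, BB, SS]) l2 r2

theorem clSE {p : P} (l0 : 0 ≤ p 0) (r0 : p 0 ≤ 1/10) (l1 : 0 ≤ p 1) (r1 : p 1 ≤ 1/10) (l2 : 0 ≤ p 2) (r2 : p 2 ≤ 1/10) :
    0 < (D 1 (D 0 (D 2 (ev Fs3)))) p ∧ Sm (ev Fs3) p := by
  refine root_SE p ⟨?_, ?_, ?_⟩ (gN0 p) (gN0 p) (gN0 p)
  · exact in_of (by norm_num [vl, BB, SS]) (by norm_num [vl, BB, SS]) l0 r0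
  · exact in_of (by norm_num [vl, BB, SS]) (by norm_num [vl, BB, SS]) l1 r1
  · exact in_of (by norm_num [vl, BB, SS]) (by norm_num [vl, BB, SS]) l2 r2

theorem clSF {p : P} (l0 : 0 ≤ p 0) (r0 : p 0 ≤ 1/10) (l1 : 0 ≤ p 1) (r1 : p 1 ≤ 1/10) (l2 : 0 ≤ p 2) (r2 : p 2 ≤ 1/10) :
    0 < (D 2 (D 0 (D 2 (ev Fs3)))) p ∧ Sm (ev Fs3) p := by
  refine root_SF p ⟨?_, ?_, ?_⟩ (gN0 p) (gN0 p) (gN0 p)
  · exact in_of (by norm_num [vl, BB, SS]) (by norm_num [vl, BB, SS]) l0 r0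
  · exact in_of (by norm_num [vl, BB, SS]) (by norm_num [vl, BB, SS]) l1 r1
  · exact in_of (by norm_num [vl, BB, SS]) (by norm_num [vl, BB, SS]) l2 r2

theorem clSG {p : P} (l0 : 0 ≤ p 0) (r0 : p 0 ≤ 1/10) (l1 : 0 ≤ p 1) (r1 : p 1 ≤ 1/10) (l2 : 0 ≤ p 2) (r2 : p 2 ≤ 1/10) :
    0 < (D 0 (D 1 (D 2 (ev Fs3)))) p ∧ Sm (ev Fs3) p := by
  refine root_SG p ⟨?_, ?_, ?_⟩ (gN0 p) (gN0 p) (gN0 p)
  · exact in_of (by norm_num [vl, BB, SS]) (by norm_num [vl, BB, SS]) l0 r0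
  · exact in_of (by norm_num [vl, BB, SS]) (by norm_num [vl, BB, SS]) l1 r1
  · exact in_of (by norm_num [vl, BB, SS]) (by norm_num [vl, BB, SS]) l2 r2

theorem clSH {p : P} (l0 : 0 ≤ p 0) (r0 : p 0 ≤ 1/10) (l1 : 0 ≤ p 1) (r1 : p 1 ≤ 1/10) (l2 : 0 ≤ p 2) (r2 : p 2 ≤ 1/10) :
    0 < (D 1 (D 1 (D 2 (ev Fs3)))) p ∧ Sm (ev Fs3) p := by
  refine root_SH p ⟨?_, ?_, ?_⟩ (gN0 p) (gN0 p) (gN0 p)
  · exact in_of (by norm_num [vl, BB, SS]) (by norm_num [vl, BB, SS]) l0 r0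
  · exact in_of (by norm_num [vl, BB, SS]) (by norm_num [vl, BB, SS]) l1 r1
  · exact in_of (by norm_num [vl, BB, SS]) (by norm_num [vl, BB, SS]) l2 r2

theorem clSI {p : P} (l0 : 0 ≤ p 0) (r0 : p 0 ≤ 1/10) (l1 : 0 ≤ p 1) (r1 : p 1 ≤ 1/10) (l2 : 0 ≤ p 2) (r2 : p 2 ≤ 1/10) :
    0 < (D 2 (D 1 (D 2 (ev Fs3)))) p ∧ Sm (ev Fs3) p := by
  refine root_SI p ⟨?_, ?_, ?_⟩ (gN0 p) (gN0 p) (gN0 p)
  · exact in_of (by norm_num [vl, BB, SS]) (by norm_num [vl, BB, SS]) l0 r0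
  · exact in_of (by norm_num [vl, BB, SS]) (by norm_num [vl, BB, SS]) l1 r1
  · exact in_of (by norm_num [vl, BB, SS]) (by norm_num [vl, BB, SS]) l2 r2

end H95FL
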