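import Pool.Agent.H95.FL.Jet

/-!
# The second jet of the function at the orthonormal basis vanishes
-/

namespace H95FL

open H41FT Filter Topology Real

theorem lt_app' {A B : Type} (e : A) (f : A → B) : H41FT.lt e f = f e := rfl

section

variable {i j : Fin 3} {p : P} {f g k : P → ℝ} {b c d b' c' d' b'' c'' d'' e : ℝ}

theorem J2.one_sub (h : J2 i j p f 0 b c d) : J2 i j p (fO.sub (fO.nat 1) f) 1 (-b) (-c) (-d) :=
  ((J2.nat 1).sub h).cast (by simp) (by ring) (by ring) (by ring)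

theorem J2.qq0 (h : J2 i j p f 0 b c d) :
    J2 i j p (qq fO f) 0 (π / 2 * b) (π / 2 * c) (2 * (1 - π / 2) * (b * c) + π / 2 * d) := by
  unfold qq
  exact ((h.mul h).add (h.mul h.one_sub).hm).cast (by ring) (by ring) (by ring) (by ring)

theorem J2.tr1 (hp : J2 i j p f 1 b c d) (hq : J2 i j p g 1 b' c' d')
    (hs : J2 i j p k 0 b'' c'' d'') :
    J2 i j p (tr fO f g k) 1 (b + b' + b'') (c + c' + c'')
      (d + d' + d'' + b * c' + b' * c + (b + b') * c'' + (c + c') * b'') := by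
  unfold tr
  exact ((hp.mul hq).mul ((J2.nat 1).add hs)).cast (by simp) (by push_cast; ring)
    (by push_cast; ring) (by push_cast; ring)

theorem J2.hang (hn : J2 i j p f 0 b c d) (hm : J2 i j p g 2 0 0 e) :
    J2 i j p (fO.smul 2 (fO.at_ (fO.mul f (fO.inv g)))) 0 (2 / π * b) (2 / π * c) (2 / π * d) := by
  have h1 : J2 i j p (fO.mul f (fO.inv g)) 0 (b / 2) (c / 2) (d / 2) :=
    (hn.mul (hm.inv (by norm_num))).cast (by ring) (by ring) (by ring) (by ring)
  exact (h1.at_.smul 2).cast (by simp) (by push_cast; ring) (by push_cast; ring)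
    (by push_cast; ring)

theorem J2.mul0 (h : J2 i j p f 0 b c d) (h' : J2 i j p g 0 b' c' d') :
    J2 i j p (fO.mul f g) 0 0 0 (b * c' + b' * c) :=
  (h.mul h').cast (by ring) (by ring) (by ring) (by ring)

theorem J2.sn0 (h : J2 i j p f 0 b c 0) : J2 i j p (fO.sn f) 0 (π / 2 * b) (π / 2 * c) 0 :=
  h.sn.cast (by simp) (by simp) (by simp) (by simp)

theorem J2.cs0 (h : J2 i j p f 0 b c 0) : J2 i j p (fO.cs f) 1 0 0 (-(π / 2) ^ 2 * (b * c)) :=
  h.cs.cast (by simp) (by simp) (by simp) (by simp; ring)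

theorem J2.vt0 {x y z : P → ℝ} {b0 b1 b2 c0 c1 c2 : ℝ} (hx : J2 i j p x 0 b0 c0 0)
    (hy : J2 i j p y 0 b1 c1 0) (hz : J2 i j p z 0 b2 c2 0) :
    J2 i j p (vt fO 3 x y z) 0 0 0 0 := by
  have h1 := hy.mul0 hz
  have h2 := hx.mul0 hx
  have h3 := ((hx.mul h1).smul 3)
  have h4 := (h2.mul ((hy.mul hy).add (hz.mul hz))).add (h1.mul h1)
  have h5 := ((J2.nat (i := i) (j := j) (p := p) 0).sub h3).sub h4
  have e : vt fO 3 x y z = fO.sub (fO.sub (fO.nat 0) (fO.smul 3 (fO.mul x (fO.mul y z))))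
    (fO.add (fO.mul (fO.mul x x) (fO.add (fO.mul y y) (fO.mul z z)))
      (fO.mul (fO.mul y z) (fO.mul y z))) := by
    rw [vt, lt_app', lt_app', lt_app', lt_app']
    rfl
  rw [e]
  exact h5.cast (by simp) (by simp) (by simp) (by simp)

end

theorem jet_Fs3 {i j : Fin 3} {p : P} {x y z : P → ℝ} {b0 b1 b2 c0 c1 c2 : ℝ}
    (hx : J2 i j p x 0 b0 c0 0) (hy : J2 i j p y 0 b1 c1 0) (hz : J2 i j p z 0 b2 c2 0) :
    J2 i j p (Fs3 fO x y z) 0 0 0 0 := by
  have hp := Real.pi_pos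
  have hu := hx.sn0
  have hv := hy.sn0
  have hw := hz.sn0
  have hsa := hx.cs0
  have hsb := hy.cs0
  have hsc := hz.cs0
  have huv := hu.mul0 hv
  have hvw := hv.mul0 hw
  have hwu := hw.mul0 hu
  have hG := (((J2.nat (i := i) (j := j) (p := p) 1).sub (hu.mul hu)).sub (hv.mul hv)).sub
    (hw.mul hw)
  have he := (huv.mul hw).smul 2
  have hD2 := (hG.sub he).cast (a' := 1) (b' := 0) (c' := 0)
    (d' := -2 * (π / 2) ^ 2 * (b0 * c0 + b1 * c1 + b2 * c2)) (by simp) (by simp) (by simp)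
    (by simp; ring)
  have hDr := (hD2.sqrt one_pos).cast (a' := 1) (b' := 0) (c' := 0)
    (d' := -(π / 2) ^ 2 * (b0 * c0 + b1 * c1 + b2 * c2)) (by simp) (by simp) (by simp)
    (by simp; ring)
  have hnx := hu.add hvw
  have hny := hv.add hwu
  have hnz := hw.add huv
  have hbc := ((hsb.mul hsc).add hDr).cast (a' := 2) (b' := 0) (c' := 0) (by norm_num) (by simp)
    (by simp) rfl
  have hca := ((hsc.mul hsa).add hDr).cast (a' := 2) (b' := 0) (c' := 0) (by norm_num) (by simp)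
    (by simp) rfl
  have hab := ((hsa.mul hsb).add hDr).cast (a' := 2) (b' := 0) (c' := 0) (by norm_num) (by simp)
    (by simp) rfl
  have hgx := ((hnx.cast (a' := 0) (by simp) rfl rfl rfl).hang hbc).cast (b' := b0) (c' := c0)
    (d' := π / 2 * (b1 * c2 + b2 * c1)) rfl (by field_simp; ring) (by field_simp; ring)
    (by field_simp; ring)
  have hgy := ((hny.cast (a' := 0) (by simp) rfl rfl rfl).hang hca).cast (b' := b1) (c' := c1)
    (d' := π / 2 * (b0 * c2 + b2 * c0)) rfl (by field_simp; ring) (by field_simp; ring)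
    (by field_simp; ring)
  have hgz := ((hnz.cast (a' := 0) (by simp) rfl rfl rfl).hang hab).cast (b' := b2) (c' := c2)
    (d' := π / 2 * (b0 * c1 + b1 * c0)) rfl (by field_simp; ring) (by field_simp; ring)
    (by field_simp; ring)
  have hP := hx.qq0.one_sub
  have hQ := hy.qq0.one_sub
  have hR := hz.qq0.one_sub
  have h1 := hP.tr1 hQ hgz.qq0
  have h2 := hP.tr1 hR hgy.qq0
  have h3 := hQ.tr1 hR hgx.qq0
  have hV := hu.vt0 hv hw
  have hF := ((hP.add (hQ.add hR)).sub (h1.add (h2.add h3))).sub hV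
  have hF' := hF.cast (a' := 0) (b' := 0) (c' := 0) (d' := 0) (by norm_num) (by ring) (by ring)
    (by ring)
  rw [Fs3, Fs, sd]
  simp only [lt_app', fs]
  exact hF'

theorem jet_zero (i j : Fin 3) {p : P} (h0 : p 0 = 0) (h1 : p 1 = 0) (h2 : p 2 = 0) :
    D j (D i (Fs3 fO (co 0) (co 1) (co 2))) p = 0 := by
  have k0 := J2.co (i := i) (j := j) (p := p) 0
  have k1 := J2.co (i := i) (j := j) (p := p) 1
  have k2 := J2.co (i := i) (j := j) (p := p) 2
  rw [h0] at k0
  rw [h1] at k1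
  rw [h2] at k2
  exact (jet_Fs3 k0 k1 k2).y.d

end H95FL
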