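import Pool.Agent.H95.FL.Mono
import Pool.Agent.H95.FL.JetF

/-!
# Nonnegativity near the orthonormal basis
-/

namespace H95FL

open Real Function H41FT

theorem ev_Fs3 (p : P) : ev Fs3 p = Fs3 rO (p 0) (p 1) (p 2) := rfl
theorem ev_Fs0 (p : P) : ev Fs0 p = Fs0 rO (p 0) (p 1) (p 2) := rfl
theorem ev_Fs1 (p : P) : ev Fs1 p = Fs1 rO (p 0) (p 1) (p 2) := rfl

theorem Fs_eq (k : ℕ) (x y z : ℝ) : Fs rO k x y z =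
    sd rO k x y z (sin (π / 2 * x)) (sin (π / 2 * y)) (sin (π / 2 * z)) (cos (π / 2 * x))
      (cos (π / 2 * y)) (cos (π / 2 * z)) := rfl

theorem sd_a3 {x u s : ℝ} (hs : 0 ≤ s) (h1 : u * u + s * s = 1)
    (hg : 2 * (2 / π * arctan (u * (1 + s)⁻¹)) = x) : sd rO 3 x 0 0 u 0 0 s 1 1 = 0 := by
  have h2 : √(1 - u * u) = s := by
    rw [show 1 - u * u = s * s by linarith]; exact Real.sqrt_mul_self hs
  unfold sd vt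
  simp only [H41FT.lt, rO, fs, tr, qq, mul_zero, zero_mul, add_zero, sub_zero, zero_sub, mul_one,
    one_mul, zero_add, Nat.cast_one, Nat.cast_ofNat, Nat.cast_zero, neg_zero, h2, arctan_zero, hg]
  ring

theorem sd_b3 {x u s : ℝ} (hs : 0 ≤ s) (h1 : u * u + s * s = 1)
    (hg : 2 * (2 / π * arctan (u * (1 + s)⁻¹)) = x) : sd rO 3 0 x 0 0 u 0 1 s 1 = 0 := by
  have h2 : √(1 - u * u) = s := by
    rw [show 1 - u * u = s * s by linarith]; exact Real.sqrt_mul_self hs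
  unfold sd vt
  simp only [H41FT.lt, rO, fs, tr, qq, mul_zero, zero_mul, add_zero, sub_zero, zero_sub, mul_one,
    one_mul, zero_add, Nat.cast_one, Nat.cast_ofNat, Nat.cast_zero, neg_zero, h2, arctan_zero, hg]
  ring

theorem sd_c3 {x u s : ℝ} (hs : 0 ≤ s) (h1 : u * u + s * s = 1)
    (hg : 2 * (2 / π * arctan (u * (1 + s)⁻¹)) = x) : sd rO 3 0 0 x 0 0 u 1 1 s = 0 := by
  have h2 : √(1 - u * u) = s := by
    rw [show 1 - u * u = s * s by linarith]; exact Real.sqrt_mul_self hs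
  unfold sd vt
  simp only [H41FT.lt, rO, fs, tr, qq, mul_zero, zero_mul, add_zero, sub_zero, zero_sub, mul_one,
    one_mul, zero_add, Nat.cast_one, Nat.cast_ofNat, Nat.cast_zero, neg_zero, h2, arctan_zero, hg]
  ring

theorem sd_c0 {x u s : ℝ} (hs : 0 ≤ s) (h1 : u * u + s * s = 1)
    (hg : 2 * (2 / π * arctan (u * (1 + s)⁻¹)) = x) : sd rO 0 0 0 x 0 0 u 1 1 s = 0 := by
  have h2 : √(1 - u * u) = s := by
    rw [show 1 - u * u = s * s by linarith]; exact Real.sqrt_mul_self hs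
  unfold sd vt
  simp only [H41FT.lt, rO, fs, tr, qq, mul_zero, zero_mul, add_zero, sub_zero, zero_sub, mul_one,
    one_mul, zero_add, Nat.cast_one, Nat.cast_ofNat, Nat.cast_zero, neg_zero, h2, arctan_zero, hg]
  ring

theorem sd_13 {x y u v sa sb : ℝ} : sd rO 1 x y 0 u v 0 sa sb 1 = sd rO 3 x y 0 u v 0 sa sb 1 := by
  unfold sd vt
  simp only [H41FT.lt, rO, fs, tr, qq, mul_zero, zero_mul, add_zero, sub_zero, zero_sub, mul_one,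
    one_mul, zero_add, Nat.cast_zero, neg_zero]

theorem sd_01 {x y z u v w sa sb sc : ℝ} (h : w = u * v) :
    sd rO 0 x y z u v w sa sb sc = sd rO 1 x y z u v w sa sb sc := by
  subst h
  unfold sd vt
  simp only [H41FT.lt, rO, fs, tr, qq, sub_self]

/-! ### faces -/

theorem half_data {x : ℝ} (h0 : 0 ≤ x) (h1 : x ≤ 1) :
    0 ≤ cos (π / 2 * x) ∧ sin (π / 2 * x) * sin (π / 2 * x) + cos (π / 2 * x) * cos (π / 2 * x) = 1 ∧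
      2 * (2 / π * arctan (sin (π / 2 * x) * (1 + cos (π / 2 * x))⁻¹)) = x := by
  have hp := Real.pi_pos
  refine ⟨cos_nonneg_of_mem_Icc ⟨by nlinarith, by nlinarith⟩, ?_,
    at_half (by linarith) (by linarith)⟩
  have := sin_sq_add_cos_sq (π / 2 * x)
  nlinarith

theorem Fs3_a {x : ℝ} (h0 : 0 ≤ x) (h1 : x ≤ 1) : Fs3 rO x 0 0 = 0 := by
  obtain ⟨k1, k2, k3⟩ := half_data h0 h1
  rw [Fs3, Fs_eq]
  simp only [mul_zero, sin_zero, cos_zero]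
  exact sd_a3 k1 k2 k3
theorem Fs3_b {x : ℝ} (h0 : 0 ≤ x) (h1 : x ≤ 1) : Fs3 rO 0 x 0 = 0 := by
  obtain ⟨k1, k2, k3⟩ := half_data h0 h1
  rw [Fs3, Fs_eq]
  simp only [mul_zero, sin_zero, cos_zero]
  exact sd_b3 k1 k2 k3
theorem Fs3_c {x : ℝ} (h0 : 0 ≤ x) (h1 : x ≤ 1) : Fs3 rO 0 0 x = 0 := by
  obtain ⟨k1, k2, k3⟩ := half_data h0 h1
  rw [Fs3, Fs_eq]
  simp only [mul_zero, sin_zero, cos_zero]
  exact sd_c3 k1 k2 k3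
theorem Fs0_c {x : ℝ} (h0 : 0 ≤ x) (h1 : x ≤ 1) : Fs0 rO 0 0 x = 0 := by
  obtain ⟨k1, k2, k3⟩ := half_data h0 h1
  rw [Fs0, Fs_eq]
  simp only [mul_zero, sin_zero, cos_zero]
  exact sd_c0 k1 k2 k3
theorem Fs1_Fs3 (x y : ℝ) : Fs1 rO x y 0 = Fs3 rO x y 0 := by
  rw [Fs1, Fs3, Fs_eq, Fs_eq]
  simp only [mul_zero, sin_zero, cos_zero]
  exact sd_13
theorem Fs0_Fs1 {x y z : ℝ} (h : sin (π / 2 * z) = sin (π / 2 * x) * sin (π / 2 * y)) :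
    Fs0 rO x y z = Fs1 rO x y z := by
  rw [Fs0, Fs1, Fs_eq, Fs_eq]
  exact sd_01 h

/-! ### `σ = -1` -/

theorem cube_nonneg {g : P → ℝ} {b : ℝ}
    (h : ∀ p, B3 0 b 0 b 0 b p → Sm g p ∧ 0 ≤ D 0 g p ∧ 0 ≤ D 1 g p ∧ 0 ≤ D 2 g p)
    (h0 : ∀ p : P, p 0 = 0 → p 1 = 0 → p 2 = 0 → 0 ≤ g p) : ∀ p, B3 0 b 0 b 0 b p → 0 ≤ g p := by
  have k1 : ∀ p : P, B3 0 b 0 b 0 b p ∧ p 1 = 0 ∧ p 2 = 0 → 0 ≤ g p := by
    refine pat1 (i := 0) (lo := 0) (fun p k => ⟨k.1.l0, fun t ht ht' =>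
      ⟨k.1.lo0.2 t ht ht', ?_, ?_⟩⟩) (fun p k => ⟨(h p k.1).2.1, (h p k.1).1⟩)
      (fun p k k0 => h0 p k0 k.2.1 k.2.2)
    · rw [u01]; exact k.2.1
    · rw [u02]; exact k.2.2
  have k2 : ∀ p : P, B3 0 b 0 b 0 b p ∧ p 2 = 0 → 0 ≤ g p := by
    refine pat1 (i := 1) (lo := 0) (fun p k => ⟨k.1.l1, fun t ht ht' =>
      ⟨k.1.lo1.2 t ht ht', ?_⟩⟩) (fun p k => ⟨(h p k.1).2.2.1, (h p k.1).1⟩)
      (fun p k k0 => k1 p ⟨k.1, k0, k.2⟩)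
    rw [u12]; exact k.2
  exact pat1 (i := 2) (lo := 0) (fun p k => ⟨k.l2, fun t ht ht' => k.lo2.2 t ht ht'⟩)
    (fun p k => ⟨(h p k).2.2.2, (h p k).1⟩) (fun p k k0 => k2 p ⟨k, k0⟩)

theorem g01 : ∀ p : P, B3 0 (1/10) 0 (1/10) 0 (1/10) p → 0 ≤ D 1 (D 0 (ev Fs3)) p := by
  refine cube_nonneg (fun p h => ?_) (fun p h0 h1 h2 => (jet_zero 0 1 h0 h1 h2).ge)
  obtain ⟨k1, k2⟩ := clSA h.l0 h.r0 h.l1 h.r1 h.l2 h.r2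
  exact ⟨(k2.D 0).D 1, k1.le, (clSB h.l0 h.r0 h.l1 h.r1 h.l2 h.r2).1.le,
    (clSC h.l0 h.r0 h.l1 h.r1 h.l2 h.r2).1.le⟩

theorem g20 : ∀ p : P, B3 0 (1/10) 0 (1/10) 0 (1/10) p → 0 ≤ D 0 (D 2 (ev Fs3)) p := by
  refine cube_nonneg (fun p h => ?_) (fun p h0 h1 h2 => (jet_zero 2 0 h0 h1 h2).ge)
  obtain ⟨k1, k2⟩ := clSD h.l0 h.r0 h.l1 h.r1 h.l2 h.r2
  exact ⟨(k2.D 2).D 0, k1.le, (clSE h.l0 h.r0 h.l1 h.r1 h.l2 h.r2).1.le,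
    (clSF h.l0 h.r0 h.l1 h.r1 h.l2 h.r2).1.le⟩

theorem g21 : ∀ p : P, B3 0 (1/10) 0 (1/10) 0 (1/10) p → 0 ≤ D 1 (D 2 (ev Fs3)) p := by
  refine cube_nonneg (fun p h => ?_) (fun p h0 h1 h2 => (jet_zero 2 1 h0 h1 h2).ge)
  obtain ⟨k1, k2⟩ := clSG h.l0 h.r0 h.l1 h.r1 h.l2 h.r2
  exact ⟨(k2.D 2).D 1, k1.le, (clSH h.l0 h.r0 h.l1 h.r1 h.l2 h.r2).1.le,
    (clSI h.l0 h.r0 h.l1 h.r1 h.l2 h.r2).1.le⟩

theorem smS {p : P} (h : B3 0 (1/10) 0 (1/10) 0 (1/10) p) : Sm (ev Fs3) p :=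
  (clSA h.l0 h.r0 h.l1 h.r1 h.l2 h.r2).2

theorem rS2 : ∀ p : P, B3 0 (1/10) 0 (1/10) 0 (1/10) p ∧ p 2 = 0 → 0 ≤ ev Fs3 p := by
  have key : ∀ p : P, B3 0 (1/10) 0 (1/10) 0 (1/10) p ∧ p 2 = 0 → 0 ≤ D 0 (ev Fs3) p := by
    refine pat1 (i := 1) (lo := 0) (fun p k => ⟨k.1.l1, fun t ht ht' =>
      ⟨k.1.lo1.2 t ht ht', ?_⟩⟩) (fun p k => ⟨g01 p k.1, (smS k.1).D 0⟩) (fun p k k0 => ?_)
    · rw [u12]; exact k.2
    · refine (Zl.D ⟨0, 1/10, by norm_num, k.1.l0, k.1.r0, fun t ht ht' => ?_⟩ (smS k.1)).ge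
      rw [ev_Fs3, u00, u01, u02, k0, k.2]
      exact Fs3_a ht (by linarith)
  refine pat1 (i := 0) (lo := 0) (fun p k => ⟨k.1.l0, fun t ht ht' =>
      ⟨k.1.lo0.2 t ht ht', ?_⟩⟩) (fun p k => ⟨key p k, smS k.1⟩) (fun p k k0 => ?_)
  · rw [u02]; exact k.2
  · rw [ev_Fs3, k0, k.2]
    exact (Fs3_b k.1.l1 (by linarith [k.1.r1])).ge

theorem rS : ∀ p : P, B3 0 (1/10) 0 (1/10) 0 (1/10) p → 0 ≤ ev Fs3 p := by
  have key0 : ∀ p : P, B3 0 (1/10) 0 (1/10) 0 (1/10) p ∧ p 0 = 0 → 0 ≤ D 2 (ev Fs3) p := by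
    refine pat1 (i := 1) (lo := 0) (fun p k => ⟨k.1.l1, fun t ht ht' =>
      ⟨k.1.lo1.2 t ht ht', ?_⟩⟩) (fun p k => ⟨g21 p k.1, (smS k.1).D 2⟩) (fun p k k0 => ?_)
    · rw [u10]; exact k.2
    · refine (Zl.D ⟨0, 1/10, by norm_num, k.1.l2, k.1.r2, fun t ht ht' => ?_⟩ (smS k.1)).ge
      rw [ev_Fs3, u20, u21, u22, k0, k.2]
      exact Fs3_c ht (by linarith)
  have key : ∀ p : P, B3 0 (1/10) 0 (1/10) 0 (1/10) p → 0 ≤ D 2 (ev Fs3) p :=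
    pat1 (i := 0) (lo := 0) (fun p k => ⟨k.l0, fun t ht ht' => k.lo0.2 t ht ht'⟩)
      (fun p k => ⟨g20 p k, (smS k).D 2⟩) (fun p k k0 => key0 p ⟨k, k0⟩)
  exact pat1 (i := 2) (lo := 0) (fun p k => ⟨k.l2, fun t ht ht' => k.lo2.2 t ht ht'⟩)
    (fun p k => ⟨key p k, smS k⟩) (fun p k k0 => rS2 p ⟨k, k0⟩)

theorem R_Fs3 {x y z : ℝ} (x0 : 0 ≤ x) (x1 : x ≤ 1/10) (y0 : 0 ≤ y) (y1 : y ≤ 1/10) (z0 : 0 ≤ z)
    (z1 : z ≤ 1/10) : 0 ≤ Fs3 rO x y z := by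
  have he : Fs3 rO x y z = ev Fs3 ![x, y, z] := rfl
  rw [he]
  exact rS _ ⟨x0, x1, y0, y1, z0, z1⟩

/-! ### `σ = 1`, obtuse -/

theorem rT1 : ∀ p : P, B3 0 (1/10) 0 (1/10) 0 (1/10) p → 0 ≤ ev Fs1 p := by
  refine pat1 (i := 2) (lo := 0) (fun p k => ⟨k.l2, fun t ht ht' => k.lo2.2 t ht ht'⟩)
    (fun p h => ?_) (fun p k k0 => ?_)
  · obtain ⟨k1, k2⟩ := clTC h.l0 h.r0 h.l1 h.r1 h.l2 h.r2
    exact ⟨k1.le, k2⟩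
  · rw [ev_Fs1, k0, Fs1_Fs3]
    exact R_Fs3 k.l0 k.r0 k.l1 k.r1 le_rfl (by norm_num)

theorem R_Fs1 {x y z : ℝ} (x0 : 0 ≤ x) (x1 : x ≤ 1/10) (y0 : 0 ≤ y) (y1 : y ≤ 1/10) (z0 : 0 ≤ z)
    (z1 : z ≤ 1/10) : 0 ≤ Fs1 rO x y z := by
  have he : Fs1 rO x y z = ev Fs1 ![x, y, z] := rfl
  rw [he]
  exact rT1 _ ⟨x0, x1, y0, y1, z0, z1⟩

/-! ### `σ = 1`, acute -/

theorem smT {p : P} (h : B3 0 (1/10) 0 (1/10) 0 (1/10) p) : Sm (ev Fs0) p :=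
  (clTA h.l0 h.r0 h.l1 h.r1 h.l2 h.r2).2

theorem rT0D : ∀ p : P, B3 0 (1/10) 0 (1/10) 0 (1/10) p → 0 ≤ D 2 (ev Fs0) p := by
  have key0 : ∀ p : P, B3 0 (1/10) 0 (1/10) 0 (1/10) p ∧ p 0 = 0 → 0 ≤ D 2 (ev Fs0) p := by
    refine pat1 (i := 1) (lo := 0) (fun p k => ⟨k.1.l1, fun t ht ht' =>
      ⟨k.1.lo1.2 t ht ht', ?_⟩⟩) (fun p k => ⟨(clTB k.1.l0 k.1.r0 k.1.l1 k.1.r1 k.1.l2 k.1.r2).1.le,
        (smT k.1).D 2⟩) (fun p k k0 => ?_)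
    · rw [u10]; exact k.2
    · refine (Zl.D ⟨0, 1/10, by norm_num, k.1.l2, k.1.r2, fun t ht ht' => ?_⟩ (smT k.1)).ge
      rw [ev_Fs0, u20, u21, u22, k0, k.2]
      exact Fs0_c ht (by linarith)
  exact pat1 (i := 0) (lo := 0) (fun p k => ⟨k.l0, fun t ht ht' => k.lo0.2 t ht ht'⟩)
      (fun p k => ⟨(clTA k.l0 k.r0 k.l1 k.r1 k.l2 k.r2).1.le, (smT k).D 2⟩)
      (fun p k k0 => key0 p ⟨k, k0⟩)

theorem R_Fs0 {x y z : ℝ} (x0 : 0 ≤ x) (x1 : x ≤ 1/10) (y0 : 0 ≤ y) (y1 : y ≤ 1/10) (z0 : 0 ≤ z)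
    (z1 : z ≤ 1/10) (hg : sin (π / 2 * x) * sin (π / 2 * y) ≤ sin (π / 2 * z)) :
    0 ≤ Fs0 rO x y z := by
  have hp := Real.pi_pos
  -- the parameter where the angle is right
  have hsx : 0 ≤ sin (π / 2 * x) := sin_nonneg_of_nonneg_of_le_pi (by positivity) (by nlinarith)
  have hsy : 0 ≤ sin (π / 2 * y) := sin_nonneg_of_nonneg_of_le_pi (by positivity) (by nlinarith)
  obtain ⟨t, ht0, htz, ht⟩ : ∃ t, 0 ≤ t ∧ t ≤ z ∧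
      sin (π / 2 * t) = sin (π / 2 * x) * sin (π / 2 * y) := by
    have hc : ContinuousOn (fun t => sin (π / 2 * t)) (Set.Icc 0 z) := by fun_prop
    have := intermediate_value_Icc z0 hc
    have hm : sin (π / 2 * x) * sin (π / 2 * y) ∈
        Set.Icc (sin (π / 2 * 0)) (sin (π / 2 * z)) := by
      refine ⟨?_, hg⟩
      rw [mul_zero, sin_zero]
      exact mul_nonneg hsx hsy
    obtain ⟨t, ⟨h1, h2⟩, h3⟩ := this hm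
    exact ⟨t, h1, h2, h3⟩
  have h1 : Fs0 rO x y t ≤ Fs0 rO x y z := by
    have h2 := mono_line (φ := ev Fs0) (p := ![x, y, z]) (i := 2) htz
      (fun s hs hs' => smT ⟨x0, x1, y0, y1, by rw [u22]; linarith, by rw [u22]; linarith⟩)
      (fun s hs hs' => rT0D _ ⟨x0, x1, y0, y1, by rw [u22]; linarith, by rw [u22]; linarith⟩)
    rw [ev_Fs0, ev_Fs0, u20, u21, u22, u20, u21, u22] at h2
    exact h2
  rw [Fs0_Fs1 ht] at h1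
  exact (R_Fs1 x0 x1 y0 y1 ht0 (htz.trans z1)).trans h1

end H95FL
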