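import Pool.Agent.H45.FT.Reduce

/-!
# Induction on the dimension for the powers of the acute angle

With `rho t = (2 - π/2) t + (π/2 - 1) t ^ 2`, one pointwise inequality on spherical triangles implies
the bound `1 - 1/n` for the mean of `rho` of the normalised acute angle in every dimension `n`.
-/

namespace H95FL

open Finset H45FT

/-- The comparison function. -/
noncomputable def rho (t : ℝ) : ℝ := (2 - Real.pi / 2) * t + (Real.pi / 2 - 1) * t ^ 2

theorem rho_zero : rho 0 = 0 := by simp [rho]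

theorem rho_nonneg {t : ℝ} (h : 0 ≤ t) : 0 ≤ rho t := by
  unfold rho
  have h1 := Real.pi_gt_three
  have h2 := Real.pi_lt_four
  have : 0 ≤ (2 - Real.pi / 2) * t := mul_nonneg (by linarith) h
  have : 0 ≤ (Real.pi / 2 - 1) * t ^ 2 := mul_nonneg (by linarith) (sq_nonneg t)
  linarith

theorem rpow_le_rho {lam t : ℝ} (hl : Real.pi / 2 ≤ lam) (h0 : 0 ≤ t) (h1 : t ≤ 1) :
    t ^ lam ≤ rho t := by
  have p3 := Real.pi_gt_three
  have p4 := Real.pi_lt_four
  rcases h0.eq_or_lt with rfl | hp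
  · rw [Real.zero_rpow (by linarith), rho_zero]
  have e1 : t ^ lam ≤ t ^ (Real.pi / 2) := Real.rpow_le_rpow_of_exponent_ge hp h1 hl
  have e2 : t ^ (Real.pi / 2) = t ^ (2 - Real.pi / 2) * (t ^ (2 : ℕ)) ^ (Real.pi / 2 - 1) := by
    rw [← Real.rpow_natCast, ← Real.rpow_mul hp.le, ← Real.rpow_add hp]
    congr 1
    push_cast
    ring
  have e3 := Real.geom_mean_le_arith_mean2_weighted (w₁ := 2 - Real.pi / 2)
    (w₂ := Real.pi / 2 - 1) (p₁ := t) (p₂ := t ^ (2 : ℕ)) (by linarith) (by linarith) h0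
    (by positivity) (by ring)
  rw [e2] at e1
  exact e1.trans e3

/-- **The pointwise inequality.** -/
def Star : Prop := ∀ a ∈ Set.Icc (0 : ℝ) 1, ∀ b ∈ Set.Icc (0 : ℝ) 1, ∀ c ∈ Set.Icc (0 : ℝ) 1,
  ∀ σ : ℝ, (σ = 1 ∨ σ = -1) → 0 ≤ gram3 σ a b c →
  0 ≤ rho a + rho b + rho c
    - (rho a * rho b * (2 - rho (ang (dih σ a b c)))
      + rho b * rho c * (2 - rho (ang (dih σ b c a)))
      + rho c * rho a * (2 - rho (ang (dih σ c a b))))
    - (3 * σ * Real.cos (Real.pi / 2 * a) * Real.cos (Real.pi / 2 * b) *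
        Real.cos (Real.pi / 2 * c)
      - (Real.cos (Real.pi / 2 * a) ^ 2 * Real.cos (Real.pi / 2 * b) ^ 2
        + Real.cos (Real.pi / 2 * b) ^ 2 * Real.cos (Real.pi / 2 * c) ^ 2
        + Real.cos (Real.pi / 2 * c) ^ 2 * Real.cos (Real.pi / 2 * a) ^ 2))

/-- summation over triples -/
theorem triple {ι : Type} (t : Finset ι) (w : ι → ℝ) (hw : ∀ i ∈ t, 0 ≤ w i)
    (K : ι → ι → ι → ℝ) (hK : ∀ z ∈ t, 0 ≤ ∑ x ∈ t, ∑ y ∈ t, w x * w y * K z x y)
    (e : ι → ι → ℝ) (C : ℝ)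
    (hpt : ∀ x ∈ t, ∀ y ∈ t, ∀ z ∈ t,
      K z x y + K x y z + K y z x ≤ 3 * C - (e x z + e y z + e x y)) :
    ∑ x ∈ t, ∑ y ∈ t, w x * w y * e x y ≤ C * (∑ x ∈ t, w x) ^ 2 := by
  classical
  set T : ℝ := ∑ x ∈ t, w x with hT
  have hT0 : 0 ≤ T := Finset.sum_nonneg hw
  have hw1' : ∀ r : ℝ, ∑ z ∈ t, r * w z = r * T := by
    intro r; rw [← Finset.mul_sum]
  rcases hT0.eq_or_lt with h0 | hTp
  · have hz : ∀ x ∈ t, w x = 0 := (Finset.sum_eq_zero_iff_of_nonneg hw).1 h0.symm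
    rw [← h0]
    have : ∑ x ∈ t, ∑ y ∈ t, w x * w y * e x y = 0 :=
      Finset.sum_eq_zero fun x hx => Finset.sum_eq_zero fun y hy => by rw [hz x hx]; ring
    rw [this]; simp
  set E : ℝ := ∑ x ∈ t, ∑ y ∈ t, w x * w y * e x y with hE
  have hsum : ∑ x ∈ t, ∑ y ∈ t, ∑ z ∈ t, w x * w y * w z * (K z x y + K x y z + K y z x) ≤
      ∑ x ∈ t, ∑ y ∈ t, ∑ z ∈ t, w x * w y * w z *
        (3 * C - (e x z + e y z + e x y)) := by
    refine Finset.sum_le_sum fun x hx => Finset.sum_le_sum fun y hy =>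
      Finset.sum_le_sum fun z hz => ?_
    exact mul_le_mul_of_nonneg_left (hpt x hx y hy z hz)
      (mul_nonneg (mul_nonneg (hw x hx) (hw y hy)) (hw z hz))
  have hleft : 0 ≤ ∑ x ∈ t, ∑ y ∈ t, ∑ z ∈ t,
      w x * w y * w z * (K z x y + K x y z + K y z x) := by
    have hsplit : ∑ x ∈ t, ∑ y ∈ t, ∑ z ∈ t, w x * w y * w z * (K z x y + K x y z + K y z x)
        = ∑ x ∈ t, ∑ y ∈ t, ∑ z ∈ t, w x * w y * w z * K z x y
        + ∑ x ∈ t, ∑ y ∈ t, ∑ z ∈ t, w x * w y * w z * K x y z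
        + ∑ x ∈ t, ∑ y ∈ t, ∑ z ∈ t, w x * w y * w z * K y z x := by
      simp only [← Finset.sum_add_distrib]
      exact Finset.sum_congr rfl fun x _ => Finset.sum_congr rfl fun y _ =>
        Finset.sum_congr rfl fun z _ => by ring
    rw [hsplit]
    have p1 : 0 ≤ ∑ x ∈ t, ∑ y ∈ t, ∑ z ∈ t, w x * w y * w z * K z x y := by
      have : ∑ x ∈ t, ∑ y ∈ t, ∑ z ∈ t, w x * w y * w z * K z x y
          = ∑ z ∈ t, w z * ∑ x ∈ t, ∑ y ∈ t, w x * w y * K z x y := by
        calc ∑ x ∈ t, ∑ y ∈ t, ∑ z ∈ t, w x * w y * w z * K z x y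
            = ∑ x ∈ t, ∑ z ∈ t, ∑ y ∈ t, w x * w y * w z * K z x y :=
              Finset.sum_congr rfl fun x _ => Finset.sum_comm
          _ = ∑ z ∈ t, ∑ x ∈ t, ∑ y ∈ t, w x * w y * w z * K z x y := Finset.sum_comm
          _ = _ := by
              refine Finset.sum_congr rfl fun z _ => ?_
              rw [Finset.mul_sum]
              refine Finset.sum_congr rfl fun x _ => ?_
              rw [Finset.mul_sum]
              exact Finset.sum_congr rfl fun y _ => by ring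
      rw [this]
      exact Finset.sum_nonneg fun z hz => mul_nonneg (hw z hz) (hK z hz)
    have p2 : 0 ≤ ∑ x ∈ t, ∑ y ∈ t, ∑ z ∈ t, w x * w y * w z * K x y z := by
      have : ∑ x ∈ t, ∑ y ∈ t, ∑ z ∈ t, w x * w y * w z * K x y z
          = ∑ x ∈ t, w x * ∑ y ∈ t, ∑ z ∈ t, w y * w z * K x y z := by
        refine Finset.sum_congr rfl fun x _ => ?_
        rw [Finset.mul_sum]
        refine Finset.sum_congr rfl fun y _ => ?_
        rw [Finset.mul_sum]
        exact Finset.sum_congr rfl fun z _ => by ring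
      rw [this]
      exact Finset.sum_nonneg fun z hz => mul_nonneg (hw z hz) (hK z hz)
    have p3 : 0 ≤ ∑ x ∈ t, ∑ y ∈ t, ∑ z ∈ t, w x * w y * w z * K y z x := by
      have : ∑ x ∈ t, ∑ y ∈ t, ∑ z ∈ t, w x * w y * w z * K y z x
          = ∑ y ∈ t, w y * ∑ z ∈ t, ∑ x ∈ t, w z * w x * K y z x := by
        rw [Finset.sum_comm]
        refine Finset.sum_congr rfl fun y _ => ?_
        rw [Finset.sum_comm, Finset.mul_sum]
        refine Finset.sum_congr rfl fun z _ => ?_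
        rw [Finset.mul_sum]
        exact Finset.sum_congr rfl fun x _ => by ring
      rw [this]
      exact Finset.sum_nonneg fun z hz => mul_nonneg (hw z hz) (hK z hz)
    linarith
  have hright : ∑ x ∈ t, ∑ y ∈ t, ∑ z ∈ t, w x * w y * w z *
        (3 * C - (e x z + e y z + e x y)) = 3 * C * T ^ 3 - 3 * E * T := by
    have q0 : ∑ x ∈ t, ∑ y ∈ t, ∑ z ∈ t, w x * w y * w z * (3 * C) = 3 * C * T ^ 3 := by
      calc ∑ x ∈ t, ∑ y ∈ t, ∑ z ∈ t, w x * w y * w z * (3 * C)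
          = ∑ x ∈ t, ∑ y ∈ t, (3 * C * T * w x) * w y := by
            refine Finset.sum_congr rfl fun x _ => Finset.sum_congr rfl fun y _ => ?_
            rw [show 3 * C * T * w x * w y = (3 * C * w x * w y) * T by ring,
              ← hw1' (3 * C * w x * w y)]
            exact Finset.sum_congr rfl fun z _ => by ring
        _ = ∑ x ∈ t, (3 * C * T * T) * w x := Finset.sum_congr rfl fun x _ => by
              rw [hw1']; ring
        _ = 3 * C * T ^ 3 := by rw [hw1']; ring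
    have q1 : ∑ x ∈ t, ∑ y ∈ t, ∑ z ∈ t, w x * w y * w z * e x y = E * T := by
      rw [hE, Finset.sum_mul]
      refine Finset.sum_congr rfl fun x _ => ?_
      rw [Finset.sum_mul]
      refine Finset.sum_congr rfl fun y _ => ?_
      rw [← hw1' (w x * w y * e x y)]
      exact Finset.sum_congr rfl fun z _ => by ring
    have q2 : ∑ x ∈ t, ∑ y ∈ t, ∑ z ∈ t, w x * w y * w z * e x z = E * T := by
      rw [← q1]
      refine Finset.sum_congr rfl fun x _ => ?_
      rw [Finset.sum_comm]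
      exact Finset.sum_congr rfl fun y _ => Finset.sum_congr rfl fun z _ => by ring
    have q3 : ∑ x ∈ t, ∑ y ∈ t, ∑ z ∈ t, w x * w y * w z * e y z = E * T := by
      rw [← q2, Finset.sum_comm]
      refine Finset.sum_congr rfl fun x _ => ?_
      exact Finset.sum_congr rfl fun y _ => Finset.sum_congr rfl fun z _ => by ring
    calc _ = ∑ x ∈ t, ∑ y ∈ t, ∑ z ∈ t, w x * w y * w z * (3 * C)
          - (∑ x ∈ t, ∑ y ∈ t, ∑ z ∈ t, w x * w y * w z * e x z
          + ∑ x ∈ t, ∑ y ∈ t, ∑ z ∈ t, w x * w y * w z * e y z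
          + ∑ x ∈ t, ∑ y ∈ t, ∑ z ∈ t, w x * w y * w z * e x y) := by
          simp only [← Finset.sum_add_distrib, ← Finset.sum_sub_distrib]
          exact Finset.sum_congr rfl fun x _ => Finset.sum_congr rfl fun y _ =>
            Finset.sum_congr rfl fun z _ => by ring
      _ = 3 * C * T ^ 3 - 3 * E * T := by rw [q0, q1, q2, q3]; ring
  have hfin := hleft.trans (hsum.trans_eq hright)
  have : 0 ≤ 3 * T * (C * T ^ 2 - E) := by
    rw [show 3 * T * (C * T ^ 2 - E) = 3 * C * T ^ 3 - 3 * E * T by ring]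
    exact hfin
  have := nonneg_of_mul_nonneg_right this (by positivity : 0 < 3 * T)
  linarith

/-- The bound in dimension `n` for finite families with nonnegative weights. -/
def Bd (n : ℕ) : Prop := ∀ (ι : Type) (t : Finset ι) (v : ι → EuclideanSpace ℝ (Fin n)) (w : ι → ℝ),
  (∀ i ∈ t, ‖v i‖ = 1) → (∀ i ∈ t, 0 ≤ w i) →
    ∑ i ∈ t, ∑ j ∈ t, w i * w j * rho (ang (inner ℝ (v i) (v j))) ≤
      (1 - 1 / (n : ℝ)) * (∑ i ∈ t, w i) ^ 2

theorem bd_one : Bd 1 := by
  intro ι t v w hv hw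
  have h : ∀ i ∈ t, ∀ j ∈ t, rho (ang (inner ℝ (v i) (v j))) = 0 := by
    intro i hi j hj
    have h1 : |(v i) 0| = 1 := by
      have := hv i hi
      rw [EuclideanSpace.norm_eq] at this
      simpa [Real.sqrt_sq_eq_abs] using this
    have h2 : |(v j) 0| = 1 := by
      have := hv j hj
      rw [EuclideanSpace.norm_eq] at this
      simpa [Real.sqrt_sq_eq_abs] using this
    have h3 : (inner ℝ (v i) (v j) : ℝ) = (v j) 0 * (v i) 0 := by
      simp [PiLp.inner_apply]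
    have h4 : ang (inner ℝ (v i) (v j)) = 0 := by
      unfold ang
      rw [h3, abs_mul, h1, h2]
      simp
    rw [h4, rho_zero]
  rw [Finset.sum_eq_zero fun i hi => Finset.sum_eq_zero fun j hj => by rw [h i hi j hj, mul_zero]]
  simp

/-- The bound in dimension `d`, applied in the orthogonal complement of a unit vector. -/
theorem bd_perp {d : ℕ} (hd : 0 < d) (H : Bd d) {ι : Type} (t : Finset ι)
    (v : ι → EuclideanSpace ℝ (Fin (d + 1))) (w : ι → ℝ) (hw : ∀ i ∈ t, 0 ≤ w i)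
    {z : EuclideanSpace ℝ (Fin (d + 1))} (hz : ‖z‖ = 1)
    (h0 : ∀ i ∈ t, tng z (v i) = 0 → w i = 0) :
    ∑ i ∈ t, ∑ j ∈ t, w i * w j * rho (ang (inner ℝ (dir z (v i)) (dir z (v j)))) ≤
      (1 - 1 / (d : ℝ)) * (∑ i ∈ t, w i) ^ 2 := by
  classical
  have hfr : Fact (Module.finrank ℝ (EuclideanSpace ℝ (Fin (d + 1))) = d + 1) := ⟨by simp⟩
  have hz0 : z ≠ 0 := by
    intro h; rw [h, norm_zero] at hz; exact zero_ne_one hz
  let b := OrthonormalBasis.fromOrthogonalSpanSingleton (𝕜 := ℝ) d hz0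
  have hmem : ∀ x, tng z x ∈ (ℝ ∙ z)ᗮ := by
    intro x
    rw [Submodule.mem_orthogonal_singleton_iff_inner_right]
    exact inner_z_tng hz
  have hdmem : ∀ x, dir z x ∈ (ℝ ∙ z)ᗮ := fun x => Submodule.smul_mem _ _ (hmem x)
  let e0 : EuclideanSpace ℝ (Fin d) := EuclideanSpace.single ⟨0, hd⟩ 1
  have he0 : ‖e0‖ = 1 := by simp [e0]
  have hnd : ∀ x, tng z x ≠ 0 → ‖dir z x‖ = 1 := by
    intro x hx
    unfold dir
    rw [norm_smul, norm_mul, norm_inv, norm_norm]
    have h1 : ‖sg (inner ℝ z x : ℝ)‖ = 1 := by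
      rcases sg_eq (inner ℝ z x : ℝ) with h | h <;> simp [h]
    rw [h1, one_mul, inv_mul_cancel₀ (norm_ne_zero_iff.mpr hx)]
  let E : ι → EuclideanSpace ℝ (Fin d) := fun i =>
    if tng z (v i) = 0 then e0 else b.repr ⟨dir z (v i), hdmem (v i)⟩
  have hE : ∀ i ∈ t, ‖E i‖ = 1 := by
    intro i _
    simp only [E]
    split_ifs with h
    · exact he0
    · rw [LinearIsometryEquiv.norm_map, Submodule.coe_norm]
      exact hnd _ h
  have h1 := H ι t E w hE hw
  refine le_trans (le_of_eq ?_) h1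
  refine Finset.sum_congr rfl fun i hi => Finset.sum_congr rfl fun j hj => ?_
  by_cases hi0 : tng z (v i) = 0
  · rw [h0 i hi hi0]; ring
  by_cases hj0 : tng z (v j) = 0
  · rw [h0 j hj hj0]; ring
  simp only [E, hi0, hj0, if_false]
  rw [LinearIsometryEquiv.inner_map_map]
  rfl

theorem gram_term {d : ℕ} {ι : Type} (t : Finset ι)
    (v : ι → EuclideanSpace ℝ (Fin (d + 1))) (w : ι → ℝ)
    {z : EuclideanSpace ℝ (Fin (d + 1))} (hz : ‖z‖ = 1) :
    0 ≤ ∑ x ∈ t, ∑ y ∈ t, w x * w y * (inner ℝ (v x) z * inner ℝ (v y) z *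
      (inner ℝ (v x) (v y) - inner ℝ (v x) z * inner ℝ (v y) z)) := by
  have h : 0 ≤ (inner ℝ (∑ x ∈ t, (w x * inner ℝ (v x) z) • tng z (v x))
    (∑ x ∈ t, (w x * inner ℝ (v x) z) • tng z (v x)) : ℝ) := real_inner_self_nonneg
  refine le_of_le_of_eq h ?_
  rw [sum_inner]
  refine Finset.sum_congr rfl fun x _ => ?_
  rw [inner_sum]
  refine Finset.sum_congr rfl fun y _ => ?_
  rw [real_inner_smul_left, real_inner_smul_right, inner_tng_tng hz, real_inner_comm z (v x),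
    real_inner_comm z (v y)]
  ring

theorem sq_term {ι : Type} (t : Finset ι) (w f : ι → ℝ) :
    ∑ x ∈ t, ∑ y ∈ t, w x * w y * (f x * f y) = (∑ x ∈ t, w x * f x) ^ 2 := by
  rw [sq, Finset.sum_mul_sum]
  exact Finset.sum_congr rfl fun x _ => Finset.sum_congr rfl fun y _ => by ring

/-- The three-point kernel at the pivot `z`. -/
noncomputable def Ker {d : ℕ} (z x y : EuclideanSpace ℝ (Fin (d + 1))) : ℝ :=
  (d : ℝ) / (d + 1) - rho (ang (inner ℝ x z)) - rho (ang (inner ℝ y z))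
    + rho (ang (inner ℝ x z)) * rho (ang (inner ℝ y z)) *
      (2 - rho (ang (inner ℝ (dir z x) (dir z y))))
    + inner ℝ x z * inner ℝ y z * (inner ℝ x y - inner ℝ x z * inner ℝ y z)

theorem ker_nonneg {d : ℕ} (hd : 0 < d) (H : Bd d) {ι : Type} (t : Finset ι)
    (v : ι → EuclideanSpace ℝ (Fin (d + 1))) (w : ι → ℝ) (hw : ∀ i ∈ t, 0 ≤ w i)
    (hv : ∀ i ∈ t, ‖v i‖ = 1) {z : EuclideanSpace ℝ (Fin (d + 1))} (hz : ‖z‖ = 1) :
    0 ≤ ∑ x ∈ t, ∑ y ∈ t, w x * w y * Ker z (v x) (v y) := by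
  have hdp : (0 : ℝ) < d := by exact_mod_cast hd
  have h1 := bd_perp hd H t v (fun i => w i * rho (ang (inner ℝ (v i) z)))
    (fun i hi => mul_nonneg (hw i hi) (rho_nonneg (ang_nonneg _))) hz ?_
  · have h2 := gram_term t v w hz
    have h3 := sq_term t w (fun i => rho (ang (inner ℝ (v i) z)) - (d : ℝ) / (d + 1))
    have h4 := sq_term t w (fun i => rho (ang (inner ℝ (v i) z)))
    have h5 : 0 ≤ (1 + 1 / (d : ℝ)) *
        ∑ x ∈ t, ∑ y ∈ t, w x * w y * ((rho (ang (inner ℝ (v x) z)) - (d : ℝ) / (d + 1)) *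
          (rho (ang (inner ℝ (v y) z)) - (d : ℝ) / (d + 1))) := by
      rw [h3]
      positivity
    rw [← h4] at h1
    have h6 : 0 ≤ ∑ x ∈ t, ∑ y ∈ t, w x * w y *
        ((1 + 1 / (d : ℝ)) * ((rho (ang (inner ℝ (v x) z)) - (d : ℝ) / (d + 1)) *
          (rho (ang (inner ℝ (v y) z)) - (d : ℝ) / (d + 1)))
        + (1 - 1 / (d : ℝ)) * (rho (ang (inner ℝ (v x) z)) * rho (ang (inner ℝ (v y) z)))
        - rho (ang (inner ℝ (v x) z)) * rho (ang (inner ℝ (v y) z)) *
          rho (ang (inner ℝ (dir z (v x)) (dir z (v y))))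
        + inner ℝ (v x) z * inner ℝ (v y) z *
          (inner ℝ (v x) (v y) - inner ℝ (v x) z * inner ℝ (v y) z)) := by
      have e : ∑ x ∈ t, ∑ y ∈ t, w x * w y *
          ((1 + 1 / (d : ℝ)) * ((rho (ang (inner ℝ (v x) z)) - (d : ℝ) / (d + 1)) *
            (rho (ang (inner ℝ (v y) z)) - (d : ℝ) / (d + 1)))
          + (1 - 1 / (d : ℝ)) * (rho (ang (inner ℝ (v x) z)) * rho (ang (inner ℝ (v y) z)))
          - rho (ang (inner ℝ (v x) z)) * rho (ang (inner ℝ (v y) z)) *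
            rho (ang (inner ℝ (dir z (v x)) (dir z (v y))))
          + inner ℝ (v x) z * inner ℝ (v y) z *
            (inner ℝ (v x) (v y) - inner ℝ (v x) z * inner ℝ (v y) z))
          = (1 + 1 / (d : ℝ)) *
            ∑ x ∈ t, ∑ y ∈ t, w x * w y * ((rho (ang (inner ℝ (v x) z)) - (d : ℝ) / (d + 1)) *
              (rho (ang (inner ℝ (v y) z)) - (d : ℝ) / (d + 1)))
          + ((1 - 1 / (d : ℝ)) * ∑ x ∈ t, ∑ y ∈ t, w x * w y *
              (rho (ang (inner ℝ (v x) z)) * rho (ang (inner ℝ (v y) z)))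
            - ∑ x ∈ t, ∑ y ∈ t, w x * rho (ang (inner ℝ (v x) z)) *
              (w y * rho (ang (inner ℝ (v y) z))) *
              rho (ang (inner ℝ (dir z (v x)) (dir z (v y)))))
          + ∑ x ∈ t, ∑ y ∈ t, w x * w y * (inner ℝ (v x) z * inner ℝ (v y) z *
            (inner ℝ (v x) (v y) - inner ℝ (v x) z * inner ℝ (v y) z)) := by
        simp only [Finset.mul_sum, ← Finset.sum_add_distrib, ← Finset.sum_sub_distrib]
        exact Finset.sum_congr rfl fun x _ => Finset.sum_congr rfl fun y _ => by ring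
      rw [e]
      linarith
    refine le_of_le_of_eq h6 ?_
    refine Finset.sum_congr rfl fun x _ => Finset.sum_congr rfl fun y _ => ?_
    congr 1
    unfold Ker
    field_simp
    ring
  · intro i hi h0
    have h7 : ang (inner ℝ (v i) z) = 0 := by
      apply ang_eq_zero
      rw [real_inner_comm, ← norm_tng hz (hv i hi), h0, norm_zero]
    simp only [h7, rho_zero, mul_zero]

theorem cos_ang_sq {x y : ℝ} (h : |x| ≤ 1) (hy : y = ang x) :
    Real.cos (Real.pi / 2 * y) = |x| := by rw [hy, cos_ang h]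

theorem bd_succ (hS : Star) {d : ℕ} (hd : 0 < d) (H : Bd d) : Bd (d + 1) := by
  intro ι t v w hv hw
  have hdp : (0 : ℝ) < d := by exact_mod_cast hd
  have hC : (1 - 1 / ((d + 1 : ℕ) : ℝ)) = (d : ℝ) / (d + 1) := by
    push_cast
    field_simp
    ring
  rw [hC]
  refine triple t w hw (fun z x y => Ker (v z) (v x) (v y))
    (fun z hz => ker_nonneg hd H t v w hw hv (hv z hz))
    (fun i j => rho (ang (inner ℝ (v i) (v j)))) _ ?_
  intro i hi j hj k hk
  have hx := hv i hi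
  have hy := hv j hj
  have hz := hv k hk
  generalize v i = x at hx ⊢
  generalize v j = y at hy ⊢
  generalize v k = z at hz ⊢
  have h := hS (ang (inner ℝ x z)) (ang_mem _) (ang (inner ℝ y z)) (ang_mem _)
      (ang (inner ℝ x y)) (ang_mem _)
      (sg (inner ℝ x y) * sg (inner ℝ y z) * sg (inner ℝ x z)) ?_ (gram3_nonneg hz hx hy)
  · have e1 := inner_dir_dir hz hx hy
    have e2 := inner_dir_dir hx hy hz
    have e3 := inner_dir_dir hy hz hx
    rw [real_inner_comm x y, real_inner_comm x z] at e2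
    rw [real_inner_comm x z, real_inner_comm y z] at e3
    rw [show sg (inner ℝ y z) * sg (inner ℝ x z) * sg (inner ℝ x y)
        = sg (inner ℝ x y) * sg (inner ℝ y z) * sg (inner ℝ x z) by ring] at e2
    rw [show sg (inner ℝ x z) * sg (inner ℝ x y) * sg (inner ℝ y z)
        = sg (inner ℝ x y) * sg (inner ℝ y z) * sg (inner ℝ x z) by ring] at e3
    rw [cos_ang (abs_inner_le_one hx hy), cos_ang (abs_inner_le_one hx hz),
      cos_ang (abs_inner_le_one hy hz)] at h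
    simp only [Ker]
    rw [real_inner_comm x y, real_inner_comm x z, real_inner_comm y z, e1, e2, e3]
    have q1 := sg_mul_abs (inner ℝ x y : ℝ)
    have q2 := sg_mul_abs (inner ℝ y z : ℝ)
    have q3 := sg_mul_abs (inner ℝ x z : ℝ)
    have q4 : 3 * (sg (inner ℝ x y) * sg (inner ℝ y z) * sg (inner ℝ x z)) * |inner ℝ x z| *
        |inner ℝ y z| * |inner ℝ x y| = 3 * (inner ℝ x y * inner ℝ y z * inner ℝ x z : ℝ) := by
      calc _ = 3 * ((sg (inner ℝ x y) * |inner ℝ x y|) * (sg (inner ℝ y z) * |inner ℝ y z|) *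
          (sg (inner ℝ x z) * |inner ℝ x z|)) := by ring
        _ = _ := by rw [q1, q2, q3]
    rw [q4] at h
    simp only [sq_abs] at h
    linarith
  · rcases sg_eq (inner ℝ x y : ℝ) with h1 | h1 <;> rcases sg_eq (inner ℝ y z : ℝ) with h2 | h2 <;>
      rcases sg_eq (inner ℝ x z : ℝ) with h3 | h3 <;> rw [h1, h2, h3] <;> norm_num

theorem bd_all (hS : Star) (d : ℕ) : Bd (d + 1) := by
  induction d with
  | zero => exact bd_one
  | succ d ih => exact bd_succ hS d.succ_pos ih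

end H95FL
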