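import Pool.Agent.H41.FT.Chs
import Pool.Agent.H95.FL.Red
import Pool.Agent.H95.FL.Cube

/-!
# The charts on true data
-/

namespace H95FL

open H45FT H41FT Real

/-- The left side of the pointwise inequality. -/
noncomputable def FF (σ a b c : ℝ) : ℝ :=
  rho a + rho b + rho c
    - (rho a * rho b * (2 - rho (ang (dih σ a b c)))
      + rho b * rho c * (2 - rho (ang (dih σ b c a)))
      + rho c * rho a * (2 - rho (ang (dih σ c a b))))
    - (3 * σ * cos (π / 2 * a) * cos (π / 2 * b) * cos (π / 2 * c)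
      - (cos (π / 2 * a) ^ 2 * cos (π / 2 * b) ^ 2
        + cos (π / 2 * b) ^ 2 * cos (π / 2 * c) ^ 2
        + cos (π / 2 * c) ^ 2 * cos (π / 2 * a) ^ 2))

theorem FF_rot (σ a b c : ℝ) : FF σ a b c = FF σ b c a := by
  unfold FF; ring

theorem FF_swap (σ a b c : ℝ) : FF σ a b c = FF σ b a c := by
  unfold FF
  rw [dih_comm σ a b c, dih_comm σ b c a, dih_comm σ c a b]
  ring

theorem gram_rot (σ a b c : ℝ) : gram3 σ a b c = gram3 σ b c a := by
  unfold gram3; ring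

theorem gram_swap (σ a b c : ℝ) : gram3 σ a b c = gram3 σ b a c := by
  unfold gram3; ring

theorem ang_compl {t P Q S : ℝ} (hS : 0 < S) (hP : 0 ≤ P) (hQ : 0 ≤ Q)
    (h : P ^ 2 + Q ^ 2 = S ^ 2) (ht : |t| = P / S) :
    2 * (2 / π * arctan (P * (S + Q)⁻¹)) = 1 - ang t := by
  have hp := Real.pi_pos
  rw [ang_half (t := Q / S) hS hP hQ h (abs_of_nonneg (by positivity))]
  unfold ang
  rw [ht, abs_of_nonneg (by positivity : 0 ≤ Q / S), arccos_eq_pi_div_two_sub_arcsin (P / S),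
    arcsin_eq_arccos (by positivity : 0 ≤ P / S)]
  have e : √(1 - (P / S) ^ 2) = Q / S := by
    rw [show 1 - (P / S) ^ 2 = (Q / S) ^ 2 by field_simp; linarith]
    exact Real.sqrt_sq (by positivity)
  rw [e]
  field_simp
  ring

theorem compl_half {b : ℝ} (h0 : 0 ≤ b) (h1 : b ≤ 1) :
    2 * (2 / π * arctan (cos (π / 2 * b) * (1 + sin (π / 2 * b))⁻¹)) = 1 - b := by
  have h := at_half (x := 1 - b) (by linarith) (by linarith)
  rw [sin_comp, cos_comp] at h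
  exact h

theorem zc_val1 {P ct st ce m mp n np sb sc b c gx gy gz : ℝ}
    (hsb : √(ce * ce + mp * mp) = sb) (hsc : √(ce * ce + np * np) = sc)
    (hb : 2 * (2 / π * arctan (m * (1 + sb)⁻¹)) = 1 - b)
    (hc : 2 * (2 / π * arctan (n * (1 + sc)⁻¹)) = 1 - c)
    (hx : 2 * (2 / π * arctan (mp * (sb + ce)⁻¹)) = 1 - gx)
    (hy : 2 * (2 / π * arctan (np * (sc + ce)⁻¹)) = 1 - gy)
    (hz : 2 * (2 / π * arctan (ce * st * (sb * sc + (ct - m * n))⁻¹)) = gz) :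
    zc rO 1 P ct st ce m mp n np = P + (rho b + rho c) - (P * rho b * (2 - rho gx) +
      (P * rho c * (2 - rho gy) + rho b * rho c * (2 - rho gz))) - (3 * (ct * (m * n)) - (ct * ct * (m * m + n * n) + m * n * (m * n))) := by
  unfold zc vt
  simp only [H41FT.lt, rO, fs, tr, qq, pq, Nat.cast_one, Nat.cast_ofNat, Nat.cast_zero, hsb, hsc,
    hb, hc, hx, hy, hz]
  unfold rho
  ring

theorem zc_val2 {P ct st ce m mp n np sb sc b c gx gy gz : ℝ}
    (hsb : √(ce * ce + mp * mp) = sb) (hsc : √(ce * ce + np * np) = sc)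
    (hb : 2 * (2 / π * arctan (m * (1 + sb)⁻¹)) = 1 - b)
    (hc : 2 * (2 / π * arctan (n * (1 + sc)⁻¹)) = 1 - c)
    (hx : 2 * (2 / π * arctan (mp * (sb + ce)⁻¹)) = 1 - gx)
    (hy : 2 * (2 / π * arctan (np * (sc + ce)⁻¹)) = 1 - gy)
    (hz : 2 * (2 / π * arctan (ce * st * (sb * sc + (ct - m * n))⁻¹)) = gz) :
    zc rO 2 P ct st ce m mp n np = P + (rho b + rho c) - (P * rho b * (2 - rho gx) +
      (P * rho c * (2 - rho gy) + rho b * rho c * (2 - rho gz))) - (3 * (ct * (m * n)) - (ct * ct * (m * m + n * n) + m * n * (m * n))) := by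
  unfold zc vt
  simp only [H41FT.lt, rO, fs, tr, qq, pq, Nat.cast_one, Nat.cast_ofNat, Nat.cast_zero, hsb, hsc,
    hb, hc, hx, hy, hz]
  unfold rho
  ring

theorem zc_val3 {P ct st ce m mp n np sb sc b c gx gy gz : ℝ}
    (hsb : √(ce * ce + mp * mp) = sb) (hsc : √(ce * ce + np * np) = sc)
    (hb : 2 * (2 / π * arctan (m * (1 + sb)⁻¹)) = 1 - b)
    (hc : 2 * (2 / π * arctan (n * (1 + sc)⁻¹)) = 1 - c)
    (hx : 2 * (2 / π * arctan (mp * (sb + ce)⁻¹)) = 1 - gx)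
    (hy : 2 * (2 / π * arctan (np * (sc + ce)⁻¹)) = 1 - gy)
    (hz : 2 * (2 / π * arctan (ce * st * (sb * sc + (ct + m * n))⁻¹)) = gz) :
    zc rO 3 P ct st ce m mp n np = P + (rho b + rho c) - (P * rho b * (2 - rho gx) +
      (P * rho c * (2 - rho gy) + rho b * rho c * (2 - rho gz))) - (0 - 3 * (ct * (m * n)) - (ct * ct * (m * m + n * n) + m * n * (m * n))) := by
  unfold zc vt
  simp only [H41FT.lt, rO, fs, tr, qq, pq, Nat.cast_one, Nat.cast_ofNat, Nat.cast_zero, hsb, hsc,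
    hb, hc, hx, hy, hz]
  unfold rho
  ring

theorem zc_true1 {a b c ce mp np : ℝ} (h0 : 0 < a) (ha : a ≤ 1) (hb0 : 0 < b) (hb : b ≤ 1)
    (hc0 : 0 < c) (hc : c ≤ 1) (hce : 0 ≤ ce) (hmp : 0 ≤ mp) (hnp : 0 ≤ np)
    (H1 : ce ^ 2 + mp ^ 2 = sin (π / 2 * b) ^ 2) (H2 : ce ^ 2 + np ^ 2 = sin (π / 2 * c) ^ 2)
    (H3 : |1 * cos (π / 2 * c) - cos (π / 2 * a) * cos (π / 2 * b)| = sin (π / 2 * a) * mp)
    (H4 : |1 * cos (π / 2 * b) - cos (π / 2 * c) * cos (π / 2 * a)| = sin (π / 2 * a) * np)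
    (H5 : |1 * cos (π / 2 * a) - cos (π / 2 * b) * cos (π / 2 * c)| =
      cos (π / 2 * a) - cos (π / 2 * b) * cos (π / 2 * c)) :
    FF 1 a b c = zc rO 1 (rho a) (cos (π / 2 * a)) (sin (π / 2 * a)) ce (cos (π / 2 * b)) mp
      (cos (π / 2 * c)) np := by
  have hsa := snp h0 ha
  have hsb := snp hb0 hb
  have hsc := snp hc0 hc
  have habs : ∀ x y : ℝ, 0 < y → |x / y| = |x| / y := fun x y hy => by
    rw [abs_div, abs_of_pos hy]
  have e1 : √(ce * ce + mp * mp) = sin (π / 2 * b) := by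
    rw [← sq, ← sq, H1]; exact Real.sqrt_sq hsb.le
  have e2 : √(ce * ce + np * np) = sin (π / 2 * c) := by
    rw [← sq, ← sq, H2]; exact Real.sqrt_sq hsc.le
  have e3 := compl_half hb0.le hb
  have e4 := compl_half hc0.le hc
  have x1 : |dih 1 a b c| = mp / sin (π / 2 * b) := by
    unfold dih
    rw [habs _ _ (mul_pos hsa hsb), H3, mul_div_mul_left _ _ hsa.ne']
  have y1 : |dih 1 c a b| = np / sin (π / 2 * c) := by
    unfold dih
    rw [habs _ _ (mul_pos hsc hsa), H4, mul_comm (sin (π / 2 * c)), mul_div_mul_left _ _ hsa.ne']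
  have z1 : |dih 1 b c a| = (cos (π / 2 * a) - cos (π / 2 * b) * cos (π / 2 * c)) /
      (sin (π / 2 * b) * sin (π / 2 * c)) := by
    unfold dih
    rw [habs _ _ (mul_pos hsb hsc), H5]
  have z0 : 0 ≤ cos (π / 2 * a) - cos (π / 2 * b) * cos (π / 2 * c) := by
    rw [← H5]; exact abs_nonneg _
  have e5 := ang_compl hsb hmp hce (by linarith) x1
  have e6 := ang_compl hsc hnp hce (by linarith) y1
  have g1 := gram_id (σ := 1) (by norm_num) a b c
  have g2 := gram_id (σ := 1) (by norm_num) b c a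
  rw [← gram_rot] at g2
  have q1 : (1 * cos (π / 2 * c) - cos (π / 2 * a) * cos (π / 2 * b)) ^ 2 =
      (sin (π / 2 * a) * mp) ^ 2 := by rw [← H3, sq_abs]
  have q2 : (1 * cos (π / 2 * a) - cos (π / 2 * b) * cos (π / 2 * c)) ^ 2 =
      (cos (π / 2 * a) - cos (π / 2 * b) * cos (π / 2 * c)) ^ 2 := by rw [← H5, sq_abs]
  have e7 := ang_half (t := dih 1 b c a) (P := ce * sin (π / 2 * a)) (mul_pos hsb hsc)
    (by positivity) z0 (by
      rw [q1] at g1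
      rw [q2] at g2
      rw [← g2]
      have : gram3 1 a b c = (ce * sin (π / 2 * a)) ^ 2 := by
        have h6 : (sin (π / 2 * a) * sin (π / 2 * b)) ^ 2 =
          sin (π / 2 * a) ^ 2 * (ce ^ 2 + mp ^ 2) := by rw [H1]; ring
        rw [h6] at g1
        linarith [g1]
      rw [this]) z1
  rw [zc_val1 e1 e2 e3 e4 e5 e6 e7]
  unfold FF
  ring

theorem zc_true2 {a b c ce mp np : ℝ} (h0 : 0 < a) (ha : a ≤ 1) (hb0 : 0 < b) (hb : b ≤ 1)
    (hc0 : 0 < c) (hc : c ≤ 1) (hce : 0 ≤ ce) (hmp : 0 ≤ mp) (hnp : 0 ≤ np)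
    (H1 : ce ^ 2 + mp ^ 2 = sin (π / 2 * b) ^ 2) (H2 : ce ^ 2 + np ^ 2 = sin (π / 2 * c) ^ 2)
    (H3 : |1 * cos (π / 2 * c) - cos (π / 2 * a) * cos (π / 2 * b)| = sin (π / 2 * a) * mp)
    (H4 : |1 * cos (π / 2 * b) - cos (π / 2 * c) * cos (π / 2 * a)| = sin (π / 2 * a) * np)
    (H5 : |1 * cos (π / 2 * a) - cos (π / 2 * b) * cos (π / 2 * c)| =
      cos (π / 2 * a) - cos (π / 2 * b) * cos (π / 2 * c)) :
    FF 1 a b c = zc rO 2 (rho a) (cos (π / 2 * a)) (sin (π / 2 * a)) ce (cos (π / 2 * b)) mp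
      (cos (π / 2 * c)) np := by
  have hsa := snp h0 ha
  have hsb := snp hb0 hb
  have hsc := snp hc0 hc
  have habs : ∀ x y : ℝ, 0 < y → |x / y| = |x| / y := fun x y hy => by
    rw [abs_div, abs_of_pos hy]
  have e1 : √(ce * ce + mp * mp) = sin (π / 2 * b) := by
    rw [← sq, ← sq, H1]; exact Real.sqrt_sq hsb.le
  have e2 : √(ce * ce + np * np) = sin (π / 2 * c) := by
    rw [← sq, ← sq, H2]; exact Real.sqrt_sq hsc.le
  have e3 := compl_half hb0.le hb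
  have e4 := compl_half hc0.le hc
  have x1 : |dih 1 a b c| = mp / sin (π / 2 * b) := by
    unfold dih
    rw [habs _ _ (mul_pos hsa hsb), H3, mul_div_mul_left _ _ hsa.ne']
  have y1 : |dih 1 c a b| = np / sin (π / 2 * c) := by
    unfold dih
    rw [habs _ _ (mul_pos hsc hsa), H4, mul_comm (sin (π / 2 * c)), mul_div_mul_left _ _ hsa.ne']
  have z1 : |dih 1 b c a| = (cos (π / 2 * a) - cos (π / 2 * b) * cos (π / 2 * c)) /
      (sin (π / 2 * b) * sin (π / 2 * c)) := by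
    unfold dih
    rw [habs _ _ (mul_pos hsb hsc), H5]
  have z0 : 0 ≤ cos (π / 2 * a) - cos (π / 2 * b) * cos (π / 2 * c) := by
    rw [← H5]; exact abs_nonneg _
  have e5 := ang_compl hsb hmp hce (by linarith) x1
  have e6 := ang_compl hsc hnp hce (by linarith) y1
  have g1 := gram_id (σ := 1) (by norm_num) a b c
  have g2 := gram_id (σ := 1) (by norm_num) b c a
  rw [← gram_rot] at g2
  have q1 : (1 * cos (π / 2 * c) - cos (π / 2 * a) * cos (π / 2 * b)) ^ 2 =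
      (sin (π / 2 * a) * mp) ^ 2 := by rw [← H3, sq_abs]
  have q2 : (1 * cos (π / 2 * a) - cos (π / 2 * b) * cos (π / 2 * c)) ^ 2 =
      (cos (π / 2 * a) - cos (π / 2 * b) * cos (π / 2 * c)) ^ 2 := by rw [← H5, sq_abs]
  have e7 := ang_half (t := dih 1 b c a) (P := ce * sin (π / 2 * a)) (mul_pos hsb hsc)
    (by positivity) z0 (by
      rw [q1] at g1
      rw [q2] at g2
      rw [← g2]
      have : gram3 1 a b c = (ce * sin (π / 2 * a)) ^ 2 := by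
        have h6 : (sin (π / 2 * a) * sin (π / 2 * b)) ^ 2 =
          sin (π / 2 * a) ^ 2 * (ce ^ 2 + mp ^ 2) := by rw [H1]; ring
        rw [h6] at g1
        linarith [g1]
      rw [this]) z1
  rw [zc_val2 e1 e2 e3 e4 e5 e6 e7]
  unfold FF
  ring

theorem zc_true3 {a b c ce mp np : ℝ} (h0 : 0 < a) (ha : a ≤ 1) (hb0 : 0 < b) (hb : b ≤ 1)
    (hc0 : 0 < c) (hc : c ≤ 1) (hce : 0 ≤ ce) (hmp : 0 ≤ mp) (hnp : 0 ≤ np)
    (H1 : ce ^ 2 + mp ^ 2 = sin (π / 2 * b) ^ 2) (H2 : ce ^ 2 + np ^ 2 = sin (π / 2 * c) ^ 2)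
    (H3 : |(-1) * cos (π / 2 * c) - cos (π / 2 * a) * cos (π / 2 * b)| = sin (π / 2 * a) * mp)
    (H4 : |(-1) * cos (π / 2 * b) - cos (π / 2 * c) * cos (π / 2 * a)| = sin (π / 2 * a) * np)
    (H5 : |(-1) * cos (π / 2 * a) - cos (π / 2 * b) * cos (π / 2 * c)| =
      cos (π / 2 * a) + cos (π / 2 * b) * cos (π / 2 * c)) :
    FF (-1) a b c = zc rO 3 (rho a) (cos (π / 2 * a)) (sin (π / 2 * a)) ce (cos (π / 2 * b)) mp
      (cos (π / 2 * c)) np := by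
  have hsa := snp h0 ha
  have hsb := snp hb0 hb
  have hsc := snp hc0 hc
  have habs : ∀ x y : ℝ, 0 < y → |x / y| = |x| / y := fun x y hy => by
    rw [abs_div, abs_of_pos hy]
  have e1 : √(ce * ce + mp * mp) = sin (π / 2 * b) := by
    rw [← sq, ← sq, H1]; exact Real.sqrt_sq hsb.le
  have e2 : √(ce * ce + np * np) = sin (π / 2 * c) := by
    rw [← sq, ← sq, H2]; exact Real.sqrt_sq hsc.le
  have e3 := compl_half hb0.le hb
  have e4 := compl_half hc0.le hc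
  have x1 : |dih (-1) a b c| = mp / sin (π / 2 * b) := by
    unfold dih
    rw [habs _ _ (mul_pos hsa hsb), H3, mul_div_mul_left _ _ hsa.ne']
  have y1 : |dih (-1) c a b| = np / sin (π / 2 * c) := by
    unfold dih
    rw [habs _ _ (mul_pos hsc hsa), H4, mul_comm (sin (π / 2 * c)), mul_div_mul_left _ _ hsa.ne']
  have z1 : |dih (-1) b c a| = (cos (π / 2 * a) + cos (π / 2 * b) * cos (π / 2 * c)) /
      (sin (π / 2 * b) * sin (π / 2 * c)) := by
    unfold dih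
    rw [habs _ _ (mul_pos hsb hsc), H5]
  have z0 : 0 ≤ cos (π / 2 * a) + cos (π / 2 * b) * cos (π / 2 * c) := by
    rw [← H5]; exact abs_nonneg _
  have e5 := ang_compl hsb hmp hce (by linarith) x1
  have e6 := ang_compl hsc hnp hce (by linarith) y1
  have g1 := gram_id (σ := (-1)) (by norm_num) a b c
  have g2 := gram_id (σ := (-1)) (by norm_num) b c a
  rw [← gram_rot] at g2
  have q1 : ((-1) * cos (π / 2 * c) - cos (π / 2 * a) * cos (π / 2 * b)) ^ 2 =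
      (sin (π / 2 * a) * mp) ^ 2 := by rw [← H3, sq_abs]
  have q2 : ((-1) * cos (π / 2 * a) - cos (π / 2 * b) * cos (π / 2 * c)) ^ 2 =
      (cos (π / 2 * a) + cos (π / 2 * b) * cos (π / 2 * c)) ^ 2 := by rw [← H5, sq_abs]
  have e7 := ang_half (t := dih (-1) b c a) (P := ce * sin (π / 2 * a)) (mul_pos hsb hsc)
    (by positivity) z0 (by
      rw [q1] at g1
      rw [q2] at g2
      rw [← g2]
      have : gram3 (-1) a b c = (ce * sin (π / 2 * a)) ^ 2 := by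
        have h6 : (sin (π / 2 * a) * sin (π / 2 * b)) ^ 2 =
          sin (π / 2 * a) ^ 2 * (ce ^ 2 + mp ^ 2) := by rw [H1]; ring
        rw [h6] at g1
        linarith [g1]
      rw [this]) z1
  rw [zc_val3 e1 e2 e3 e4 e5 e6 e7]
  unfold FF
  ring

theorem Fs_val (k : ℕ) {x y z u v w sa sb sc gx gy gz D nx ny nz V : ℝ} (a b c : ℝ)
    (hx : x = 1 - a) (hy : y = 1 - b) (hz : z = 1 - c)
    (hsd : sd rO k x y z u v w sa sb sc = fs rO (((1 : ℕ) : ℝ) - qq rO x)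
      (((1 : ℕ) : ℝ) - qq rO y) (((1 : ℕ) : ℝ) - qq rO z)
      (qq rO (((2 : ℕ) : ℝ) * (2 / π * arctan (nz * (sa * sb + √D)⁻¹))))
      (qq rO (((2 : ℕ) : ℝ) * (2 / π * arctan (ny * (sc * sa + √D)⁻¹))))
      (qq rO (((2 : ℕ) : ℝ) * (2 / π * arctan (nx * (sb * sc + √D)⁻¹)))) V)
    (h1 : 2 * (2 / π * arctan (nx * (sb * sc + √D)⁻¹)) = 1 - gx)
    (h2 : 2 * (2 / π * arctan (ny * (sc * sa + √D)⁻¹)) = 1 - gy)
    (h3 : 2 * (2 / π * arctan (nz * (sa * sb + √D)⁻¹)) = 1 - gz) :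
    sd rO k x y z u v w sa sb sc = rho a + (rho b + rho c) - (rho a * rho b * (2 - rho gz) +
      (rho a * rho c * (2 - rho gy) + rho b * rho c * (2 - rho gx))) - V := by
  rw [hsd]
  simp only [Nat.cast_one, Nat.cast_ofNat, h1, h2, h3, hx, hy, hz]
  simp only [rO, fs, tr, qq, Nat.cast_one]
  unfold rho
  ring

theorem sd_neg (x y z u v w sa sb sc : ℝ) :
    sd rO 3 x y z u v w sa sb sc = fs rO (((1 : ℕ) : ℝ) - qq rO x)
      (((1 : ℕ) : ℝ) - qq rO y) (((1 : ℕ) : ℝ) - qq rO z)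
      (qq rO (((2 : ℕ) : ℝ) * (2 / π * arctan ((w + u * v) * (sa * sb + √(((1 : ℕ) : ℝ) - u * u - v * v - w * w - ((2 : ℕ) : ℝ) * (u * v * w)))⁻¹))))
      (qq rO (((2 : ℕ) : ℝ) * (2 / π * arctan ((v + w * u) * (sc * sa + √(((1 : ℕ) : ℝ) - u * u - v * v - w * w - ((2 : ℕ) : ℝ) * (u * v * w)))⁻¹))))
      (qq rO (((2 : ℕ) : ℝ) * (2 / π * arctan ((u + v * w) * (sb * sc + √(((1 : ℕ) : ℝ) - u * u - v * v - w * w - ((2 : ℕ) : ℝ) * (u * v * w)))⁻¹))))
      (((0 : ℕ) : ℝ) - ((3 : ℕ) : ℝ) * (u * (v * w)) - (u * u * (v * v + w * w) + v * w * (v * w))) := by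
  unfold sd vt
  simp only [H41FT.lt, rO]

theorem sd_acute (x y z u v w sa sb sc : ℝ) :
    sd rO 0 x y z u v w sa sb sc = fs rO (((1 : ℕ) : ℝ) - qq rO x)
      (((1 : ℕ) : ℝ) - qq rO y) (((1 : ℕ) : ℝ) - qq rO z)
      (qq rO (((2 : ℕ) : ℝ) * (2 / π * arctan ((w - u * v) * (sa * sb + √(((1 : ℕ) : ℝ) - u * u - v * v - w * w + ((2 : ℕ) : ℝ) * (u * v * w)))⁻¹))))
      (qq rO (((2 : ℕ) : ℝ) * (2 / π * arctan ((v - w * u) * (sc * sa + √(((1 : ℕ) : ℝ) - u * u - v * v - w * w + ((2 : ℕ) : ℝ) * (u * v * w)))⁻¹))))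
      (qq rO (((2 : ℕ) : ℝ) * (2 / π * arctan ((u - v * w) * (sb * sc + √(((1 : ℕ) : ℝ) - u * u - v * v - w * w + ((2 : ℕ) : ℝ) * (u * v * w)))⁻¹))))
      (((3 : ℕ) : ℝ) * (u * (v * w)) - (u * u * (v * v + w * w) + v * w * (v * w))) := by
  unfold sd vt
  simp only [H41FT.lt, rO]

theorem sd_obt (x y z u v w sa sb sc : ℝ) :
    sd rO 1 x y z u v w sa sb sc = fs rO (((1 : ℕ) : ℝ) - qq rO x)
      (((1 : ℕ) : ℝ) - qq rO y) (((1 : ℕ) : ℝ) - qq rO z)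
      (qq rO (((2 : ℕ) : ℝ) * (2 / π * arctan ((u * v - w) * (sa * sb + √(((1 : ℕ) : ℝ) - u * u - v * v - w * w + ((2 : ℕ) : ℝ) * (u * v * w)))⁻¹))))
      (qq rO (((2 : ℕ) : ℝ) * (2 / π * arctan ((v - w * u) * (sc * sa + √(((1 : ℕ) : ℝ) - u * u - v * v - w * w + ((2 : ℕ) : ℝ) * (u * v * w)))⁻¹))))
      (qq rO (((2 : ℕ) : ℝ) * (2 / π * arctan ((u - v * w) * (sb * sc + √(((1 : ℕ) : ℝ) - u * u - v * v - w * w + ((2 : ℕ) : ℝ) * (u * v * w)))⁻¹))))
      (((3 : ℕ) : ℝ) * (u * (v * w)) - (u * u * (v * v + w * w) + v * w * (v * w))) := by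
  unfold sd vt
  simp only [H41FT.lt, rO]

/-- `σ = 1`, obtuse, from the Gram determinant -/
theorem dih_data {σ a b c N : ℝ} (h0 : 0 < a) (ha : a ≤ 1) (hb0 : 0 < b) (hb : b ≤ 1)
    (hσ : σ ^ 2 = 1) (hg : 0 ≤ gram3 σ a b c)
    (hN : |σ * cos (π / 2 * c) - cos (π / 2 * a) * cos (π / 2 * b)| = N) :
    2 * (2 / π * arctan (N * (sin (π / 2 * a) * sin (π / 2 * b) + √(gram3 σ a b c))⁻¹)) =
      1 - ang (dih σ a b c) := by
  have hsa := snp h0 ha
  have hsb := snp hb0 hb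
  have g1 := gram_id hσ a b c
  have hN0 : 0 ≤ N := by rw [← hN]; exact abs_nonneg _
  refine ang_compl (mul_pos hsa hsb) hN0 (Real.sqrt_nonneg _) ?_ ?_
  · rw [Real.sq_sqrt hg, ← g1, ← hN, sq_abs]; ring
  · unfold dih
    rw [abs_div, hN, abs_of_pos (mul_pos hsa hsb)]

theorem CH_neg {a b c : ℝ} (h0 : 0 < a) (ha : a ≤ 1) (hb0 : 0 < b) (hb : b ≤ 1)
    (hc0 : 0 < c) (hc : c ≤ 1) (hg : 0 ≤ gram3 (-1) a b c)
    (H3 : |(-1) * cos (π / 2 * c) - cos (π / 2 * a) * cos (π / 2 * b)| =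
      cos (π / 2 * c) + cos (π / 2 * a) * cos (π / 2 * b))
    (H4 : |(-1) * cos (π / 2 * b) - cos (π / 2 * c) * cos (π / 2 * a)| =
      cos (π / 2 * b) + cos (π / 2 * c) * cos (π / 2 * a))
    (H5 : |(-1) * cos (π / 2 * a) - cos (π / 2 * b) * cos (π / 2 * c)| =
      cos (π / 2 * a) + cos (π / 2 * b) * cos (π / 2 * c)) :
    FF (-1) a b c = Fs3 rO (1 - a) (1 - b) (1 - c) := by
  have z1 := dih_data h0 ha hb0 hb (by norm_num) hg H3
  have y1 := dih_data hc0 hc h0 ha (by norm_num) (by rw [← gram_rot, ← gram_rot]; exact hg) H4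
  have x1 := dih_data hb0 hb hc0 hc (by norm_num) (by rw [← gram_rot]; exact hg) H5
  rw [← gram_rot] at x1
  rw [← gram_rot, ← gram_rot] at y1
  have hG : ((1 : ℕ) : ℝ) - cos (π / 2 * a) * cos (π / 2 * a) - cos (π / 2 * b) * cos (π / 2 * b) -
      cos (π / 2 * c) * cos (π / 2 * c) - ((2 : ℕ) : ℝ) * (cos (π / 2 * a) * cos (π / 2 * b) *
      cos (π / 2 * c)) = gram3 (-1) a b c := by
    unfold gram3; push_cast; ring
  rw [Fs3, Fs_eq]
  simp only [sin_comp, cos_comp]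
  have hs := sd_neg (1 - a) (1 - b) (1 - c) (cos (π / 2 * a)) (cos (π / 2 * b))
    (cos (π / 2 * c)) (sin (π / 2 * a)) (sin (π / 2 * b)) (sin (π / 2 * c))
  rw [hG] at hs
  rw [Fs_val 3 a b c rfl rfl rfl hs x1 y1 z1]
  unfold FF
  push_cast
  ring

theorem CH_acute {a b c : ℝ} (h0 : 0 < a) (ha : a ≤ 1) (hb0 : 0 < b) (hb : b ≤ 1)
    (hc0 : 0 < c) (hc : c ≤ 1) (hg : 0 ≤ gram3 1 a b c)
    (H3 : |1 * cos (π / 2 * c) - cos (π / 2 * a) * cos (π / 2 * b)| =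
      cos (π / 2 * c) - cos (π / 2 * a) * cos (π / 2 * b))
    (H4 : |1 * cos (π / 2 * b) - cos (π / 2 * c) * cos (π / 2 * a)| =
      cos (π / 2 * b) - cos (π / 2 * c) * cos (π / 2 * a))
    (H5 : |1 * cos (π / 2 * a) - cos (π / 2 * b) * cos (π / 2 * c)| =
      cos (π / 2 * a) - cos (π / 2 * b) * cos (π / 2 * c)) :
    FF 1 a b c = Fs0 rO (1 - a) (1 - b) (1 - c) := by
  have z1 := dih_data h0 ha hb0 hb (by norm_num) hg H3
  have y1 := dih_data hc0 hc h0 ha (by norm_num) (by rw [← gram_rot, ← gram_rot]; exact hg) H4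
  have x1 := dih_data hb0 hb hc0 hc (by norm_num) (by rw [← gram_rot]; exact hg) H5
  rw [← gram_rot] at x1
  rw [← gram_rot, ← gram_rot] at y1
  have hG : ((1 : ℕ) : ℝ) - cos (π / 2 * a) * cos (π / 2 * a) - cos (π / 2 * b) * cos (π / 2 * b) -
      cos (π / 2 * c) * cos (π / 2 * c) + ((2 : ℕ) : ℝ) * (cos (π / 2 * a) * cos (π / 2 * b) *
      cos (π / 2 * c)) = gram3 1 a b c := by
    unfold gram3; push_cast; ring
  rw [Fs0, Fs_eq]
  simp only [sin_comp, cos_comp]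
  have hs := sd_acute (1 - a) (1 - b) (1 - c) (cos (π / 2 * a)) (cos (π / 2 * b))
    (cos (π / 2 * c)) (sin (π / 2 * a)) (sin (π / 2 * b)) (sin (π / 2 * c))
  rw [hG] at hs
  rw [Fs_val 0 a b c rfl rfl rfl hs x1 y1 z1]
  unfold FF
  push_cast
  ring

theorem CH_obt {a b c : ℝ} (h0 : 0 < a) (ha : a ≤ 1) (hb0 : 0 < b) (hb : b ≤ 1)
    (hc0 : 0 < c) (hc : c ≤ 1) (hg : 0 ≤ gram3 1 a b c)
    (H3 : |1 * cos (π / 2 * c) - cos (π / 2 * a) * cos (π / 2 * b)| =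
      cos (π / 2 * a) * cos (π / 2 * b) - cos (π / 2 * c))
    (H4 : |1 * cos (π / 2 * b) - cos (π / 2 * c) * cos (π / 2 * a)| =
      cos (π / 2 * b) - cos (π / 2 * c) * cos (π / 2 * a))
    (H5 : |1 * cos (π / 2 * a) - cos (π / 2 * b) * cos (π / 2 * c)| =
      cos (π / 2 * a) - cos (π / 2 * b) * cos (π / 2 * c)) :
    FF 1 a b c = Fs1 rO (1 - a) (1 - b) (1 - c) := by
  have z1 := dih_data h0 ha hb0 hb (by norm_num) hg H3
  have y1 := dih_data hc0 hc h0 ha (by norm_num) (by rw [← gram_rot, ← gram_rot]; exact hg) H4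
  have x1 := dih_data hb0 hb hc0 hc (by norm_num) (by rw [← gram_rot]; exact hg) H5
  rw [← gram_rot] at x1
  rw [← gram_rot, ← gram_rot] at y1
  have hG : ((1 : ℕ) : ℝ) - cos (π / 2 * a) * cos (π / 2 * a) - cos (π / 2 * b) * cos (π / 2 * b) -
      cos (π / 2 * c) * cos (π / 2 * c) + ((2 : ℕ) : ℝ) * (cos (π / 2 * a) * cos (π / 2 * b) *
      cos (π / 2 * c)) = gram3 1 a b c := by
    unfold gram3; push_cast; ring
  rw [Fs1, Fs_eq]
  simp only [sin_comp, cos_comp]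
  have hs := sd_obt (1 - a) (1 - b) (1 - c) (cos (π / 2 * a)) (cos (π / 2 * b))
    (cos (π / 2 * c)) (sin (π / 2 * a)) (sin (π / 2 * b)) (sin (π / 2 * c))
  rw [hG] at hs
  rw [Fs_val 1 a b c rfl rfl rfl hs x1 y1 z1]
  unfold FF
  push_cast
  ring

end H95FL
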