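import Pool.Agent.H95.FL.Par

/-!
# The individual claims
-/

namespace H95FL

open H41FT

/-- claim AA -/
def QAA : P → Prop :=
  QQ (ev Fz1) (Sm (ev Fz1)) (ev gA1) (ev gC1) (ev gN)
theorem okAA (t : Tr) (b : Bx)
    (h : chk (LT (Fz1)) (SK gA1 gC1 gN) t b.c0 b.w0 b.c1 b.w1 b.c2 b.w2 = true) :
    ∀ p, b.In p → QAA p :=
  chkQ (enc_Fz1) enc_gA1 enc_gC1 enc_gN t b h

/-- claim AB -/
def QAB : P → Prop :=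
  QQ (D 1 (ev Fz1)) (Sm (ev Fz1)) (ev gN) (ev gN) (ev gN)
theorem okAB (t : Tr) (b : Bx)
    (h : chk (LT (dd Fz1 1)) (SK gN gN gN) t b.c0 b.w0 b.c1 b.w1 b.c2 b.w2 = true) :
    ∀ p, b.In p → QAB p :=
  chkQ (enc_dd enc_Fz1 1) enc_gN enc_gN enc_gN t b h

/-- claim BA -/
def QBA : P → Prop :=
  QQ (ev Fz2) (Sm (ev Fz2)) (ev gA2) (ev gC2) (ev gN)
theorem okBA (t : Tr) (b : Bx)
    (h : chk (LT (Fz2)) (SK gA2 gC2 gN) t b.c0 b.w0 b.c1 b.w1 b.c2 b.w2 = true) :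
    ∀ p, b.In p → QBA p :=
  chkQ (enc_Fz2) enc_gA2 enc_gC2 enc_gN t b h

/-- claim BB -/
def QBB : P → Prop :=
  QQ (D 1 (ev Fz2)) (Sm (ev Fz2)) (ev gN) (ev gN) (ev gN)
theorem okBB (t : Tr) (b : Bx)
    (h : chk (LT (dd Fz2 1)) (SK gN gN gN) t b.c0 b.w0 b.c1 b.w1 b.c2 b.w2 = true) :
    ∀ p, b.In p → QBB p :=
  chkQ (enc_dd enc_Fz2 1) enc_gN enc_gN enc_gN t b h

/-- claim BC -/
def QBC : P → Prop :=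
  QQ (ev Fz2) (Sm (ev Fz2)) (ev gA2) (ev gC2) (ev gN)
theorem okBC (t : Tr) (b : Bx)
    (h : chk (LT (Fz2)) (SK gA2 gC2 gN) t b.c0 b.w0 b.c1 b.w1 b.c2 b.w2 = true) :
    ∀ p, b.In p → QBC p :=
  chkQ (enc_Fz2) enc_gA2 enc_gC2 enc_gN t b h

/-- claim BD -/
def QBD : P → Prop :=
  QQ (D 1 (ev Fz2)) (Sm (ev Fz2)) (ev gN) (ev gN) (ev gN)
theorem okBD (t : Tr) (b : Bx)
    (h : chk (LT (dd Fz2 1)) (SK gN gN gN) t b.c0 b.w0 b.c1 b.w1 b.c2 b.w2 = true) :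
    ∀ p, b.In p → QBD p :=
  chkQ (enc_dd enc_Fz2 1) enc_gN enc_gN enc_gN t b h

/-- claim BE -/
def QBE : P → Prop :=
  QQ (D 0 (ev Fz2)) (Sm (ev Fz2)) (ev gN) (ev gN) (ev gN)
theorem okBE (t : Tr) (b : Bx)
    (h : chk (LT (dd Fz2 0)) (SK gN gN gN) t b.c0 b.w0 b.c1 b.w1 b.c2 b.w2 = true) :
    ∀ p, b.In p → QBE p :=
  chkQ (enc_dd enc_Fz2 0) enc_gN enc_gN enc_gN t b h

/-- claim BF -/
def QBF : P → Prop :=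
  QQ (D 2 (ev Fz2)) (Sm (ev Fz2)) (ev gN) (ev gN) (ev gN)
theorem okBF (t : Tr) (b : Bx)
    (h : chk (LT (dd Fz2 2)) (SK gN gN gN) t b.c0 b.w0 b.c1 b.w1 b.c2 b.w2 = true) :
    ∀ p, b.In p → QBF p :=
  chkQ (enc_dd enc_Fz2 2) enc_gN enc_gN enc_gN t b h

/-- claim BG -/
def QBG : P → Prop :=
  QQ (D 0 (D 1 (ev Fz2))) (Sm (ev Fz2)) (ev gN) (ev gN) (ev gN)
theorem okBG (t : Tr) (b : Bx)
    (h : chk (LT (dd (dd Fz2 1) 0)) (SK gN gN gN) t b.c0 b.w0 b.c1 b.w1 b.c2 b.w2 = true) :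
    ∀ p, b.In p → QBG p :=
  chkQ (enc_dd (enc_dd enc_Fz2 1) 0) enc_gN enc_gN enc_gN t b h

/-- claim BH -/
def QBH : P → Prop :=
  QQ (D 2 (D 1 (ev Fz2))) (Sm (ev Fz2)) (ev gN) (ev gN) (ev gN)
theorem okBH (t : Tr) (b : Bx)
    (h : chk (LT (dd (dd Fz2 1) 2)) (SK gN gN gN) t b.c0 b.w0 b.c1 b.w1 b.c2 b.w2 = true) :
    ∀ p, b.In p → QBH p :=
  chkQ (enc_dd (enc_dd enc_Fz2 1) 2) enc_gN enc_gN enc_gN t b h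

/-- claim CA -/
def QCA : P → Prop :=
  QQ (ev Fz3) (Sm (ev Fz3)) (ev gA3) (ev gN) (ev gN)
theorem okCA (t : Tr) (b : Bx)
    (h : chk (LT (Fz3)) (SK gA3 gN gN) t b.c0 b.w0 b.c1 b.w1 b.c2 b.w2 = true) :
    ∀ p, b.In p → QCA p :=
  chkQ (enc_Fz3) enc_gA3 enc_gN enc_gN t b h

/-- claim CB -/
def QCB : P → Prop :=
  QQ (D 1 (ev Fz3)) (Sm (ev Fz3)) (ev gN) (ev gN) (ev gN)
theorem okCB (t : Tr) (b : Bx)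
    (h : chk (LT (dd Fz3 1)) (SK gN gN gN) t b.c0 b.w0 b.c1 b.w1 b.c2 b.w2 = true) :
    ∀ p, b.In p → QCB p :=
  chkQ (enc_dd enc_Fz3 1) enc_gN enc_gN enc_gN t b h

/-- claim CC -/
def QCC : P → Prop :=
  QQ (D 0 (ev Fz3)) (Sm (ev Fz3)) (ev gN) (ev gN) (ev gN)
theorem okCC (t : Tr) (b : Bx)
    (h : chk (LT (dd Fz3 0)) (SK gN gN gN) t b.c0 b.w0 b.c1 b.w1 b.c2 b.w2 = true) :
    ∀ p, b.In p → QCC p :=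
  chkQ (enc_dd enc_Fz3 0) enc_gN enc_gN enc_gN t b h

/-- claim CD -/
def QCD : P → Prop :=
  QQ (D 0 (D 1 (ev Fz3))) (Sm (ev Fz3)) (ev gN) (ev gN) (ev gN)
theorem okCD (t : Tr) (b : Bx)
    (h : chk (LT (dd (dd Fz3 1) 0)) (SK gN gN gN) t b.c0 b.w0 b.c1 b.w1 b.c2 b.w2 = true) :
    ∀ p, b.In p → QCD p :=
  chkQ (enc_dd (enc_dd enc_Fz3 1) 0) enc_gN enc_gN enc_gN t b h

/-- claim TA -/
def QTA : P → Prop :=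
  QQ (D 0 (D 2 (ev Fs0))) (Sm (ev Fs0)) (ev gN) (ev gN) (ev gN)
theorem okTA (t : Tr) (b : Bx)
    (h : chk (LT (dd (dd Fs0 2) 0)) (SK gN gN gN) t b.c0 b.w0 b.c1 b.w1 b.c2 b.w2 = true) :
    ∀ p, b.In p → QTA p :=
  chkQ (enc_dd (enc_dd enc_Fs0 2) 0) enc_gN enc_gN enc_gN t b h

/-- claim TB -/
def QTB : P → Prop :=
  QQ (D 1 (D 2 (ev Fs0))) (Sm (ev Fs0)) (ev gN) (ev gN) (ev gN)
theorem okTB (t : Tr) (b : Bx)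
    (h : chk (LT (dd (dd Fs0 2) 1)) (SK gN gN gN) t b.c0 b.w0 b.c1 b.w1 b.c2 b.w2 = true) :
    ∀ p, b.In p → QTB p :=
  chkQ (enc_dd (enc_dd enc_Fs0 2) 1) enc_gN enc_gN enc_gN t b h

/-- claim TC -/
def QTC : P → Prop :=
  QQ (D 2 (ev Fs1)) (Sm (ev Fs1)) (ev gN) (ev gN) (ev gN)
theorem okTC (t : Tr) (b : Bx)
    (h : chk (LT (dd Fs1 2)) (SK gN gN gN) t b.c0 b.w0 b.c1 b.w1 b.c2 b.w2 = true) :
    ∀ p, b.In p → QTC p :=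
  chkQ (enc_dd enc_Fs1 2) enc_gN enc_gN enc_gN t b h

/-- claim SA -/
def QSA : P → Prop :=
  QQ (D 0 (D 1 (D 0 (ev Fs3)))) (Sm (ev Fs3)) (ev gN) (ev gN) (ev gN)
theorem okSA (t : Tr) (b : Bx)
    (h : chk (LT (dd (dd (dd Fs3 0) 1) 0)) (SK gN gN gN) t b.c0 b.w0 b.c1 b.w1 b.c2 b.w2 = true) :
    ∀ p, b.In p → QSA p :=
  chkQ (enc_dd (enc_dd (enc_dd enc_Fs3 0) 1) 0) enc_gN enc_gN enc_gN t b h

/-- claim SB -/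
def QSB : P → Prop :=
  QQ (D 1 (D 1 (D 0 (ev Fs3)))) (Sm (ev Fs3)) (ev gN) (ev gN) (ev gN)
theorem okSB (t : Tr) (b : Bx)
    (h : chk (LT (dd (dd (dd Fs3 0) 1) 1)) (SK gN gN gN) t b.c0 b.w0 b.c1 b.w1 b.c2 b.w2 = true) :
    ∀ p, b.In p → QSB p :=
  chkQ (enc_dd (enc_dd (enc_dd enc_Fs3 0) 1) 1) enc_gN enc_gN enc_gN t b h

/-- claim SC -/
def QSC : P → Prop :=
  QQ (D 2 (D 1 (D 0 (ev Fs3)))) (Sm (ev Fs3)) (ev gN) (ev gN) (ev gN)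
theorem okSC (t : Tr) (b : Bx)
    (h : chk (LT (dd (dd (dd Fs3 0) 1) 2)) (SK gN gN gN) t b.c0 b.w0 b.c1 b.w1 b.c2 b.w2 = true) :
    ∀ p, b.In p → QSC p :=
  chkQ (enc_dd (enc_dd (enc_dd enc_Fs3 0) 1) 2) enc_gN enc_gN enc_gN t b h

/-- claim SD -/
def QSD : P → Prop :=
  QQ (D 0 (D 0 (D 2 (ev Fs3)))) (Sm (ev Fs3)) (ev gN) (ev gN) (ev gN)
theorem okSD (t : Tr) (b : Bx)
    (h : chk (LT (dd (dd (dd Fs3 2) 0) 0)) (SK gN gN gN) t b.c0 b.w0 b.c1 b.w1 b.c2 b.w2 = true) :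
    ∀ p, b.In p → QSD p :=
  chkQ (enc_dd (enc_dd (enc_dd enc_Fs3 2) 0) 0) enc_gN enc_gN enc_gN t b h

/-- claim SE -/
def QSE : P → Prop :=
  QQ (D 1 (D 0 (D 2 (ev Fs3)))) (Sm (ev Fs3)) (ev gN) (ev gN) (ev gN)
theorem okSE (t : Tr) (b : Bx)
    (h : chk (LT (dd (dd (dd Fs3 2) 0) 1)) (SK gN gN gN) t b.c0 b.w0 b.c1 b.w1 b.c2 b.w2 = true) :
    ∀ p, b.In p → QSE p :=
  chkQ (enc_dd (enc_dd (enc_dd enc_Fs3 2) 0) 1) enc_gN enc_gN enc_gN t b h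

/-- claim SF -/
def QSF : P → Prop :=
  QQ (D 2 (D 0 (D 2 (ev Fs3)))) (Sm (ev Fs3)) (ev gN) (ev gN) (ev gN)
theorem okSF (t : Tr) (b : Bx)
    (h : chk (LT (dd (dd (dd Fs3 2) 0) 2)) (SK gN gN gN) t b.c0 b.w0 b.c1 b.w1 b.c2 b.w2 = true) :
    ∀ p, b.In p → QSF p :=
  chkQ (enc_dd (enc_dd (enc_dd enc_Fs3 2) 0) 2) enc_gN enc_gN enc_gN t b h

/-- claim SG -/
def QSG : P → Prop :=
  QQ (D 0 (D 1 (D 2 (ev Fs3)))) (Sm (ev Fs3)) (ev gN) (ev gN) (ev gN)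
theorem okSG (t : Tr) (b : Bx)
    (h : chk (LT (dd (dd (dd Fs3 2) 1) 0)) (SK gN gN gN) t b.c0 b.w0 b.c1 b.w1 b.c2 b.w2 = true) :
    ∀ p, b.In p → QSG p :=
  chkQ (enc_dd (enc_dd (enc_dd enc_Fs3 2) 1) 0) enc_gN enc_gN enc_gN t b h

/-- claim SH -/
def QSH : P → Prop :=
  QQ (D 1 (D 1 (D 2 (ev Fs3)))) (Sm (ev Fs3)) (ev gN) (ev gN) (ev gN)
theorem okSH (t : Tr) (b : Bx)
    (h : chk (LT (dd (dd (dd Fs3 2) 1) 1)) (SK gN gN gN) t b.c0 b.w0 b.c1 b.w1 b.c2 b.w2 = true) :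
    ∀ p, b.In p → QSH p :=
  chkQ (enc_dd (enc_dd (enc_dd enc_Fs3 2) 1) 1) enc_gN enc_gN enc_gN t b h

/-- claim SI -/
def QSI : P → Prop :=
  QQ (D 2 (D 1 (D 2 (ev Fs3)))) (Sm (ev Fs3)) (ev gN) (ev gN) (ev gN)
theorem okSI (t : Tr) (b : Bx)
    (h : chk (LT (dd (dd (dd Fs3 2) 1) 2)) (SK gN gN gN) t b.c0 b.w0 b.c1 b.w1 b.c2 b.w2 = true) :
    ∀ p, b.In p → QSI p :=
  chkQ (enc_dd (enc_dd (enc_dd enc_Fs3 2) 1) 2) enc_gN enc_gN enc_gN t b h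

end H95FL
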