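import Pool.Agent.H95.FL.Chart

/-!
# The pointwise inequality
-/

namespace H95FL

open H45FT H41FT Real

variable {a b c : ℝ}

theorem polar {p q : ℝ} (hp : 0 ≤ p) (hq : 0 ≤ q) (h0 : 0 < p ^ 2 + q ^ 2) (h1 : p ^ 2 + q ^ 2 ≤ 1) :
    ∃ e φ : ℝ, 0 ≤ e ∧ e ≤ 1 ∧ 0 ≤ φ ∧ φ ≤ 1 ∧ 0 < sin (π / 2 * e) ∧
      sin (π / 2 * e) * cos (π / 2 * φ) = p ∧ sin (π / 2 * e) * sin (π / 2 * φ) = q := by
  have hpi := Real.pi_pos
  set r := √(p ^ 2 + q ^ 2) with hr
  have hr0 : 0 < r := Real.sqrt_pos.2 h0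
  have hr2 : r ^ 2 = p ^ 2 + q ^ 2 := Real.sq_sqrt h0.le
  have hr1 : r ≤ 1 := by
    have : r ^ 2 ≤ 1 ^ 2 := by rw [hr2]; linarith
    exact (sq_le_sq₀ hr0.le zero_le_one).1 this
  have ha0 : 0 ≤ arcsin r := arcsin_nonneg.2 hr0.le
  have ha1 : arcsin r ≤ π / 2 := arcsin_le_pi_div_two r
  have hpr0 : 0 ≤ p / r := by positivity
  have hpr : p / r ≤ 1 := by
    rw [div_le_one hr0]
    nlinarith
  have hb0 : 0 ≤ arccos (p / r) := arccos_nonneg _
  have hb1 : arccos (p / r) ≤ π / 2 := arccos_le_pi_div_two.2 hpr0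
  have e1 : π / 2 * (2 / π * arcsin r) = arcsin r := by field_simp
  have e2 : π / 2 * (2 / π * arccos (p / r)) = arccos (p / r) := by field_simp
  refine ⟨2 / π * arcsin r, 2 / π * arccos (p / r), by positivity, ?_, by positivity, ?_, ?_, ?_, ?_⟩
  · have := mul_le_mul_of_nonneg_left ha1 (by positivity : 0 ≤ 2 / π)
    have e : 2 / π * (π / 2) = 1 := by field_simp
    linarith
  · have := mul_le_mul_of_nonneg_left hb1 (by positivity : 0 ≤ 2 / π)
    have e : 2 / π * (π / 2) = 1 := by field_simp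
    linarith
  · rw [e1, sin_arcsin (by linarith) hr1]; exact hr0
  · rw [e1, e2, sin_arcsin (by linarith) hr1, cos_arccos (by linarith) hpr]
    field_simp
  · rw [e1, e2, sin_arcsin (by linarith) hr1, sin_arccos]
    have : √(1 - (p / r) ^ 2) = q / r := by
      rw [show 1 - (p / r) ^ 2 = (q / r) ^ 2 by field_simp; linarith]
      exact Real.sqrt_sq (by positivity)
    rw [this]
    field_simp

/-! ### the two cosines -/

theorem cs_pos {x : ℝ} (h0 : 0 ≤ x) (h1 : x < 1) : 0 < cos (π / 2 * x) :=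
  cos_pos_of_mem_Ioo ⟨by nlinarith [Real.pi_pos], by nlinarith [Real.pi_pos]⟩

theorem sn_nonneg {x : ℝ} (h0 : 0 ≤ x) (h1 : x ≤ 1) : 0 ≤ sin (π / 2 * x) :=
  sin_nonneg_of_nonneg_of_le_pi (by positivity) (by nlinarith [Real.pi_pos])

/-! ### first chart, `σ = 1`, acute -/

theorem ex1 (h0 : 0 < a) (ha : a ≤ 1) (hab : a ≤ b) (hbc : b ≤ c) (hc : c ≤ 1)
    (hg : 0 ≤ gram3 1 a b c) (hw : cos (π / 2 * a) * cos (π / 2 * b) ≤ cos (π / 2 * c)) :
    ∃ e m : ℝ, 0 ≤ e ∧ e ≤ 1 ∧ 0 ≤ m ∧ m ≤ 1/2 ∧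
      sin (π / 2 * e) * cos (π / 2 * (a * m)) = cos (π / 2 * b) ∧
      sin (π / 2 * e) * cos (π / 2 * (a - a * m)) = cos (π / 2 * c) := by
  have hpi := Real.pi_pos
  have hu := csn h0.le ha
  have hv := csn (h0.le.trans hab) (hbc.trans hc)
  have hw0 := csn (by linarith : 0 ≤ c) hc
  have hS := snp h0 ha
  have hvw := csa (by linarith : 0 ≤ b) hbc hc
  have g := gram_id (σ := 1) (by norm_num) a b c
  have pa := sin_sq_add_cos_sq (π / 2 * a)
  have pb := sin_sq_add_cos_sq (π / 2 * b)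
  rcases hv.eq_or_lt with hv0 | hvp
  · refine ⟨0, 0, le_rfl, zero_le_one, le_rfl, by norm_num, ?_, ?_⟩
    · rw [← hv0]; simp
    · have : cos (π / 2 * c) = 0 := by linarith
      rw [this]; simp
  obtain ⟨e, φ, e0, e1, f0, f1, hse, k1, k2⟩ := polar (p := cos (π / 2 * b))
    (q := (cos (π / 2 * c) - cos (π / 2 * a) * cos (π / 2 * b)) / sin (π / 2 * a)) hv
    (div_nonneg (by linarith) hS.le) (by positivity) (by
      have e3 : cos (π / 2 * b) ^ 2 + ((cos (π / 2 * c) - cos (π / 2 * a) * cos (π / 2 * b)) /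
        sin (π / 2 * a)) ^ 2 = (cos (π / 2 * b) ^ 2 * sin (π / 2 * a) ^ 2 +
        (cos (π / 2 * c) - cos (π / 2 * a) * cos (π / 2 * b)) ^ 2) / sin (π / 2 * a) ^ 2 := by
        generalize sin (π / 2 * a) = S at *
        field_simp
      rw [e3, div_le_one (by positivity)]
      rw [one_mul] at g
      rw [mul_pow] at g
      have e4 : sin (π / 2 * b) ^ 2 = 1 - cos (π / 2 * b) ^ 2 := by linarith
      rw [e4] at g
      nlinarith [g, hg])
  have k3 : sin (π / 2 * e) * cos (π / 2 * (a - φ)) = cos (π / 2 * c) := by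
    rw [mul_sub, cos_sub]
    have : sin (π / 2 * e) * (cos (π / 2 * a) * cos (π / 2 * φ) + sin (π / 2 * a) *
        sin (π / 2 * φ)) = cos (π / 2 * a) * (sin (π / 2 * e) * cos (π / 2 * φ)) +
        sin (π / 2 * a) * (sin (π / 2 * e) * sin (π / 2 * φ)) := by ring
    rw [this, k1, k2, mul_div_cancel₀ _ hS.ne']
    ring
  have hle : φ ≤ a / 2 := by
    by_contra hcon
    push Not at hcon
    have h3 : cos (π / 2 * φ) < cos (π / 2 * (a - φ)) := by
      rw [← cos_abs (π / 2 * (a - φ))]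
      refine cos_lt_cos_of_nonneg_of_le_pi (abs_nonneg _) (by nlinarith) ?_
      rw [abs_mul, abs_of_pos (by positivity : 0 < π / 2)]
      refine mul_lt_mul_of_pos_left ?_ (by positivity)
      rw [abs_lt]; constructor <;> linarith
    have h4 := mul_lt_mul_of_pos_left h3 hse
    rw [k1, k3] at h4
    linarith
  have hm : a * (φ / a) = φ := by field_simp
  refine ⟨e, φ / a, e0, e1, by positivity, ?_, ?_, ?_⟩
  · rw [div_le_iff₀ h0]; linarith
  · rw [hm]; exact k1
  · rw [hm]; exact k3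

theorem case1 (h0 : 0 < a) (ha : a ≤ 9/10) (hab : a ≤ b) (hbc : b ≤ c) (hc : c ≤ 1)
    (hg : 0 ≤ gram3 1 a b c) (hw : cos (π / 2 * a) * cos (π / 2 * b) ≤ cos (π / 2 * c))
    (hs : cos (π / 2 * c) ≤ 989 / 1000) : 0 ≤ FF 1 a b c := by
  have hpi := Real.pi_pos
  have ha1 : a ≤ 1 := by linarith
  have hb0 : 0 < b := by linarith
  have hc0 : 0 < c := by linarith
  have hb1 : b ≤ 1 := by linarith
  obtain ⟨e, m, e0, e1, m0, m1, k1, k2⟩ := ex1 h0 ha1 hab hbc hc hg hw
  have hu := csn h0.le ha1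
  have hv := csn hb0.le hb1
  have hw0 := csn hc0.le hc
  have huv := csa h0.le hab hb1
  have hvw := csa hb0.le hbc hc
  have hS := snp h0 ha1
  have hse := sn_nonneg e0 e1
  have hce := csn e0 e1
  have f0 : 0 ≤ a * m := by positivity
  have f1 : a * m ≤ 1 := by nlinarith
  have g0 : 0 ≤ a - a * m := by nlinarith
  have g1 : a - a * m ≤ 1 := by linarith
  have sf := sn_nonneg f0 f1
  have sg := sn_nonneg g0 g1
  have pe := sin_sq_add_cos_sq (π / 2 * e)
  have pf := sin_sq_add_cos_sq (π / 2 * (a * m))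
  have pg := sin_sq_add_cos_sq (π / 2 * (a - a * m))
  have pb := sin_sq_add_cos_sq (π / 2 * b)
  have pc := sin_sq_add_cos_sq (π / 2 * c)
  have a1 : cos (π / 2 * (a - a * m)) = cos (π / 2 * a) * cos (π / 2 * (a * m)) +
      sin (π / 2 * a) * sin (π / 2 * (a * m)) := by rw [mul_sub, cos_sub]
  have a2 : cos (π / 2 * (a * m)) = cos (π / 2 * a) * cos (π / 2 * (a - a * m)) +
      sin (π / 2 * a) * sin (π / 2 * (a - a * m)) := by
    rw [← cos_sub]; congr 1; ring
  have R := R_Fz1 h0.le ha e0 e1 m0 m1 (by rw [k1]; linarith) (by rw [k2]; linarith)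
  rw [Fz1_eq, zd_eq, k1, k2] at R
  have T := zc_true1 (ce := cos (π / 2 * e)) (mp := sin (π / 2 * e) * sin (π / 2 * (a * m)))
    (np := sin (π / 2 * e) * sin (π / 2 * (a - a * m))) h0 ha1 hb0 hb1 hc0 hc hce
    (mul_nonneg hse sf) (mul_nonneg hse sg)
    (by
      have : sin (π / 2 * b) ^ 2 = 1 - (sin (π / 2 * e) * cos (π / 2 * (a * m))) ^ 2 := by
        rw [k1]; linarith
      rw [this]
      linear_combination pe + sin (π / 2 * e) ^ 2 * pf)
    (by
      have : sin (π / 2 * c) ^ 2 = 1 - (sin (π / 2 * e) * cos (π / 2 * (a - a * m))) ^ 2 := by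
        rw [k2]; linarith
      rw [this]
      linear_combination pe + sin (π / 2 * e) ^ 2 * pg)
    (by
      have e5 : 1 * cos (π / 2 * c) - cos (π / 2 * a) * cos (π / 2 * b) =
          sin (π / 2 * a) * (sin (π / 2 * e) * sin (π / 2 * (a * m))) := by
        rw [← k1, ← k2, a1]; ring
      rw [e5, abs_of_nonneg (by positivity)])
    (by
      have e5 : 1 * cos (π / 2 * b) - cos (π / 2 * c) * cos (π / 2 * a) =
          sin (π / 2 * a) * (sin (π / 2 * e) * sin (π / 2 * (a - a * m))) := by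
        rw [← k1, ← k2]
        linear_combination sin (π / 2 * e) * a2
      rw [e5, abs_of_nonneg (by positivity)])
    (by
      have : cos (π / 2 * b) * cos (π / 2 * c) ≤ cos (π / 2 * b) := by
        have := cos_le_one (π / 2 * c)
        nlinarith
      rw [one_mul, abs_of_nonneg (by linarith)])
  rw [T]
  have hr : rho a = a * (((2 : ℕ) : ℝ) - a) - a * (((1 : ℕ) : ℝ) - a) * (π / 2) := by
    unfold rho; push_cast; ring
  rw [hr]
  exact R

/-! ### first chart, `σ = 1`, obtuse -/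

theorem ex2 (h0 : 0 < a) (ha : a ≤ 9/10) (hab : a ≤ b) (hbc : b ≤ c) (hc : c ≤ 1)
    (hg : 0 ≤ gram3 1 a b c) (hw : cos (π / 2 * c) ≤ cos (π / 2 * a) * cos (π / 2 * b)) :
    ∃ e s : ℝ, 0 ≤ e ∧ e ≤ 1 ∧ 0 ≤ s ∧ s ≤ 1 ∧
      sin (π / 2 * e) * sin (π / 2 * ((1 - a) * s)) = cos (π / 2 * c) ∧
      sin (π / 2 * e) * sin (π / 2 * ((1 - a) * s + a)) = cos (π / 2 * b) := by
  have hpi := Real.pi_pos
  have ha1 : a ≤ 1 := by linarith
  have hu := csn h0.le ha1
  have hv := csn (h0.le.trans hab) (hbc.trans hc)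
  have hw0 := csn (by linarith : 0 ≤ c) hc
  have hS := snp h0 ha1
  have hvw := csa (by linarith : 0 ≤ b) hbc hc
  have hu1 := cos_le_one (π / 2 * a)
  have g := gram_id (σ := 1) (by norm_num) a c b
  have hg' : gram3 1 a c b = gram3 1 a b c := by unfold gram3; ring
  rw [hg'] at g
  have pc := sin_sq_add_cos_sq (π / 2 * c)
  rcases hv.eq_or_lt with hv0 | hvp
  · refine ⟨0, 0, le_rfl, zero_le_one, le_rfl, zero_le_one, ?_, ?_⟩
    · have : cos (π / 2 * c) = 0 := by linarith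
      rw [this]; simp
    · rw [← hv0]; simp
  have hq : 0 < cos (π / 2 * b) - cos (π / 2 * a) * cos (π / 2 * c) := by
    have h1 : cos (π / 2 * a) < 1 := by
      have := sin_sq_add_cos_sq (π / 2 * a)
      nlinarith
    have h2 : cos (π / 2 * a) * cos (π / 2 * c) ≤ cos (π / 2 * a) * cos (π / 2 * b) :=
      mul_le_mul_of_nonneg_left hvw hu
    nlinarith
  obtain ⟨e, φ, e0, e1, f0, f1, hse, k1, k2⟩ := polar (p := cos (π / 2 * c))
    (q := (cos (π / 2 * b) - cos (π / 2 * a) * cos (π / 2 * c)) / sin (π / 2 * a)) hw0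
    (div_nonneg hq.le hS.le) (by
      have : 0 < (cos (π / 2 * b) - cos (π / 2 * a) * cos (π / 2 * c)) / sin (π / 2 * a) :=
        div_pos hq hS
      positivity) (by
      have e3 : cos (π / 2 * c) ^ 2 + ((cos (π / 2 * b) - cos (π / 2 * a) * cos (π / 2 * c)) /
        sin (π / 2 * a)) ^ 2 = (cos (π / 2 * c) ^ 2 * sin (π / 2 * a) ^ 2 +
        (cos (π / 2 * b) - cos (π / 2 * a) * cos (π / 2 * c)) ^ 2) / sin (π / 2 * a) ^ 2 := by
        generalize sin (π / 2 * a) = S at *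
        field_simp
      rw [e3, div_le_one (by positivity)]
      rw [one_mul] at g
      rw [mul_pow] at g
      have e4 : sin (π / 2 * c) ^ 2 = 1 - cos (π / 2 * c) ^ 2 := by linarith
      rw [e4] at g
      nlinarith [g, hg])
  have k1' : sin (π / 2 * e) * sin (π / 2 * (1 - φ)) = cos (π / 2 * c) := by
    rw [sin_comp]; exact k1
  have k2' : sin (π / 2 * e) * cos (π / 2 * (1 - φ)) =
      (cos (π / 2 * b) - cos (π / 2 * a) * cos (π / 2 * c)) / sin (π / 2 * a) := by
    rw [cos_comp]; exact k2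
  have k3 : sin (π / 2 * e) * sin (π / 2 * ((1 - φ) + a)) = cos (π / 2 * b) := by
    rw [mul_add, sin_add]
    have : sin (π / 2 * e) * (sin (π / 2 * (1 - φ)) * cos (π / 2 * a) + cos (π / 2 * (1 - φ)) *
        sin (π / 2 * a)) = cos (π / 2 * a) * (sin (π / 2 * e) * sin (π / 2 * (1 - φ))) +
        sin (π / 2 * a) * (sin (π / 2 * e) * cos (π / 2 * (1 - φ))) := by ring
    rw [this, k1', k2', mul_div_cancel₀ _ hS.ne']
    ring
  have hle : (1 - φ) + a ≤ 1 := by
    by_contra hcon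
    push Not at hcon
    have h3 : cos (π / 2 * ((1 - φ) + a)) < 0 :=
      cos_neg_of_pi_div_two_lt_of_lt (by nlinarith) (by nlinarith)
    have h4 : cos (π / 2 * c) - cos (π / 2 * a) * cos (π / 2 * b) =
        -(sin (π / 2 * e) * sin (π / 2 * a) * cos (π / 2 * ((1 - φ) + a))) := by
      rw [← k1', ← k3]
      have h5 : sin (π / 2 * (1 - φ)) = sin (π / 2 * ((1 - φ) + a)) * cos (π / 2 * a) -
          cos (π / 2 * ((1 - φ) + a)) * sin (π / 2 * a) := by
        rw [← sin_sub]; congr 1; ring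
      rw [h5]; ring
    have h6 : 0 < sin (π / 2 * e) * sin (π / 2 * a) := mul_pos hse hS
    have h7 := mul_neg_of_pos_of_neg h6 h3
    linarith
  have h1a : 0 < 1 - a := by linarith
  have hm : (1 - a) * ((1 - φ) / (1 - a)) = 1 - φ := by field_simp
  refine ⟨e, (1 - φ) / (1 - a), e0, e1, div_nonneg (by linarith) h1a.le, ?_, ?_, ?_⟩
  · rw [div_le_one h1a]; linarith
  · rw [hm]; exact k1'
  · rw [hm]; exact k3

theorem case2 (h0 : 0 < a) (ha : a ≤ 9/10) (hab : a ≤ b) (hbc : b ≤ c) (hc : c ≤ 1)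
    (hg : 0 ≤ gram3 1 a b c) (hw : cos (π / 2 * c) ≤ cos (π / 2 * a) * cos (π / 2 * b))
    (hs : cos (π / 2 * c) ≤ 989 / 1000) : 0 ≤ FF 1 a b c := by
  have hpi := Real.pi_pos
  have ha1 : a ≤ 1 := by linarith
  have hb0 : 0 < b := by linarith
  have hc0 : 0 < c := by linarith
  have hb1 : b ≤ 1 := by linarith
  obtain ⟨e, s, e0, e1, s0, s1, k1, k2⟩ := ex2 h0 ha hab hbc hc hg hw
  have hu := csn h0.le ha1
  have hv := csn hb0.le hb1
  have hw0 := csn hc0.le hc
  have huv := csa h0.le hab hb1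
  have hvw := csa hb0.le hbc hc
  have hS := snp h0 ha1
  have hse := sn_nonneg e0 e1
  have hce := csn e0 e1
  have f0 : 0 ≤ (1 - a) * s := mul_nonneg (by linarith) s0
  have f1 : (1 - a) * s ≤ 1 - a := by nlinarith
  have cf := csn f0 (by linarith)
  have cg := csn (by linarith : 0 ≤ (1 - a) * s + a) (by linarith)
  have pe := sin_sq_add_cos_sq (π / 2 * e)
  have pf := sin_sq_add_cos_sq (π / 2 * ((1 - a) * s))
  have pg := sin_sq_add_cos_sq (π / 2 * ((1 - a) * s + a))
  have pb := sin_sq_add_cos_sq (π / 2 * b)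
  have pc := sin_sq_add_cos_sq (π / 2 * c)
  have a1 : sin (π / 2 * ((1 - a) * s + a)) = sin (π / 2 * ((1 - a) * s)) * cos (π / 2 * a) +
      cos (π / 2 * ((1 - a) * s)) * sin (π / 2 * a) := by rw [mul_add, sin_add]
  have a2 : sin (π / 2 * ((1 - a) * s)) = sin (π / 2 * ((1 - a) * s + a)) * cos (π / 2 * a) -
      cos (π / 2 * ((1 - a) * s + a)) * sin (π / 2 * a) := by
    rw [← sin_sub]; congr 1; ring
  have R := R_Fz2 h0.le ha e0 e1 s0 s1 (by rw [k2]; linarith) (by rw [k1]; linarith)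
  rw [Fz2_eq, zd_eq, Nat.cast_one, k1, k2] at R
  have T := zc_true2 (a := a) (b := c) (c := b) (ce := cos (π / 2 * e))
    (mp := sin (π / 2 * e) * cos (π / 2 * ((1 - a) * s)))
    (np := sin (π / 2 * e) * cos (π / 2 * ((1 - a) * s + a))) h0 ha1 hc0 hc hb0 hb1 hce
    (mul_nonneg hse cf) (mul_nonneg hse cg)
    (by
      have : sin (π / 2 * c) ^ 2 = 1 - (sin (π / 2 * e) * sin (π / 2 * ((1 - a) * s))) ^ 2 := by
        rw [k1]; linarith
      rw [this]
      linear_combination pe + sin (π / 2 * e) ^ 2 * pf)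
    (by
      have : sin (π / 2 * b) ^ 2 = 1 - (sin (π / 2 * e) * sin (π / 2 * ((1 - a) * s + a))) ^ 2 := by
        rw [k2]; linarith
      rw [this]
      linear_combination pe + sin (π / 2 * e) ^ 2 * pg)
    (by
      have e5 : 1 * cos (π / 2 * b) - cos (π / 2 * a) * cos (π / 2 * c) =
          sin (π / 2 * a) * (sin (π / 2 * e) * cos (π / 2 * ((1 - a) * s))) := by
        rw [← k1, ← k2, a1]; ring
      rw [e5, abs_of_nonneg (by positivity)])
    (by
      have e5 : 1 * cos (π / 2 * c) - cos (π / 2 * b) * cos (π / 2 * a) =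
          -(sin (π / 2 * a) * (sin (π / 2 * e) * cos (π / 2 * ((1 - a) * s + a)))) := by
        rw [← k1, ← k2]
        linear_combination sin (π / 2 * e) * a2
      rw [e5, abs_neg, abs_of_nonneg (by positivity)])
    (by
      have : cos (π / 2 * c) * cos (π / 2 * b) ≤ cos (π / 2 * b) := by
        have := cos_le_one (π / 2 * c)
        nlinarith
      rw [one_mul, abs_of_nonneg (by linarith)])
  rw [FF_swap, FF_rot, T]
  have hr : rho a = a * (((2 : ℕ) : ℝ) - a) - a * (1 - a) * (π / 2) := by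
    unfold rho; push_cast; ring
  rw [hr]
  exact R

/-! ### first chart, `σ = -1` -/

theorem ex3 (h0 : 0 < a) (ha : a ≤ 1) (hab : a ≤ b) (hbc : b ≤ c) (hc : c ≤ 1)
    (hg : 0 ≤ gram3 (-1) a b c) :
    ∃ e m : ℝ, 0 ≤ e ∧ e ≤ 1 ∧ 0 ≤ m ∧ m ≤ 1/2 ∧
      sin (π / 2 * e) * sin (π / 2 * (a * m)) = cos (π / 2 * c) ∧
      sin (π / 2 * e) * sin (π / 2 * (a - a * m)) = cos (π / 2 * b) := by
  have hpi := Real.pi_pos
  have hu := csn h0.le ha
  have hv := csn (h0.le.trans hab) (hbc.trans hc)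
  have hw0 := csn (by linarith : 0 ≤ c) hc
  have hS := snp h0 ha
  have hvw := csa (by linarith : 0 ≤ b) hbc hc
  have g := gram_id (σ := -1) (by norm_num) a c b
  have hg' : gram3 (-1) a c b = gram3 (-1) a b c := by unfold gram3; ring
  rw [hg'] at g
  have pc := sin_sq_add_cos_sq (π / 2 * c)
  rcases hv.eq_or_lt with hv0 | hvp
  · refine ⟨0, 0, le_rfl, zero_le_one, le_rfl, by norm_num, ?_, ?_⟩
    · have : cos (π / 2 * c) = 0 := by linarith
      rw [this]; simp
    · rw [← hv0]; simp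
  have hq : 0 < cos (π / 2 * b) + cos (π / 2 * a) * cos (π / 2 * c) := by positivity
  obtain ⟨e, φ, e0, e1, f0, f1, hse, k1, k2⟩ := polar (p := cos (π / 2 * c))
    (q := (cos (π / 2 * b) + cos (π / 2 * a) * cos (π / 2 * c)) / sin (π / 2 * a)) hw0
    (div_nonneg hq.le hS.le) (by
      have : 0 < (cos (π / 2 * b) + cos (π / 2 * a) * cos (π / 2 * c)) / sin (π / 2 * a) :=
        div_pos hq hS
      positivity) (by
      have e3 : cos (π / 2 * c) ^ 2 + ((cos (π / 2 * b) + cos (π / 2 * a) * cos (π / 2 * c)) /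
        sin (π / 2 * a)) ^ 2 = (cos (π / 2 * c) ^ 2 * sin (π / 2 * a) ^ 2 +
        (cos (π / 2 * b) + cos (π / 2 * a) * cos (π / 2 * c)) ^ 2) / sin (π / 2 * a) ^ 2 := by
        generalize sin (π / 2 * a) = S at *
        field_simp
      rw [e3, div_le_one (by positivity)]
      rw [mul_pow] at g
      have e4 : sin (π / 2 * c) ^ 2 = 1 - cos (π / 2 * c) ^ 2 := by linarith
      rw [e4] at g
      nlinarith [g, hg])
  have k1' : sin (π / 2 * e) * sin (π / 2 * (1 - φ)) = cos (π / 2 * c) := by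
    rw [sin_comp]; exact k1
  have k2' : sin (π / 2 * e) * cos (π / 2 * (1 - φ)) =
      (cos (π / 2 * b) + cos (π / 2 * a) * cos (π / 2 * c)) / sin (π / 2 * a) := by
    rw [cos_comp]; exact k2
  have k3 : sin (π / 2 * e) * sin (π / 2 * (a - (1 - φ))) = cos (π / 2 * b) := by
    rw [mul_sub (π / 2) a, sin_sub]
    have : sin (π / 2 * e) * (sin (π / 2 * a) * cos (π / 2 * (1 - φ)) - cos (π / 2 * a) *
        sin (π / 2 * (1 - φ))) = sin (π / 2 * a) * (sin (π / 2 * e) * cos (π / 2 * (1 - φ))) -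
        cos (π / 2 * a) * (sin (π / 2 * e) * sin (π / 2 * (1 - φ))) := by ring
    rw [this, k1', k2', mul_div_cancel₀ _ hS.ne']
    ring
  have hle : 1 - φ ≤ a / 2 := by
    by_contra hcon
    push Not at hcon
    have h3 : sin (π / 2 * (a - (1 - φ))) < sin (π / 2 * (1 - φ)) := by
      refine sin_lt_sin_of_lt_of_le_pi_div_two (by nlinarith) (by nlinarith) ?_
      refine mul_lt_mul_of_pos_left ?_ (by positivity)
      linarith
    have h4 := mul_lt_mul_of_pos_left h3 hse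
    rw [k1', k3] at h4
    linarith
  have hm : a * ((1 - φ) / a) = 1 - φ := by field_simp
  refine ⟨e, (1 - φ) / a, e0, e1, div_nonneg (by linarith) h0.le, ?_, ?_, ?_⟩
  · rw [div_le_iff₀ h0]; linarith
  · rw [hm]; exact k1'
  · rw [hm]; exact k3

theorem case3 (h0 : 0 < a) (ha : a ≤ 9/10) (hab : a ≤ b) (hbc : b ≤ c) (hc : c ≤ 1)
    (hg : 0 ≤ gram3 (-1) a b c) : 0 ≤ FF (-1) a b c := by
  have hpi := Real.pi_pos
  have ha1 : a ≤ 1 := by linarith
  have hb0 : 0 < b := by linarith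
  have hc0 : 0 < c := by linarith
  have hb1 : b ≤ 1 := by linarith
  obtain ⟨e, m, e0, e1, m0, m1, k1, k2⟩ := ex3 h0 ha1 hab hbc hc hg
  have hu := csn h0.le ha1
  have hv := csn hb0.le hb1
  have hw0 := csn hc0.le hc
  have huv := csa h0.le hab hb1
  have hvw := csa hb0.le hbc hc
  have hS := snp h0 ha1
  have hse := sn_nonneg e0 e1
  have hce := csn e0 e1
  have f0 : 0 ≤ a * m := by positivity
  have f1 : a * m ≤ 1 := by nlinarith
  have g0 : 0 ≤ a - a * m := by nlinarith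
  have g1 : a - a * m ≤ 1 := by linarith
  have cf := csn f0 f1
  have cg := csn g0 g1
  have pe := sin_sq_add_cos_sq (π / 2 * e)
  have pf := sin_sq_add_cos_sq (π / 2 * (a * m))
  have pg := sin_sq_add_cos_sq (π / 2 * (a - a * m))
  have pb := sin_sq_add_cos_sq (π / 2 * b)
  have pc := sin_sq_add_cos_sq (π / 2 * c)
  have a1 : sin (π / 2 * (a - a * m)) = sin (π / 2 * a) * cos (π / 2 * (a * m)) -
      cos (π / 2 * a) * sin (π / 2 * (a * m)) := by rw [mul_sub, sin_sub]
  have a2 : sin (π / 2 * (a * m)) = sin (π / 2 * a) * cos (π / 2 * (a - a * m)) -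
      cos (π / 2 * a) * sin (π / 2 * (a - a * m)) := by
    rw [← sin_sub]; congr 1; ring
  have R := R_Fz3 h0.le ha e0 e1 m0 m1 (by rw [k2]; linarith)
  rw [Fz3_eq, zd_eq, k1, k2] at R
  have T := zc_true3 (a := a) (b := c) (c := b) (ce := cos (π / 2 * e))
    (mp := sin (π / 2 * e) * cos (π / 2 * (a * m)))
    (np := sin (π / 2 * e) * cos (π / 2 * (a - a * m))) h0 ha1 hc0 hc hb0 hb1 hce
    (mul_nonneg hse cf) (mul_nonneg hse cg)
    (by
      have : sin (π / 2 * c) ^ 2 = 1 - (sin (π / 2 * e) * sin (π / 2 * (a * m))) ^ 2 := by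
        rw [k1]; linarith
      rw [this]
      linear_combination pe + sin (π / 2 * e) ^ 2 * pf)
    (by
      have : sin (π / 2 * b) ^ 2 = 1 - (sin (π / 2 * e) * sin (π / 2 * (a - a * m))) ^ 2 := by
        rw [k2]; linarith
      rw [this]
      linear_combination pe + sin (π / 2 * e) ^ 2 * pg)
    (by
      have e5 : -1 * cos (π / 2 * b) - cos (π / 2 * a) * cos (π / 2 * c) =
          -(sin (π / 2 * a) * (sin (π / 2 * e) * cos (π / 2 * (a * m)))) := by
        rw [← k1, ← k2, a1]; ring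
      rw [e5, abs_neg, abs_of_nonneg (by positivity)])
    (by
      have e5 : -1 * cos (π / 2 * c) - cos (π / 2 * b) * cos (π / 2 * a) =
          -(sin (π / 2 * a) * (sin (π / 2 * e) * cos (π / 2 * (a - a * m)))) := by
        rw [← k1, ← k2]
        linear_combination -sin (π / 2 * e) * a2
      rw [e5, abs_neg, abs_of_nonneg (by positivity)])
    (by
      rw [abs_of_nonpos (by nlinarith)]; ring)
  rw [FF_swap, FF_rot, T]
  have hr : rho a = a * (((2 : ℕ) : ℝ) - a) - a * (((1 : ℕ) : ℝ) - a) * (π / 2) := by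
    unfold rho; push_cast; ring
  rw [hr]
  exact R

end H95FL
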