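import Pool.Agent.H41.FT.Ops

/-!
# The functions of the pointwise inequality, for arbitrary operations
-/

namespace H95FL

open H41FT

variable {T : Type} (o : Ops T)

/-- `rho t` -/
def pq (t : T) : T := o.sub (o.mul t (o.sub (o.nat 2) t)) (o.hm (o.mul t (o.sub (o.nat 1) t)))

/-- `1 - rho (1 - t)` -/
def qq (t : T) : T := o.add (o.mul t t) (o.hm (o.mul t (o.sub (o.nat 1) t)))

/-- the product term -/
def tr (p q s : T) : T := o.mul (o.mul p q) (o.add (o.nat 1) s)

/-- the trigonometric part; `k = 3` is the sign `-1` -/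
def vt (k : Nat) (C m n : T) : T :=
  lt (o.mul m n) fun mn => lt (o.mul C C) fun C2 =>
  lt (o.smul 3 (o.mul C mn)) fun e =>
  lt (o.add (o.mul C2 (o.add (o.mul m m) (o.mul n n))) (o.mul mn mn)) fun q =>
  match k with
  | 3 => o.sub (o.sub (o.nat 0) e) q
  | _ => o.sub e q

/-- assembly: `P, Q, R` are the values `rho` of the sides, `sx, sy, sz` belong to the pairs
`(P, Q)`, `(P, R)`, `(Q, R)` -/
def fs (P Q R sx sy sz V : T) : T :=
  o.sub (o.sub (o.add P (o.add Q R)) (o.add (tr o P Q sx) (o.add (tr o P R sy) (tr o Q R sz)))) V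

/-- the chart of a point projected to the great circle of the side `a` -/
def zc (k : Nat) (P ct st ce m mp n np : T) : T :=
  lt (o.mul ce ce) fun ce2 =>
  lt (o.sqrt (o.add ce2 (o.mul mp mp))) fun sb =>
  lt (o.sqrt (o.add ce2 (o.mul np np))) fun sc =>
  lt (o.smul 2 (o.at_ (o.mul m (o.inv (o.add (o.nat 1) sb))))) fun be =>
  lt (o.smul 2 (o.at_ (o.mul n (o.inv (o.add (o.nat 1) sc))))) fun de =>
  lt (o.smul 2 (o.at_ (o.mul mp (o.inv (o.add sb ce))))) fun gx =>
  lt (o.smul 2 (o.at_ (o.mul np (o.inv (o.add sc ce))))) fun gy =>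
  lt (o.mul m n) fun mn =>
  lt (match k with
    | 3 => o.add ct mn
    | _ => o.sub ct mn) fun cz =>
  lt (o.smul 2 (o.at_ (o.mul (o.mul ce st) (o.inv (o.add (o.mul sb sc) cz))))) fun gz =>
  lt (o.sub (o.nat 1) (qq o be)) fun Q => lt (o.sub (o.nat 1) (qq o de)) fun R =>
  fs o P Q R (qq o gx) (qq o gy) (o.sub (o.nat 1) (pq o gz)) (vt o k ct m n)

/-- after the choice of the position on the great circle -/
def zd (k : Nat) (th ep A Ap B Bp : T) : T :=
  lt (o.sn ep) fun se =>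
  zc o k (pq o th) (o.cs th) (o.sn th) (o.cs ep) (o.mul se A) (o.mul se Ap) (o.mul se B)
    (o.mul se Bp)

/-- `σ = 1`, the projection lies on the side -/
def Fz1 (th ep mu : T) : T :=
  lt (o.mul th mu) fun f => lt (o.sub th f) fun g =>
  zd o 1 th ep (o.cs f) (o.sn f) (o.cs g) (o.sn g)

/-- `σ = 1`, the projection lies outside the side -/
def Fz2 (th ep s : T) : T :=
  lt (o.mul (o.sub (o.nat 1) th) s) fun f => lt (o.add f th) fun g =>
  zd o 2 th ep (o.sn f) (o.cs f) (o.sn g) (o.cs g)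

/-- `σ = -1` -/
def Fz3 (th ep mu : T) : T :=
  lt (o.mul th mu) fun f => lt (o.sub th f) fun g =>
  zd o 3 th ep (o.sn f) (o.cs f) (o.sn g) (o.cs g)

/-- the chart of the complements of the sides; `k = 3`: `σ = -1`; `k = 0`: `σ = 1`, acute;
`k = 1`: `σ = 1`, obtuse at the vertex opposite to `de` -/
def sd (k : Nat) (al be de u v w sa sb sc : T) : T :=
  lt (o.mul u v) fun uv => lt (o.mul v w) fun vw => lt (o.mul w u) fun wu =>
  lt (o.sub (o.sub (o.sub (o.nat 1) (o.mul u u)) (o.mul v v)) (o.mul w w)) fun G0 =>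
  lt (o.smul 2 (o.mul uv w)) fun e =>
  lt (match k with
    | 3 => o.sub G0 e
    | _ => o.add G0 e) fun D2 =>
  lt (o.sqrt D2) fun Dr =>
  lt (match k with
    | 3 => o.add u vw
    | _ => o.sub u vw) fun nx =>
  lt (match k with
    | 3 => o.add v wu
    | _ => o.sub v wu) fun ny =>
  lt (match k with
    | 3 => o.add w uv
    | 0 => o.sub w uv
    | _ => o.sub uv w) fun nz =>
  lt (o.smul 2 (o.at_ (o.mul nx (o.inv (o.add (o.mul sb sc) Dr))))) fun gx =>
  lt (o.smul 2 (o.at_ (o.mul ny (o.inv (o.add (o.mul sc sa) Dr))))) fun gy =>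
  lt (o.smul 2 (o.at_ (o.mul nz (o.inv (o.add (o.mul sa sb) Dr))))) fun gz =>
  lt (o.sub (o.nat 1) (qq o al)) fun P => lt (o.sub (o.nat 1) (qq o be)) fun Q =>
  lt (o.sub (o.nat 1) (qq o de)) fun R =>
  fs o P Q R (qq o gz) (qq o gy) (qq o gx) (vt o k u v w)

/-- the chart of the complements -/
def Fs (k : Nat) (al be de : T) : T :=
  sd o k al be de (o.sn al) (o.sn be) (o.sn de) (o.cs al) (o.cs be) (o.cs de)

def Fs3 (al be de : T) : T := Fs o 3 al be de
def Fs0 (al be de : T) : T := Fs o 0 al be de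
def Fs1 (al be de : T) : T := Fs o 1 al be de

/-! ### guards -/

def gA1 (th ep mu : T) : T := o.sub (o.mul (o.sn ep) (o.cs (o.mul th mu))) (o.cs th)
def gA2 (th ep s : T) : T :=
  o.sub (o.mul (o.sn ep) (o.sn (o.add (o.mul (o.sub (o.nat 1) th) s) th))) (o.cs th)
def gA3 (th ep mu : T) : T := o.sub (o.mul (o.sn ep) (o.sn (o.sub th (o.mul th mu)))) (o.cs th)
def gC1 (th ep mu : T) : T :=
  o.sub (o.smul 1000 (o.mul (o.sn ep) (o.cs (o.sub th (o.mul th mu))))) (o.nat 989)
def gC2 (th ep s : T) : T :=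
  o.sub (o.smul 1000 (o.mul (o.sn ep) (o.sn (o.mul (o.sub (o.nat 1) th) s)))) (o.nat 989)

end H95FL
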