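import Pool.Agent.H95.FL.Red

/-!
# From the pointwise inequality to the energy inequality for measures
-/

namespace H95FL

open Finset H45FT MeasureTheory

theorem fin_bound (hS : Star) (d : ℕ) {lam : ℝ} (hl : Real.pi / 2 ≤ lam)
    (t : Finset (EuclideanSpace ℝ (Fin (d + 1)))) (w : EuclideanSpace ℝ (Fin (d + 1)) → ℝ)
    (ht : ∀ v ∈ t, v ∈ Metric.sphere (0 : EuclideanSpace ℝ (Fin (d + 1))) 1)
    (hw : ∀ v ∈ t, 0 ≤ w v) (hw1 : ∑ v ∈ t, w v = 1) :
    ∑ v ∈ t, ∑ u ∈ t, w v * w u * Real.arccos |@inner ℝ _ _ v u| ^ lam ≤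
      (Real.pi / 2) ^ lam * ((d : ℝ) / (d + 1)) := by
  classical
  have hp := Real.pi_pos
  have h1 : ∑ i ∈ t, ∑ j ∈ t, w i * w j * rho (ang (inner ℝ i j)) ≤
      (1 - 1 / ((d + 1 : ℕ) : ℝ)) * (∑ i ∈ t, w i) ^ 2 := by
    let e := t.equivFin
    have h := bd_all hS d (Fin t.card) Finset.univ (fun i => (e.symm i : EuclideanSpace ℝ (Fin (d + 1))))
      (fun i => w (e.symm i)) (fun i _ => mem_sphere_zero_iff_norm.mp (ht _ (e.symm i).2))
      (fun i _ => hw _ (e.symm i).2)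
    have hs : ∀ f : EuclideanSpace ℝ (Fin (d + 1)) → ℝ,
        ∑ i : Fin t.card, f (e.symm i) = ∑ v ∈ t, f v := by
      intro f
      rw [← Finset.sum_coe_sort t]
      exact Equiv.sum_comp e.symm (fun v => f v)
    rw [hs w] at h
    have h' : ∑ i : Fin t.card, ∑ j : Fin t.card, w (e.symm i) * w (e.symm j) *
        rho (ang (inner ℝ (e.symm i : EuclideanSpace ℝ (Fin (d + 1)))
          (e.symm j : EuclideanSpace ℝ (Fin (d + 1)))))
        = ∑ i ∈ t, ∑ j ∈ t, w i * w j * rho (ang (inner ℝ i j)) := by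
      rw [← hs (fun v => ∑ j ∈ t, w v * w j * rho (ang (inner ℝ v j)))]
      refine Finset.sum_congr rfl fun i _ => ?_
      exact hs (fun u => w (e.symm i) * w u *
        rho (ang (inner ℝ (e.symm i : EuclideanSpace ℝ (Fin (d + 1))) u)))
    rw [h'] at h
    exact h
  have hC : (1 - 1 / ((d + 1 : ℕ) : ℝ)) = (d : ℝ) / (d + 1) := by
    push_cast
    field_simp
    ring
  rw [hC, hw1, one_pow, mul_one] at h1
  have h2 : ∑ v ∈ t, ∑ u ∈ t, w v * w u * Real.arccos |@inner ℝ _ _ v u| ^ lam ≤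
      (Real.pi / 2) ^ lam * ∑ i ∈ t, ∑ j ∈ t, w i * w j * rho (ang (inner ℝ i j)) := by
    rw [Finset.mul_sum]
    refine Finset.sum_le_sum fun v hv => ?_
    rw [Finset.mul_sum]
    refine Finset.sum_le_sum fun u hu => ?_
    have h3 := rpow_le_rho hl (ang_nonneg (inner ℝ v u)) (ang_le_one (inner ℝ v u))
    have h4 : Real.arccos |@inner ℝ _ _ v u| ^ lam
        = (Real.pi / 2) ^ lam * ang (inner ℝ v u) ^ lam := by
      rw [← half_pi_ang, Real.mul_rpow (by positivity) (ang_nonneg _)]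
    rw [h4]
    calc w v * w u * ((Real.pi / 2) ^ lam * ang (inner ℝ v u) ^ lam)
        = ((Real.pi / 2) ^ lam * (w v * w u)) * ang (inner ℝ v u) ^ lam := by ring
      _ ≤ ((Real.pi / 2) ^ lam * (w v * w u)) * rho (ang (inner ℝ v u)) := by
          refine mul_le_mul_of_nonneg_left h3 ?_
          exact mul_nonneg (by positivity) (mul_nonneg (hw v hv) (hw u hu))
      _ = _ := by ring
  refine h2.trans ?_
  exact mul_le_mul_of_nonneg_left h1 (by positivity)

/-- The energy inequality for every exponent at least `π/2` in every dimension. -/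
theorem energy_le (hS : Star) (d : ℕ) {lam : ℝ} (hl : Real.pi / 2 ≤ lam)
    (μ : Measure (EuclideanSpace ℝ (Fin (d + 1)))) (hμ : IsProbabilityMeasure μ)
    (hs : μ (Metric.sphere (0 : EuclideanSpace ℝ (Fin (d + 1))) 1)ᶜ = 0) :
    ∫ x, ∫ y, Real.arccos |@inner ℝ _ _ x y| ^ lam ∂μ ∂μ ≤
      (Real.pi / 2) ^ lam * ((d : ℝ) / (d + 1)) := by
  have hp := Real.pi_pos
  have hl0 : 0 ≤ lam := by linarith
  refine integral_integral_le_of_finite μ hs (fun x y => Real.arccos |@inner ℝ _ _ x y| ^ lam)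
    ?_ (B := Real.pi ^ lam) ?_ (fun t w ht hw hw1 => fin_bound hS d hl t w ht hw hw1)
  · have : Continuous fun p : EuclideanSpace ℝ (Fin (d + 1)) × EuclideanSpace ℝ (Fin (d + 1)) =>
      Real.arccos |@inner ℝ _ _ p.1 p.2| := by fun_prop
    exact this.rpow_const fun _ => Or.inr hl0
  · intro x y
    rw [abs_of_nonneg (Real.rpow_nonneg (Real.arccos_nonneg _) _)]
    exact Real.rpow_le_rpow (Real.arccos_nonneg _) (Real.arccos_le_pi _) hl0

/-- The value at an orthonormal basis. -/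
theorem onb_value (d : ℕ) {lam : ℝ} (hl : 0 < lam)
    (b : OrthonormalBasis (Fin (d + 1)) ℝ (EuclideanSpace ℝ (Fin (d + 1)))) :
    ∫ x, ∫ y, Real.arccos |@inner ℝ _ _ x y| ^ lam
      ∂(((d + 1 : ℕ) : ENNReal)⁻¹ • ∑ i, Measure.dirac (b i))
      ∂(((d + 1 : ℕ) : ENNReal)⁻¹ • ∑ i, Measure.dirac (b i)) =
      (Real.pi / 2) ^ lam * ((d : ℝ) / (d + 1)) := by
  have key : ∀ f : EuclideanSpace ℝ (Fin (d + 1)) → ℝ,
      ∫ x, f x ∂(((d + 1 : ℕ) : ENNReal)⁻¹ • ∑ i, Measure.dirac (b i)) =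
        (1 / ((d : ℝ) + 1)) * ∑ i, f (b i) := by
    intro f
    rw [integral_smul_measure, integral_finsetSum_measure]
    · simp only [integral_dirac]
      rw [ENNReal.toReal_inv, ENNReal.toReal_natCast]
      simp
    · intro i _
      exact integrable_dirac (by simp)
  rw [key]
  simp only [key]
  have h : ∀ i j : Fin (d + 1), (@inner ℝ _ _ (b i) (b j) : ℝ) = if i = j then 1 else 0 :=
    fun i j => orthonormal_iff_ite.1 b.orthonormal i j
  have h1 : ∀ i j : Fin (d + 1), Real.arccos |@inner ℝ _ _ (b i) (b j)| ^ lam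
      = (Real.pi / 2) ^ lam * (1 - if i = j then 1 else 0) := by
    intro i j
    rw [h]
    by_cases hij : i = j
    · simp [hij, Real.zero_rpow hl.ne']
    · simp [hij]
  simp only [h1, ← Finset.mul_sum, Finset.sum_sub_distrib]
  simp
  field_simp

end H95FL
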