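import Pool.Agent.H41.FT.Der
import Pool.Agent.H95.FL.Funs

/-!
# Exact second jets at a point
-/

namespace H95FL

open H41FT Filter Topology

/-- value and one partial derivative at a point -/
structure J1 (j : Fin 3) (p : P) (f : P → ℝ) (a c : ℝ) : Prop where
  sm : Sm f p
  v : f p = a
  d : D j f p = c

section one

variable {j : Fin 3} {p : P} {f g : P → ℝ} {a c a' c' : ℝ}

theorem J1.congr (h : J1 j p f a c) (e : f =ᶠ[𝓝 p] g) : J1 j p g a c :=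
  ⟨h.sm.congr e, by rw [← h.v]; exact e.self_of_nhds.symm, by
    rw [← h.d]; exact (D_congr e j).self_of_nhds.symm⟩

theorem J1.nat (n : ℕ) : J1 j p (fO.nat n) n 0 :=
  ⟨Sm_nat n, rfl, by rw [D_nat]; show ((0 : ℕ) : ℝ) = 0; simp⟩

theorem J1.add (h : J1 j p f a c) (k : J1 j p g a' c') : J1 j p (fO.add f g) (a + a') (c + c') :=
  ⟨Sm_add h.sm k.sm, by rw [← h.v, ← k.v]; rfl, by
    rw [← h.d, ← k.d]; exact (D_add j h.sm k.sm).self_of_nhds.symm⟩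

theorem J1.sub (h : J1 j p f a c) (k : J1 j p g a' c') : J1 j p (fO.sub f g) (a - a') (c - c') :=
  ⟨Sm_sub h.sm k.sm, by rw [← h.v, ← k.v]; rfl, by
    rw [← h.d, ← k.d]; exact (D_sub j h.sm k.sm).self_of_nhds.symm⟩

theorem J1.mul (h : J1 j p f a c) (k : J1 j p g a' c') :
    J1 j p (fO.mul f g) (a * a') (a * c' + c * a') :=
  ⟨Sm_mul h.sm k.sm, by rw [← h.v, ← k.v]; rfl, by
    rw [← h.d, ← k.d, ← h.v, ← k.v]; exact (D_mul j h.sm k.sm).self_of_nhds.symm⟩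

theorem J1.smul (n : ℕ) (h : J1 j p f a c) : J1 j p (fO.smul n f) (n * a) (n * c) :=
  ⟨Sm_smul n h.sm, by rw [← h.v]; rfl, by
    rw [← h.d]; exact (D_smul j n h.sm).self_of_nhds.symm⟩

theorem J1.hm (h : J1 j p f a c) : J1 j p (fO.hm f) (a * (Real.pi / 2)) (c * (Real.pi / 2)) :=
  ⟨Sm_hm h.sm, by rw [← h.v]; rfl, by
    rw [← h.d]; exact (D_hm j h.sm).self_of_nhds.symm⟩

theorem J1.ihm (h : J1 j p f a c) : J1 j p (fO.ihm f) (a * (2 / Real.pi)) (c * (2 / Real.pi)) :=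
  ⟨Sm_ihm h.sm, by rw [← h.v]; rfl, by
    rw [← h.d]; exact (D_ihm j h.sm).self_of_nhds.symm⟩

theorem J1.inv (h : J1 j p f a c) (ha : 0 < a) :
    J1 j p (fO.inv f) a⁻¹ (0 - a⁻¹ * a⁻¹ * c) := by
  have h0 : 0 < f p := by rw [h.v]; exact ha
  refine ⟨Sm_inv h.sm h0, by rw [← h.v]; rfl, ?_⟩
  rw [← (D_inv j h.sm h0).self_of_nhds, ← h.d, ← h.v]
  show ((0 : ℕ) : ℝ) - (f p)⁻¹ * (f p)⁻¹ * D j f p = _
  simp

theorem J1.sqrt (h : J1 j p f a c) (ha : 0 < a) :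
    J1 j p (fO.sqrt f) (√a) ((2 * √a)⁻¹ * c) := by
  have h0 : 0 < f p := by rw [h.v]; exact ha
  refine ⟨Sm_sqrt h.sm h0, by rw [← h.v]; rfl, ?_⟩
  rw [← (D_sqrt j h.sm h0).self_of_nhds, ← h.d, ← h.v]
  rfl

theorem J1.sn (h : J1 j p f a c) :
    J1 j p (fO.sn f) (Real.sin (Real.pi / 2 * a)) (Real.cos (Real.pi / 2 * a) * (Real.pi / 2) * c) := by
  refine ⟨Sm_sn h.sm, by rw [← h.v]; rfl, ?_⟩
  rw [← (D_sn j h.sm).self_of_nhds, ← h.d, ← h.v]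
  rfl

theorem J1.cs (h : J1 j p f a c) :
    J1 j p (fO.cs f) (Real.cos (Real.pi / 2 * a))
      (0 - Real.sin (Real.pi / 2 * a) * (Real.pi / 2) * c) := by
  refine ⟨Sm_cs h.sm, by rw [← h.v]; rfl, ?_⟩
  rw [← (D_cs j h.sm).self_of_nhds, ← h.d, ← h.v]
  show ((0 : ℕ) : ℝ) - Real.sin (Real.pi / 2 * f p) * (Real.pi / 2) * D j f p = _
  simp

theorem J1.at_ (h : J1 j p f a c) :
    J1 j p (fO.at_ f) (2 / Real.pi * Real.arctan a) ((1 + a * a)⁻¹ * (2 / Real.pi) * c) := by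
  refine ⟨Sm_at h.sm, by rw [← h.v]; rfl, ?_⟩
  rw [← (D_at j h.sm).self_of_nhds, ← h.d, ← h.v]
  show (((1 : ℕ) : ℝ) + f p * f p)⁻¹ * (2 / Real.pi) * D j f p = _
  simp

end one

/-- value, two partial derivatives and the mixed second derivative at a point -/
structure J2 (i j : Fin 3) (p : P) (f : P → ℝ) (a b c d : ℝ) : Prop where
  x : J1 j p f a c
  y : J1 j p (D i f) b d

section two

variable {i j : Fin 3} {p : P} {f g : P → ℝ} {a b c d a' b' c' d' : ℝ}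

theorem J2.cast (h : J2 i j p f a b c d) (h1 : a = a') (h2 : b = b') (h3 : c = c') (h4 : d = d') :
    J2 i j p f a' b' c' d' := by
  subst h1; subst h2; subst h3; subst h4; exact h

theorem J2.nat (n : ℕ) : J2 i j p (fO.nat n) n 0 0 0 :=
  ⟨J1.nat n, by
    rw [D_nat]
    have := J1.nat (j := j) (p := p) 0
    simpa using this⟩

theorem J2.co (k : Fin 3) : J2 i j p (co k) (p k) (if i = k then 1 else 0) (if j = k then 1 else 0) 0 := by
  refine ⟨⟨Sm_coord k, rfl, ?_⟩, ?_⟩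
  · rw [D_co]
    show (((if j = k then 1 else 0 : ℕ)) : ℝ) = _
    split_ifs <;> simp
  · rw [D_co]
    have := J1.nat (j := j) (p := p) (if i = k then 1 else 0)
    refine ⟨this.sm, ?_, this.d⟩
    rw [this.v]
    split_ifs <;> simp

theorem J2.add (h : J2 i j p f a b c d) (k : J2 i j p g a' b' c' d') :
    J2 i j p (fO.add f g) (a + a') (b + b') (c + c') (d + d') :=
  ⟨h.x.add k.x, (h.y.add k.y).congr (D_add i h.x.sm k.x.sm)⟩

theorem J2.sub (h : J2 i j p f a b c d) (k : J2 i j p g a' b' c' d') :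
    J2 i j p (fO.sub f g) (a - a') (b - b') (c - c') (d - d') :=
  ⟨h.x.sub k.x, (h.y.sub k.y).congr (D_sub i h.x.sm k.x.sm)⟩

theorem J2.mul (h : J2 i j p f a b c d) (k : J2 i j p g a' b' c' d') :
    J2 i j p (fO.mul f g) (a * a') (a * b' + b * a') (a * c' + c * a')
      ((a * d' + c * b') + (b * c' + d * a')) :=
  ⟨h.x.mul k.x, ((h.x.mul k.y).add (h.y.mul k.x)).congr (D_mul i h.x.sm k.x.sm)⟩

theorem J2.smul (n : ℕ) (h : J2 i j p f a b c d) :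
    J2 i j p (fO.smul n f) (n * a) (n * b) (n * c) (n * d) :=
  ⟨h.x.smul n, (h.y.smul n).congr (D_smul i n h.x.sm)⟩

theorem J2.hm (h : J2 i j p f a b c d) :
    J2 i j p (fO.hm f) (a * (Real.pi / 2)) (b * (Real.pi / 2)) (c * (Real.pi / 2))
      (d * (Real.pi / 2)) :=
  ⟨h.x.hm, h.y.hm.congr (D_hm i h.x.sm)⟩

theorem J2.inv (h : J2 i j p f a b c d) (ha : 0 < a) :
    J2 i j p (fO.inv f) a⁻¹ (0 - a⁻¹ * a⁻¹ * b) (0 - a⁻¹ * a⁻¹ * c)
      (0 - (a⁻¹ * a⁻¹ * d + (a⁻¹ * (0 - a⁻¹ * a⁻¹ * c) + (0 - a⁻¹ * a⁻¹ * c) * a⁻¹) * b)) := by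
  have h0 : 0 < f p := by rw [h.x.v]; exact ha
  refine ⟨h.x.inv ha, ?_⟩
  have k := (J1.nat (j := j) (p := p) 0).sub (((h.x.inv ha).mul (h.x.inv ha)).mul h.y)
  rw [Nat.cast_zero] at k
  exact k.congr (D_inv i h.x.sm h0)

theorem J2.sqrt (h : J2 i j p f a b c d) (ha : 0 < a) :
    J2 i j p (fO.sqrt f) (√a) ((2 * √a)⁻¹ * b) ((2 * √a)⁻¹ * c)
      ((2 * √a)⁻¹ * d + (0 - (2 * √a)⁻¹ * (2 * √a)⁻¹ * (2 * ((2 * √a)⁻¹ * c))) * b) := by
  have h0 : 0 < f p := by rw [h.x.v]; exact ha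
  have hs : 0 < 2 * √a := by have := Real.sqrt_pos.2 ha; linarith
  refine ⟨h.x.sqrt ha, ?_⟩
  have k1 := (h.x.sqrt ha).smul 2
  rw [Nat.cast_ofNat] at k1
  exact ((k1.inv hs).mul h.y).congr (D_sqrt i h.x.sm h0)

theorem J2.sn (h : J2 i j p f a b c d) :
    J2 i j p (fO.sn f) (Real.sin (Real.pi / 2 * a)) (Real.cos (Real.pi / 2 * a) * (Real.pi / 2) * b)
      (Real.cos (Real.pi / 2 * a) * (Real.pi / 2) * c)
      (Real.cos (Real.pi / 2 * a) * (Real.pi / 2) * d +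
        (0 - Real.sin (Real.pi / 2 * a) * (Real.pi / 2) * c) * (Real.pi / 2) * b) :=
  ⟨h.x.sn, (h.x.cs.hm.mul h.y).congr (D_sn i h.x.sm)⟩

theorem J2.cs (h : J2 i j p f a b c d) :
    J2 i j p (fO.cs f) (Real.cos (Real.pi / 2 * a))
      (0 - Real.sin (Real.pi / 2 * a) * (Real.pi / 2) * b)
      (0 - Real.sin (Real.pi / 2 * a) * (Real.pi / 2) * c)
      (0 - (Real.sin (Real.pi / 2 * a) * (Real.pi / 2) * d +
        Real.cos (Real.pi / 2 * a) * (Real.pi / 2) * c * (Real.pi / 2) * b)) := by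
  refine ⟨h.x.cs, ?_⟩
  have k := (J1.nat (j := j) (p := p) 0).sub (h.x.sn.hm.mul h.y)
  rw [Nat.cast_zero] at k
  exact k.congr (D_cs i h.x.sm)

theorem J2.at_ (h : J2 i j p f a b c d) :
    J2 i j p (fO.at_ f) (2 / Real.pi * Real.arctan a) ((1 + a * a)⁻¹ * (2 / Real.pi) * b)
      ((1 + a * a)⁻¹ * (2 / Real.pi) * c)
      ((1 + a * a)⁻¹ * (2 / Real.pi) * d +
        (0 - (1 + a * a)⁻¹ * (1 + a * a)⁻¹ * (a * c + c * a)) * (2 / Real.pi) * b) := by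
  refine ⟨h.x.at_, ?_⟩
  have k1 := (J1.nat (j := j) (p := p) 1).add (h.x.mul h.x)
  rw [Nat.cast_one, zero_add] at k1
  have hp : 0 < 1 + a * a := by nlinarith [mul_self_nonneg a]
  exact (((k1.inv hp).ihm).mul h.y).congr (D_at i h.x.sm)

end two

end H95FL
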