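import Pool.Agent.H41.FT.L1
import Pool.Agent.H41.FT.L3
import Pool.Agent.H95.FL.Box

/-!
# Nonnegativity on the regions of the first chart
-/

namespace H95FL

open Real Function H41FT

section upd

variable (p : P) (t : ℝ)

theorem u00 : update p 0 t 0 = t := update_self ..
theorem u01 : update p 0 t 1 = p 1 := update_of_ne (by decide) ..
theorem u02 : update p 0 t 2 = p 2 := update_of_ne (by decide) ..
theorem u10 : update p 1 t 0 = p 0 := update_of_ne (by decide) ..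
theorem u11 : update p 1 t 1 = t := update_self ..
theorem u12 : update p 1 t 2 = p 2 := update_of_ne (by decide) ..
theorem u20 : update p 2 t 0 = p 0 := update_of_ne (by decide) ..
theorem u21 : update p 2 t 1 = p 1 := update_of_ne (by decide) ..
theorem u22 : update p 2 t 2 = t := update_self ..

end upd

/-- a box -/
structure B3 (a0 b0 a1 b1 a2 b2 : ℝ) (p : P) : Prop where
  l0 : a0 ≤ p 0
  r0 : p 0 ≤ b0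
  l1 : a1 ≤ p 1
  r1 : p 1 ≤ b1
  l2 : a2 ≤ p 2
  r2 : p 2 ≤ b2

section

variable {a0 b0 a1 b1 a2 b2 : ℝ} {p : P} {t : ℝ} (h : B3 a0 b0 a1 b1 a2 b2 p)
include h

theorem B3.u0 (h1 : a0 ≤ t) (h2 : t ≤ b0) : B3 a0 b0 a1 b1 a2 b2 (update p 0 t) := by
  refine ⟨?_, ?_, ?_, ?_, ?_, ?_⟩
  · rw [u00]; exact h1
  · rw [u00]; exact h2
  · rw [u01]; exact h.l1
  · rw [u01]; exact h.r1
  · rw [u02]; exact h.l2
  · rw [u02]; exact h.r2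

theorem B3.u1 (h1 : a1 ≤ t) (h2 : t ≤ b1) : B3 a0 b0 a1 b1 a2 b2 (update p 1 t) := by
  refine ⟨?_, ?_, ?_, ?_, ?_, ?_⟩
  · rw [u10]; exact h.l0
  · rw [u10]; exact h.r0
  · rw [u11]; exact h1
  · rw [u11]; exact h2
  · rw [u12]; exact h.l2
  · rw [u12]; exact h.r2

theorem B3.u2 (h1 : a2 ≤ t) (h2 : t ≤ b2) : B3 a0 b0 a1 b1 a2 b2 (update p 2 t) := by
  refine ⟨?_, ?_, ?_, ?_, ?_, ?_⟩
  · rw [u20]; exact h.l0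
  · rw [u20]; exact h.r0
  · rw [u21]; exact h.l1
  · rw [u21]; exact h.r1
  · rw [u22]; exact h1
  · rw [u22]; exact h2

theorem B3.lo0 : a0 ≤ p 0 ∧ ∀ t, a0 ≤ t → t ≤ p 0 → B3 a0 b0 a1 b1 a2 b2 (update p 0 t) :=
  ⟨h.l0, fun _ h1 h2 => h.u0 h1 (h2.trans h.r0)⟩
theorem B3.lo1 : a1 ≤ p 1 ∧ ∀ t, a1 ≤ t → t ≤ p 1 → B3 a0 b0 a1 b1 a2 b2 (update p 1 t) :=
  ⟨h.l1, fun _ h1 h2 => h.u1 h1 (h2.trans h.r1)⟩
theorem B3.lo2 : a2 ≤ p 2 ∧ ∀ t, a2 ≤ t → t ≤ p 2 → B3 a0 b0 a1 b1 a2 b2 (update p 2 t) :=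
  ⟨h.l2, fun _ h1 h2 => h.u2 h1 (h2.trans h.r2)⟩
theorem B3.hi0 : p 0 ≤ b0 ∧ ∀ t, p 0 ≤ t → t ≤ b0 → B3 a0 b0 a1 b1 a2 b2 (update p 0 t) :=
  ⟨h.r0, fun _ h1 h2 => h.u0 (h.l0.trans h1) h2⟩
theorem B3.hi1 : p 1 ≤ b1 ∧ ∀ t, p 1 ≤ t → t ≤ b1 → B3 a0 b0 a1 b1 a2 b2 (update p 1 t) :=
  ⟨h.r1, fun _ h1 h2 => h.u1 (h.l1.trans h1) h2⟩
theorem B3.hi2 : p 2 ≤ b2 ∧ ∀ t, p 2 ≤ t → t ≤ b2 → B3 a0 b0 a1 b1 a2 b2 (update p 2 t) :=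
  ⟨h.r2, fun _ h1 h2 => h.u2 (h.l2.trans h1) h2⟩

end

/-! ### values on faces -/

theorem ev_Fz1 (p : P) : ev Fz1 p = Fz1 rO (p 0) (p 1) (p 2) := rfl
theorem ev_Fz2 (p : P) : ev Fz2 p = Fz2 rO (p 0) (p 1) (p 2) := rfl
theorem ev_Fz3 (p : P) : ev Fz3 p = Fz3 rO (p 0) (p 1) (p 2) := rfl

theorem zc_e0 (k : ℕ) {P ct st g : ℝ} (hg : 2 * (2 / π * arctan (st * (1 + ct)⁻¹)) = g)
    (hP : P = g * (2 - g) - g * (1 - g) * (π / 2)) :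
    zc rO k P ct st 1 0 0 0 0 = 0 := by
  have h1 : √(1 * 1 + 0 * 0 : ℝ) = 1 := by simp
  have key : zc rO k P ct st 1 0 0 0 0 =
      P + (1 + 1) - (P * 1 * 1 + (P * 1 * 1 + 1 * 1 * (1 + (1 - P)))) := by
    unfold zc vt
    simp only [H41FT.lt, rO, fs, tr, pq, qq]
    rw [h1]
    subst hP
    subst hg
    split <;> norm_num
  rw [key]; ring

theorem zc_t0 (k : ℕ) {ce se : ℝ} (h : ce * ce + se * se = 1) :
    zc rO k 0 1 0 ce 0 se 0 se = 0 := by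
  have h1 : √(ce * ce + se * se) = 1 := by rw [h]; simp
  have key : zc rO k 0 1 0 ce 0 se 0 se = 0 + (1 + 1) - (0 + (0 + 1 * 1 * (1 + (1 - 0)))) := by
    unfold zc vt
    simp only [H41FT.lt, rO, fs, tr, pq, qq]
    rw [h1]
    split <;> norm_num
  rw [key]; ring

theorem lt_app {A B : Type} (e : A) (f : A → B) : H41FT.lt e f = f e := rfl

theorem zd_eq (k : ℕ) (th ep A Ap B Bp : ℝ) : zd rO k th ep A Ap B Bp =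
    zc rO k (th * (((2 : ℕ) : ℝ) - th) - th * (((1 : ℕ) : ℝ) - th) * (π / 2)) (cos (π / 2 * th))
      (sin (π / 2 * th)) (cos (π / 2 * ep)) (sin (π / 2 * ep) * A) (sin (π / 2 * ep) * Ap)
      (sin (π / 2 * ep) * B) (sin (π / 2 * ep) * Bp) := by
  rw [zd, lt_app]; rfl

theorem Fz1_eq (th ep mu : ℝ) : Fz1 rO th ep mu =
    zd rO 1 th ep (cos (π / 2 * (th * mu))) (sin (π / 2 * (th * mu)))
      (cos (π / 2 * (th - th * mu))) (sin (π / 2 * (th - th * mu))) := by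
  rw [Fz1, lt_app, lt_app]; rfl

theorem Fz2_eq (th ep s : ℝ) : Fz2 rO th ep s =
    zd rO 2 th ep (sin (π / 2 * ((((1 : ℕ) : ℝ) - th) * s)))
      (cos (π / 2 * ((((1 : ℕ) : ℝ) - th) * s))) (sin (π / 2 * ((((1 : ℕ) : ℝ) - th) * s + th)))
      (cos (π / 2 * ((((1 : ℕ) : ℝ) - th) * s + th))) := by
  rw [Fz2, lt_app, lt_app]; rfl

theorem Fz3_eq (th ep mu : ℝ) : Fz3 rO th ep mu =
    zd rO 3 th ep (sin (π / 2 * (th * mu))) (cos (π / 2 * (th * mu)))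
      (sin (π / 2 * (th - th * mu))) (cos (π / 2 * (th - th * mu))) := by
  rw [Fz3, lt_app, lt_app]; rfl

theorem zd_e0 (k : ℕ) {th A Ap B Bp : ℝ} (h0 : 0 ≤ th) (h1 : th ≤ 1) :
    zd rO k th 0 A Ap B Bp = 0 := by
  have h := at_half (x := th) (by linarith) (by linarith)
  rw [zd_eq]
  simp only [mul_zero, sin_zero, cos_zero, zero_mul]
  exact zc_e0 k h (by push_cast; ring)

theorem zd_t0 (k : ℕ) (ep : ℝ) : zd rO k 0 ep 0 1 0 1 = 0 := by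
  have h1 : cos (π / 2 * ep) * cos (π / 2 * ep) + sin (π / 2 * ep) * sin (π / 2 * ep) = 1 := by
    have := sin_sq_add_cos_sq (π / 2 * ep)
    nlinarith
  rw [zd_eq]
  simp only [mul_zero, sin_zero, cos_zero, zero_mul, mul_one, sub_self]
  exact zc_t0 k h1

theorem Fz1_e0 {th mu : ℝ} (h0 : 0 ≤ th) (h1 : th ≤ 1) : Fz1 rO th 0 mu = 0 := by
  rw [Fz1_eq, zd_e0 1 h0 h1]
theorem Fz2_e0 {th mu : ℝ} (h0 : 0 ≤ th) (h1 : th ≤ 1) : Fz2 rO th 0 mu = 0 := by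
  rw [Fz2_eq, zd_e0 2 h0 h1]
theorem Fz3_e0 {th mu : ℝ} (h0 : 0 ≤ th) (h1 : th ≤ 1) : Fz3 rO th 0 mu = 0 := by
  rw [Fz3_eq, zd_e0 3 h0 h1]

theorem Fz3_t0 (ep mu : ℝ) : Fz3 rO 0 ep mu = 0 := by
  rw [Fz3_eq]
  simp only [zero_mul, sub_zero, mul_zero, sin_zero, cos_zero]
  exact zd_t0 3 ep

theorem Fz2_t0s0 (ep : ℝ) : Fz2 rO 0 ep 0 = 0 := by
  rw [Fz2_eq]
  simp only [mul_zero, add_zero, sin_zero, cos_zero]
  exact zd_t0 2 ep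

/-! ### `σ = 1`, acute -/

theorem rAB : ∀ p : P, B3 0 (9/10) 0 (1/10) 0 (1/2) p → 0 ≤ ev Fz1 p := by
  refine pat1 (i := 1) (fun p h => h.lo1) (fun p h => ?_) (fun p h h0 => ?_)
  · obtain ⟨k1, k2⟩ := clAB h.l0 h.r0 h.l1 h.r1 h.l2 h.r2
    exact ⟨k1.le, k2⟩
  · rw [ev_Fz1, h0]
    exact (Fz1_e0 h.l0 (by linarith [h.r0])).ge

theorem R_Fz1 {a e m : ℝ} (a0 : 0 ≤ a) (a1 : a ≤ 9/10) (e0 : 0 ≤ e) (e1 : e ≤ 1) (m0 : 0 ≤ m)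
    (m1 : m ≤ 1/2) (g0 : sin (π / 2 * e) * cos (π / 2 * (a * m)) - cos (π / 2 * a) ≤ 0)
    (g1 : 1000 * (sin (π / 2 * e) * cos (π / 2 * (a - a * m))) - 989 ≤ 0) :
    0 ≤ Fz1 rO a e m := by
  have he : Fz1 rO a e m = ev Fz1 ![a, e, m] := rfl
  rw [he]
  rcases le_total e (1/10) with h | h
  · exact rAB _ ⟨a0, a1, e0, h, m0, m1⟩
  · exact (clAA (p := ![a, e, m]) a0 a1 h e1 m0 m1 g0 g1).1.le

/-! ### `σ = 1`, obtuse -/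

theorem rBB : ∀ p : P, B3 (1/10) (9/10) 0 (1/10) 0 1 p → 0 ≤ ev Fz2 p := by
  refine pat1 (i := 1) (fun p h => h.lo1) (fun p h => ?_) (fun p h h0 => ?_)
  · obtain ⟨k1, k2⟩ := clBB h.l0 h.r0 h.l1 h.r1 h.l2 h.r2
    exact ⟨k1.le, k2⟩
  · rw [ev_Fz2, h0]
    exact (Fz2_e0 (by linarith [h.l0]) (by linarith [h.r0])).ge

theorem rBD : ∀ p : P, B3 0 (1/10) 0 (1/10) (1/10) 1 p → 0 ≤ ev Fz2 p := by
  refine pat1 (i := 1) (fun p h => h.lo1) (fun p h => ?_) (fun p h h0 => ?_)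
  · obtain ⟨k1, k2⟩ := clBD h.l0 h.r0 h.l1 h.r1 h.l2 h.r2
    exact ⟨k1.le, k2⟩
  · rw [ev_Fz2, h0]
    exact (Fz2_e0 (by linarith [h.l0]) (by linarith [h.r0])).ge

theorem Fz2_zl {p : P} (h0 : p 0 = 0) (h2 : p 2 = 0) (h1 : 0 ≤ p 1) (h1' : p 1 ≤ 1/10) :
    Zl (ev Fz2) 1 p := by
  refine ⟨0, 1/10, by norm_num, h1, h1', fun t ht ht' => ?_⟩
  rw [ev_Fz2, u10, u11, u12, h0, h2]
  exact Fz2_t0s0 t

theorem rBG : ∀ p : P, B3 0 (1/10) 0 (1/10) 0 (1/10) p → 0 ≤ ev Fz2 p := by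
  have key0 : ∀ p : P, B3 0 (1/10) 0 (1/10) 0 (1/10) p ∧ p 0 = 0 → 0 ≤ D 1 (ev Fz2) p := by
    refine pat1 (i := 2) (lo := 0) (fun p h => ⟨h.1.l2, fun t ht ht' => ⟨h.1.lo2.2 t ht ht', ?_⟩⟩)
      (fun p h => ?_) (fun p h h0 => ?_)
    · rw [u20]; exact h.2
    · obtain ⟨k1, k2⟩ := clBH h.1.l0 h.1.r0 h.1.l1 h.1.r1 h.1.l2 h.1.r2
      exact ⟨k1.le, k2.D 1⟩
    · exact ((Fz2_zl h.2 h0 h.1.l1 h.1.r1).D
        (clBH h.1.l0 h.1.r0 h.1.l1 h.1.r1 h.1.l2 h.1.r2).2).ge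
  have key : ∀ p : P, B3 0 (1/10) 0 (1/10) 0 (1/10) p → 0 ≤ D 1 (ev Fz2) p := by
    refine pat1 (i := 0) (fun p h => h.lo0) (fun p h => ?_) (fun p h h0 => ?_)
    · obtain ⟨k1, k2⟩ := clBG h.l0 h.r0 h.l1 h.r1 h.l2 h.r2
      exact ⟨k1.le, k2.D 1⟩
    · exact key0 p ⟨h, h0⟩
  refine pat1 (i := 1) (fun p h => h.lo1) (fun p h => ⟨key p h, ?_⟩) (fun p h h0 => ?_)
  · exact (clBG h.l0 h.r0 h.l1 h.r1 h.l2 h.r2).2
  · rw [ev_Fz2, h0]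
    exact (Fz2_e0 (by linarith [h.l0]) (by linarith [h.r0])).ge

theorem rBE : ∀ p : P, B3 0 (1/20) (1/10) 1 0 (1/50) p → 0 ≤ ev Fz2 p := by
  have key0 : ∀ p : P, B3 0 (1/20) (1/10) 1 0 (1/50) p ∧ p 0 = 0 → 0 ≤ ev Fz2 p := by
    refine pat1 (i := 2) (lo := 0) (fun p h => ⟨h.1.l2, fun t ht ht' => ⟨h.1.lo2.2 t ht ht', ?_⟩⟩)
      (fun p h => ?_) (fun p h h0 => ?_)
    · rw [u20]; exact h.2
    · obtain ⟨k1, k2⟩ := clBF h.1.l0 h.1.r0 h.1.l1 h.1.r1 h.1.l2 h.1.r2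
      exact ⟨k1.le, k2⟩
    · rw [ev_Fz2, h.2, h0]
      exact (Fz2_t0s0 _).ge
  refine pat1 (i := 0) (fun p h => h.lo0) (fun p h => ?_) (fun p h h0 => ?_)
  · obtain ⟨k1, k2⟩ := clBE h.l0 h.r0 h.l1 h.r1 h.l2 h.r2
    exact ⟨k1.le, k2⟩
  · exact key0 p ⟨h, h0⟩

theorem R_Fz2 {a e s : ℝ} (a0 : 0 ≤ a) (a1 : a ≤ 9/10) (e0 : 0 ≤ e) (e1 : e ≤ 1) (s0 : 0 ≤ s)
    (s1 : s ≤ 1)
    (g0 : sin (π / 2 * e) * sin (π / 2 * ((1 - a) * s + a)) - cos (π / 2 * a) ≤ 0)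
    (g1 : 1000 * (sin (π / 2 * e) * sin (π / 2 * ((1 - a) * s))) - 989 ≤ 0) :
    0 ≤ Fz2 rO a e s := by
  have he : Fz2 rO a e s = ev Fz2 ![a, e, s] := rfl
  rw [he]
  rcases le_total e (1/10) with h | h
  · rcases le_total a (1/10) with h' | h'
    · rcases le_total s (1/10) with h'' | h''
      · exact rBG _ ⟨a0, h', e0, h, s0, h''⟩
      · exact rBD _ ⟨a0, h', e0, h, h'', s1⟩
    · exact rBB _ ⟨h', a1, e0, h, s0, s1⟩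
  · rcases le_total a (1/20) with h' | h'
    · rcases le_total s (1/50) with h'' | h''
      · exact rBE _ ⟨a0, h', h, e1, s0, h''⟩
      · exact (clBC (p := ![a, e, s]) a0 h' h e1 h'' s1 g0 g1).1.le
    · exact (clBA (p := ![a, e, s]) h' a1 h e1 s0 s1 g0 g1).1.le

/-! ### `σ = -1` -/

theorem rCB : ∀ p : P, B3 (1/10) (9/10) 0 (1/10) 0 (1/2) p → 0 ≤ ev Fz3 p := by
  refine pat1 (i := 1) (fun p h => h.lo1) (fun p h => ?_) (fun p h h0 => ?_)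
  · obtain ⟨k1, k2⟩ := clCB h.l0 h.r0 h.l1 h.r1 h.l2 h.r2
    exact ⟨k1.le, k2⟩
  · rw [ev_Fz3, h0]
    exact (Fz3_e0 (by linarith [h.l0]) (by linarith [h.r0])).ge

theorem rCC : ∀ p : P, B3 0 (1/10) (1/10) 1 0 (1/2) p → 0 ≤ ev Fz3 p := by
  refine pat1 (i := 0) (fun p h => h.lo0) (fun p h => ?_) (fun p h h0 => ?_)
  · obtain ⟨k1, k2⟩ := clCC h.l0 h.r0 h.l1 h.r1 h.l2 h.r2
    exact ⟨k1.le, k2⟩
  · rw [ev_Fz3, h0]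
    exact (Fz3_t0 _ _).ge

theorem Fz3_zl {p : P} (h0 : p 0 = 0) (h1 : 0 ≤ p 1) (h1' : p 1 ≤ 1/10) : Zl (ev Fz3) 1 p := by
  refine ⟨0, 1/10, by norm_num, h1, h1', fun t ht ht' => ?_⟩
  rw [ev_Fz3, u10, u11, u12, h0]
  exact Fz3_t0 t _

theorem rCD : ∀ p : P, B3 0 (1/10) 0 (1/10) 0 (1/2) p → 0 ≤ ev Fz3 p := by
  have key : ∀ p : P, B3 0 (1/10) 0 (1/10) 0 (1/2) p → 0 ≤ D 1 (ev Fz3) p := by
    refine pat1 (i := 0) (fun p h => h.lo0) (fun p h => ?_) (fun p h h0 => ?_)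
    · obtain ⟨k1, k2⟩ := clCD h.l0 h.r0 h.l1 h.r1 h.l2 h.r2
      exact ⟨k1.le, k2.D 1⟩
    · exact ((Fz3_zl h0 h.l1 h.r1).D (clCD h.l0 h.r0 h.l1 h.r1 h.l2 h.r2).2).ge
  refine pat1 (i := 1) (fun p h => h.lo1) (fun p h => ⟨key p h, ?_⟩) (fun p h h0 => ?_)
  · exact (clCD h.l0 h.r0 h.l1 h.r1 h.l2 h.r2).2
  · rw [ev_Fz3, h0]
    exact (Fz3_e0 (by linarith [h.l0]) (by linarith [h.r0])).ge

theorem R_Fz3 {a e m : ℝ} (a0 : 0 ≤ a) (a1 : a ≤ 9/10) (e0 : 0 ≤ e) (e1 : e ≤ 1) (m0 : 0 ≤ m)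
    (m1 : m ≤ 1/2)
    (g0 : sin (π / 2 * e) * sin (π / 2 * (a - a * m)) - cos (π / 2 * a) ≤ 0) :
    0 ≤ Fz3 rO a e m := by
  have he : Fz3 rO a e m = ev Fz3 ![a, e, m] := rfl
  rw [he]
  rcases le_total a (1/10) with h | h
  · rcases le_total e (1/10) with h' | h'
    · exact rCD _ ⟨a0, h, e0, h', m0, m1⟩
    · exact rCC _ ⟨a0, h, h', e1, m0, m1⟩
  · rcases le_total e (1/10) with h' | h'
    · exact rCB _ ⟨h, a1, e0, h', m0, m1⟩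
    · exact (clCA (p := ![a, e, m]) h a1 h' e1 m0 m1 g0).1.le

end H95FL
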