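import Pool.Agent.H41.FT.Cl
import Pool.Agent.H95.FL.Funs

/-!
# Parametricity of the functions of the pointwise inequality
-/

namespace H95FL

open H41FT Filter Topology

section F

variable {T : Type} {K : Set P} {o : Ops T} {ok : T → Prop} {SE : T → (P → ℝ) → Prop}

theorem pq_R (S : Sound K o ok SE) {a : T} {a' : P → ℝ} (h1 : R ok SE a a') :
    R ok SE (pq o a) (pq fO a') := by
  unfold pq
  exact S.rsub (S.rmul h1 (S.rsub (S.rnat _) h1)) (S.rhm (S.rmul h1 (S.rsub (S.rnat _) h1)))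

theorem qq_R (S : Sound K o ok SE) {a : T} {a' : P → ℝ} (h1 : R ok SE a a') :
    R ok SE (qq o a) (qq fO a') := by
  unfold qq
  exact S.radd (S.rmul h1 h1) (S.rhm (S.rmul h1 (S.rsub (S.rnat _) h1)))

theorem tr_R (S : Sound K o ok SE) {a b c : T} {a' b' c' : P → ℝ} (h1 : R ok SE a a')
    (h2 : R ok SE b b') (h3 : R ok SE c c') : R ok SE (tr o a b c) (tr fO a' b' c') := by
  unfold tr
  exact S.rmul (S.rmul h1 h2) (S.radd (S.rnat _) h3)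

theorem vt_R (S : Sound K o ok SE) (k : ℕ) {a b c : T} {a' b' c' : P → ℝ} (h1 : R ok SE a a')
    (h2 : R ok SE b b') (h3 : R ok SE c c') : R ok SE (vt o k a b c) (vt fO k a' b' c') := by
  unfold vt
  refine rlt (S.rmul h2 h3) fun _ _ mn => rlt (S.rmul h1 h1) fun _ _ C2 =>
    rlt (S.rsmul 3 (S.rmul h1 mn)) fun _ _ e =>
    rlt (S.radd (S.rmul C2 (S.radd (S.rmul h2 h2) (S.rmul h3 h3))) (S.rmul mn mn)) fun _ _ q => ?_
  split
  · exact S.rsub (S.rsub (S.rnat 0) e) q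
  · exact S.rsub e q

theorem fs_R (S : Sound K o ok SE) {p q r x y z v : T} {p' q' r' x' y' z' v' : P → ℝ}
    (h1 : R ok SE p p') (h2 : R ok SE q q') (h3 : R ok SE r r') (h4 : R ok SE x x')
    (h5 : R ok SE y y') (h6 : R ok SE z z') (h7 : R ok SE v v') :
    R ok SE (fs o p q r x y z v) (fs fO p' q' r' x' y' z' v') := by
  unfold fs
  exact S.rsub (S.rsub (S.radd h1 (S.radd h2 h3))
    (S.radd (tr_R S h1 h2 h4) (S.radd (tr_R S h1 h3 h5) (tr_R S h2 h3 h6)))) h7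

theorem zc_R (S : Sound K o ok SE) (k : ℕ) {p ct st ce m mp n np : T}
    {p' ct' st' ce' m' mp' n' np' : P → ℝ}
    (h1 : R ok SE p p') (h2 : R ok SE ct ct') (h3 : R ok SE st st') (h4 : R ok SE ce ce')
    (h5 : R ok SE m m') (h6 : R ok SE mp mp') (h7 : R ok SE n n') (h8 : R ok SE np np') :
    R ok SE (zc o k p ct st ce m mp n np) (zc fO k p' ct' st' ce' m' mp' n' np') := by
  unfold zc
  refine rlt (S.rmul h4 h4) fun _ _ ce2 => ?_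
  refine rlt (S.rsqrt (S.radd ce2 (S.rmul h6 h6))) fun _ _ sb => ?_
  refine rlt (S.rsqrt (S.radd ce2 (S.rmul h8 h8))) fun _ _ sc => ?_
  refine rlt (S.rsmul 2 (S.rat (S.rmul h5 (S.rinv (S.radd (S.rnat 1) sb))))) fun _ _ be => ?_
  refine rlt (S.rsmul 2 (S.rat (S.rmul h7 (S.rinv (S.radd (S.rnat 1) sc))))) fun _ _ de => ?_
  refine rlt (S.rsmul 2 (S.rat (S.rmul h6 (S.rinv (S.radd sb h4))))) fun _ _ gx => ?_
  refine rlt (S.rsmul 2 (S.rat (S.rmul h8 (S.rinv (S.radd sc h4))))) fun _ _ gy => ?_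
  refine rlt (S.rmul h5 h7) fun _ _ mn => ?_
  refine rlt (E := R ok SE) ?_ fun _ _ cz => ?_
  · split
    · exact S.radd h2 mn
    · exact S.rsub h2 mn
  refine rlt (S.rsmul 2 (S.rat (S.rmul (S.rmul h4 h3) (S.rinv (S.radd (S.rmul sb sc) cz)))))
    fun _ _ gz => ?_
  refine rlt (S.rsub (S.rnat 1) (qq_R S be)) fun _ _ Q =>
    rlt (S.rsub (S.rnat 1) (qq_R S de)) fun _ _ R => ?_
  exact fs_R S h1 Q R (qq_R S gx) (qq_R S gy) (S.rsub (S.rnat 1) (pq_R S gz)) (vt_R S k h2 h5 h7)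

theorem zd_R (S : Sound K o ok SE) (k : ℕ) {th ep A Ap B Bp : T} {th' ep' A' Ap' B' Bp' : P → ℝ}
    (h1 : R ok SE th th') (h2 : R ok SE ep ep') (h3 : R ok SE A A') (h4 : R ok SE Ap Ap')
    (h5 : R ok SE B B') (h6 : R ok SE Bp Bp') :
    R ok SE (zd o k th ep A Ap B Bp) (zd fO k th' ep' A' Ap' B' Bp') := by
  unfold zd
  refine rlt (S.rsn h2) fun _ _ se => ?_
  exact zc_R S k (pq_R S h1) (S.rcs h1) (S.rsn h1) (S.rcs h2) (S.rmul se h3) (S.rmul se h4)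
    (S.rmul se h5) (S.rmul se h6)

theorem Fz1_R (S : Sound K o ok SE) {a b c : T} {a' b' c' : P → ℝ} (h1 : R ok SE a a')
    (h2 : R ok SE b b') (h3 : R ok SE c c') : R ok SE (Fz1 o a b c) (Fz1 fO a' b' c') := by
  unfold Fz1
  refine rlt (S.rmul h1 h3) fun _ _ f => rlt (S.rsub h1 f) fun _ _ g => ?_
  exact zd_R S 1 h1 h2 (S.rcs f) (S.rsn f) (S.rcs g) (S.rsn g)

theorem Fz2_R (S : Sound K o ok SE) {a b c : T} {a' b' c' : P → ℝ} (h1 : R ok SE a a')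
    (h2 : R ok SE b b') (h3 : R ok SE c c') : R ok SE (Fz2 o a b c) (Fz2 fO a' b' c') := by
  unfold Fz2
  refine rlt (S.rmul (S.rsub (S.rnat 1) h1) h3) fun _ _ f => rlt (S.radd f h1) fun _ _ g => ?_
  exact zd_R S 2 h1 h2 (S.rsn f) (S.rcs f) (S.rsn g) (S.rcs g)

theorem Fz3_R (S : Sound K o ok SE) {a b c : T} {a' b' c' : P → ℝ} (h1 : R ok SE a a')
    (h2 : R ok SE b b') (h3 : R ok SE c c') : R ok SE (Fz3 o a b c) (Fz3 fO a' b' c') := by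
  unfold Fz3
  refine rlt (S.rmul h1 h3) fun _ _ f => rlt (S.rsub h1 f) fun _ _ g => ?_
  exact zd_R S 3 h1 h2 (S.rsn f) (S.rcs f) (S.rsn g) (S.rcs g)

theorem sd_R (S : Sound K o ok SE) (k : ℕ) {al be de u v w sa sb sc : T}
    {al' be' de' u' v' w' sa' sb' sc' : P → ℝ} (h1 : R ok SE al al') (h2 : R ok SE be be')
    (h3 : R ok SE de de') (u1 : R ok SE u u') (v1 : R ok SE v v') (w1 : R ok SE w w')
    (s1 : R ok SE sa sa') (s2 : R ok SE sb sb') (s3 : R ok SE sc sc') :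
    R ok SE (sd o k al be de u v w sa sb sc) (sd fO k al' be' de' u' v' w' sa' sb' sc') := by
  unfold sd
  refine rlt (S.rmul u1 v1) fun _ _ uv => rlt (S.rmul v1 w1) fun _ _ vw =>
    rlt (S.rmul w1 u1) fun _ _ wu => ?_
  refine rlt (S.rsub (S.rsub (S.rsub (S.rnat 1) (S.rmul u1 u1)) (S.rmul v1 v1)) (S.rmul w1 w1))
    fun _ _ G0 => ?_
  refine rlt (S.rsmul 2 (S.rmul uv w1)) fun _ _ e => ?_
  refine rlt (E := R ok SE) ?_ fun _ _ D2 => ?_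
  · split
    · exact S.rsub G0 e
    · exact S.radd G0 e
  refine rlt (S.rsqrt D2) fun _ _ Dr => ?_
  refine rlt (E := R ok SE) ?_ fun _ _ nx => ?_
  · split
    · exact S.radd u1 vw
    · exact S.rsub u1 vw
  refine rlt (E := R ok SE) ?_ fun _ _ ny => ?_
  · split
    · exact S.radd v1 wu
    · exact S.rsub v1 wu
  refine rlt (E := R ok SE) ?_ fun _ _ nz => ?_
  · split
    · exact S.radd w1 uv
    · exact S.rsub w1 uv
    · exact S.rsub uv w1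
  refine rlt (S.rsmul 2 (S.rat (S.rmul nx (S.rinv (S.radd (S.rmul s2 s3) Dr))))) fun _ _ gx => ?_
  refine rlt (S.rsmul 2 (S.rat (S.rmul ny (S.rinv (S.radd (S.rmul s3 s1) Dr))))) fun _ _ gy => ?_
  refine rlt (S.rsmul 2 (S.rat (S.rmul nz (S.rinv (S.radd (S.rmul s1 s2) Dr))))) fun _ _ gz => ?_
  refine rlt (S.rsub (S.rnat 1) (qq_R S h1)) fun _ _ P =>
    rlt (S.rsub (S.rnat 1) (qq_R S h2)) fun _ _ Q =>
    rlt (S.rsub (S.rnat 1) (qq_R S h3)) fun _ _ R => ?_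
  exact fs_R S P Q R (qq_R S gz) (qq_R S gy) (qq_R S gx) (vt_R S k u1 v1 w1)

theorem Fs_R (S : Sound K o ok SE) (k : ℕ) {a b c : T} {a' b' c' : P → ℝ} (h1 : R ok SE a a')
    (h2 : R ok SE b b') (h3 : R ok SE c c') : R ok SE (Fs o k a b c) (Fs fO k a' b' c') := by
  unfold Fs
  exact sd_R S k h1 h2 h3 (S.rsn h1) (S.rsn h2) (S.rsn h3) (S.rcs h1) (S.rcs h2) (S.rcs h3)

theorem gA1_R (S : Sound K o ok SE) {a b c : T} {a' b' c' : P → ℝ} (h1 : R ok SE a a')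
    (h2 : R ok SE b b') (h3 : R ok SE c c') : R ok SE (gA1 o a b c) (gA1 fO a' b' c') := by
  unfold gA1
  exact S.rsub (S.rmul (S.rsn h2) (S.rcs (S.rmul h1 h3))) (S.rcs h1)

theorem gA2_R (S : Sound K o ok SE) {a b c : T} {a' b' c' : P → ℝ} (h1 : R ok SE a a')
    (h2 : R ok SE b b') (h3 : R ok SE c c') : R ok SE (gA2 o a b c) (gA2 fO a' b' c') := by
  unfold gA2
  exact S.rsub (S.rmul (S.rsn h2) (S.rsn (S.radd (S.rmul (S.rsub (S.rnat 1) h1) h3) h1))) (S.rcs h1)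

theorem gA3_R (S : Sound K o ok SE) {a b c : T} {a' b' c' : P → ℝ} (h1 : R ok SE a a')
    (h2 : R ok SE b b') (h3 : R ok SE c c') : R ok SE (gA3 o a b c) (gA3 fO a' b' c') := by
  unfold gA3
  exact S.rsub (S.rmul (S.rsn h2) (S.rsn (S.rsub h1 (S.rmul h1 h3)))) (S.rcs h1)

theorem gC1_R (S : Sound K o ok SE) {a b c : T} {a' b' c' : P → ℝ} (h1 : R ok SE a a')
    (h2 : R ok SE b b') (h3 : R ok SE c c') : R ok SE (gC1 o a b c) (gC1 fO a' b' c') := by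
  unfold gC1
  exact S.rsub (S.rsmul 1000 (S.rmul (S.rsn h2) (S.rcs (S.rsub h1 (S.rmul h1 h3))))) (S.rnat 989)

theorem gC2_R (S : Sound K o ok SE) {a b c : T} {a' b' c' : P → ℝ} (h1 : R ok SE a a')
    (h2 : R ok SE b b') (h3 : R ok SE c c') : R ok SE (gC2 o a b c) (gC2 fO a' b' c') := by
  unfold gC2
  exact S.rsub (S.rsmul 1000 (S.rmul (S.rsn h2) (S.rsn (S.rmul (S.rsub (S.rnat 1) h1) h3))))
    (S.rnat 989)

end F

theorem enc_Fz1 : Enc3 Fz1 (ev Fz1) (Sm (ev Fz1)) := Enc3.of_R fun S _ _ _ _ _ _ h1 h2 h3 => Fz1_R S h1 h2 h3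
theorem enc_Fz2 : Enc3 Fz2 (ev Fz2) (Sm (ev Fz2)) := Enc3.of_R fun S _ _ _ _ _ _ h1 h2 h3 => Fz2_R S h1 h2 h3
theorem enc_Fz3 : Enc3 Fz3 (ev Fz3) (Sm (ev Fz3)) := Enc3.of_R fun S _ _ _ _ _ _ h1 h2 h3 => Fz3_R S h1 h2 h3
theorem enc_Fs3 : Enc3 Fs3 (ev Fs3) (Sm (ev Fs3)) := Enc3.of_R fun S _ _ _ _ _ _ h1 h2 h3 => Fs_R S 3 h1 h2 h3
theorem enc_Fs0 : Enc3 Fs0 (ev Fs0) (Sm (ev Fs0)) := Enc3.of_R fun S _ _ _ _ _ _ h1 h2 h3 => Fs_R S 0 h1 h2 h3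
theorem enc_Fs1 : Enc3 Fs1 (ev Fs1) (Sm (ev Fs1)) := Enc3.of_R fun S _ _ _ _ _ _ h1 h2 h3 => Fs_R S 1 h1 h2 h3
theorem enc_gA1 : Enc3 gA1 (ev gA1) (Sm (ev gA1)) := Enc3.of_R fun S _ _ _ _ _ _ h1 h2 h3 => gA1_R S h1 h2 h3
theorem enc_gA2 : Enc3 gA2 (ev gA2) (Sm (ev gA2)) := Enc3.of_R fun S _ _ _ _ _ _ h1 h2 h3 => gA2_R S h1 h2 h3
theorem enc_gA3 : Enc3 gA3 (ev gA3) (Sm (ev gA3)) := Enc3.of_R fun S _ _ _ _ _ _ h1 h2 h3 => gA3_R S h1 h2 h3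
theorem enc_gC1 : Enc3 gC1 (ev gC1) (Sm (ev gC1)) := Enc3.of_R fun S _ _ _ _ _ _ h1 h2 h3 => gC1_R S h1 h2 h3
theorem enc_gC2 : Enc3 gC2 (ev gC2) (Sm (ev gC2)) := Enc3.of_R fun S _ _ _ _ _ _ h1 h2 h3 => gC2_R S h1 h2 h3

end H95FL
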