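import Mathlib

/-!
# Matching two slot systems along a diagonal

For `MP_8a5d4f_co` (project FL).
-/

set_option autoImplicit false

namespace Pool.Agent.H95.FL

open Finset

/-- Two colourings with equal numbers of points of every colour differ by a permutation. -/
theorem exists_perm_colour {ι κ : Type*} [Fintype ι] [DecidableEq ι] [DecidableEq κ]
    (c c' : ι → κ) (h : ∀ x, (univ.filter fun k => c k = x).card =
      (univ.filter fun k => c' k = x).card) : ∃ σ : Equiv.Perm ι, ∀ k, c' (σ k) = c k := by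
  have e : ∀ x, Nonempty ({k // c k = x} ≃ {k // c' k = x}) := by
    intro x
    refine ⟨Fintype.equivOfCardEq ?_⟩
    rw [Fintype.card_subtype, Fintype.card_subtype]
    exact h x
  refine ⟨Equiv.ofFiberEquiv (f := c) (g := c') fun x => (e x).some, ?_⟩
  intro k
  exact Equiv.ofFiberEquiv_map _ k

/-- the colours of the slots at a diagonal -/
def colour {ι : Type*} [DecidableEq ι] (X Y A B : Finset ι) (k : ι) : Fin 5 :=
  if k ∈ A then 0 else if k ∈ X then 1 else if k ∈ B then 2 else if k ∈ Y then 3 else 4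

theorem card_colour {ι : Type*} [Fintype ι] [DecidableEq ι] {X Y A B : Finset ι}
    (hXY : Disjoint X Y) (hA : A ⊆ X) (hB : B ⊆ Y) :
    (univ.filter fun k => colour X Y A B k = 0).card = A.card ∧
    (univ.filter fun k => colour X Y A B k = 1).card = X.card - A.card ∧
    (univ.filter fun k => colour X Y A B k = 2).card = B.card ∧
    (univ.filter fun k => colour X Y A B k = 3).card = Y.card - B.card ∧
    (univ.filter fun k => colour X Y A B k = 4).card = Fintype.card ι - X.card - Y.card := by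
  have h1 : ∀ k, k ∈ X → k ∉ Y := fun k hk hk' => disjoint_left.1 hXY hk hk'
  have h2 : ∀ k, k ∈ A → k ∈ X := fun k hk => hA hk
  have h3 : ∀ k, k ∈ B → k ∈ Y := fun k hk => hB hk
  refine ⟨?_, ?_, ?_, ?_, ?_⟩
  · congr 1
    ext k
    simp only [mem_filter, mem_univ, true_and, colour]
    by_cases a : k ∈ A
    · simp [a]
    · by_cases b : k ∈ X <;> by_cases c : k ∈ B <;> by_cases d : k ∈ Y <;> simp [a, b, c, d]
  · rw [← card_sdiff_of_subset hA]
    congr 1
    ext k
    simp only [mem_filter, mem_univ, true_and, colour, mem_sdiff]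
    by_cases a : k ∈ A
    · simp [a]
    · by_cases b : k ∈ X
      · simp [a, b]
      · by_cases c : k ∈ B <;> by_cases d : k ∈ Y <;> simp [a, b, c, d]
  · congr 1
    ext k
    simp only [mem_filter, mem_univ, true_and, colour]
    by_cases c : k ∈ B
    · have d := h3 k c
      have b : k ∉ X := fun b => h1 k b d
      have a : k ∉ A := fun a => b (h2 k a)
      simp [a, b, c]
    · by_cases a : k ∈ A
      · simp [a, c]
      · by_cases b : k ∈ X <;> by_cases d : k ∈ Y <;> simp [a, b, c, d]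
  · rw [← card_sdiff_of_subset hB]
    congr 1
    ext k
    simp only [mem_filter, mem_univ, true_and, colour, mem_sdiff]
    by_cases d : k ∈ Y
    · have b : k ∉ X := fun b => h1 k b d
      have a : k ∉ A := fun a => b (h2 k a)
      by_cases c : k ∈ B <;> simp [a, b, c, d]
    · have c : k ∉ B := fun c => d (h3 k c)
      by_cases a : k ∈ A
      · simp [a, d]
      · by_cases b : k ∈ X <;> simp [a, b, c, d]
  · have e : (univ.filter fun k => colour X Y A B k = 4) = (X ∪ Y)ᶜ := by
      ext k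
      simp only [mem_filter, mem_univ, true_and, colour, mem_compl, mem_union]
      by_cases d : k ∈ Y
      · have b : k ∉ X := fun b => h1 k b d
        have a : k ∉ A := fun a => b (h2 k a)
        by_cases c : k ∈ B <;> simp [a, b, c, d]
      · have c : k ∉ B := fun c => d (h3 k c)
        by_cases a : k ∈ A
        · have b := h2 k a
          simp [a, b]
        · by_cases b : k ∈ X <;> simp [a, b, c, d]
    rw [e, card_compl, card_union_of_disjoint hXY]
    omega

/-- **Matching.**  Two disjoint pairs of sets of slots of the same sizes are matched by a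
permutation which also matches many elements of given subsets. -/
theorem exists_perm {ι : Type*} [Fintype ι] [DecidableEq ι] {X Y X' Y' A B A' B' : Finset ι}
    (hXY : Disjoint X Y) (hXY' : Disjoint X' Y') (hX : X.card = X'.card) (hY : Y.card = Y'.card)
    (hA : A ⊆ X) (hB : B ⊆ Y) (hA' : A' ⊆ X') (hB' : B' ⊆ Y') {a b : ℕ} (ha : a ≤ A.card)
    (ha' : a ≤ A'.card) (hb : b ≤ B.card) (hb' : b ≤ B'.card) :
    ∃ σ : Equiv.Perm ι, (∀ k, σ k ∈ X' ↔ k ∈ X) ∧ (∀ k, σ k ∈ Y' ↔ k ∈ Y) ∧
      a ≤ (A.filter fun k => σ k ∈ A').card ∧ b ≤ (B.filter fun k => σ k ∈ B').card := by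
  obtain ⟨A0, hA0, hA0c⟩ := exists_subset_card_eq ha
  obtain ⟨A1, hA1, hA1c⟩ := exists_subset_card_eq ha'
  obtain ⟨B0, hB0, hB0c⟩ := exists_subset_card_eq hb
  obtain ⟨B1, hB1, hB1c⟩ := exists_subset_card_eq hb'
  have c0 := card_colour hXY (hA0.trans hA) (hB0.trans hB)
  have c1 := card_colour hXY' (hA1.trans hA') (hB1.trans hB')
  obtain ⟨σ, hσ⟩ := exists_perm_colour (colour X Y A0 B0) (colour X' Y' A1 B1) (by
    intro x
    fin_cases x
    · exact c0.1.trans (by rw [hA0c, ← hA1c]; exact c1.1.symm)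
    · exact c0.2.1.trans (by rw [hA0c, ← hA1c, hX]; exact c1.2.1.symm)
    · exact c0.2.2.1.trans (by rw [hB0c, ← hB1c]; exact c1.2.2.1.symm)
    · exact c0.2.2.2.1.trans (by rw [hB0c, ← hB1c, hY]; exact c1.2.2.2.1.symm)
    · exact c0.2.2.2.2.trans (by rw [hX, hY]; exact c1.2.2.2.2.symm))
  have hAX : ∀ k, k ∈ A0 → k ∈ X := fun k hk => hA (hA0 hk)
  have hBY : ∀ k, k ∈ B0 → k ∈ Y := fun k hk => hB (hB0 hk)
  have hAX' : ∀ k, k ∈ A1 → k ∈ X' := fun k hk => hA' (hA1 hk)
  have hBY' : ∀ k, k ∈ B1 → k ∈ Y' := fun k hk => hB' (hB1 hk)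
  have d1 : ∀ k, k ∈ X → k ∉ Y := fun k hk hk' => disjoint_left.1 hXY hk hk'
  have d2 : ∀ k, k ∈ X' → k ∉ Y' := fun k hk hk' => disjoint_left.1 hXY' hk hk'
  have key : ∀ (Z W C D : Finset ι) (k : ι), (∀ k, k ∈ C → k ∈ Z) → (∀ k, k ∈ D → k ∈ W) →
      (∀ k, k ∈ Z → k ∉ W) →
      (colour Z W C D k = 0 ↔ k ∈ C) ∧ ((colour Z W C D k = 0 ∨ colour Z W C D k = 1) ↔ k ∈ Z) ∧
      (colour Z W C D k = 2 ↔ k ∈ D) ∧
      ((colour Z W C D k = 2 ∨ colour Z W C D k = 3) ↔ k ∈ W) := by
    intro Z W C D k i1 i2 i3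
    unfold colour
    by_cases a : k ∈ C
    · have b := i1 k a
      have c := i3 k b
      have d : k ∉ D := fun d => c (i2 k d)
      simp [a, b, c, d]
    · by_cases b : k ∈ Z
      · have c := i3 k b
        have d : k ∉ D := fun d => c (i2 k d)
        simp [a, b, c, d]
      · by_cases d : k ∈ D
        · have c := i2 k d
          simp [a, b, c, d]
        · by_cases c : k ∈ W <;> simp [a, b, c, d]
  refine ⟨σ, ?_, ?_, ?_, ?_⟩
  · intro k
    rw [← (key X' Y' A1 B1 (σ k) hAX' hBY' d2).2.1, hσ k,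
      (key X Y A0 B0 k hAX hBY d1).2.1]
  · intro k
    rw [← (key X' Y' A1 B1 (σ k) hAX' hBY' d2).2.2.2, hσ k,
      (key X Y A0 B0 k hAX hBY d1).2.2.2]
  · rw [← hA0c]
    apply card_le_card
    intro k hk
    rw [mem_filter]
    refine ⟨hA0 hk, hA1 ?_⟩
    rw [← (key X' Y' A1 B1 (σ k) hAX' hBY' d2).1, hσ k, (key X Y A0 B0 k hAX hBY d1).1]
    exact hk
  · rw [← hB0c]
    apply card_le_card
    intro k hk
    rw [mem_filter]
    refine ⟨hB0 hk, hB1 ?_⟩
    rw [← (key X' Y' A1 B1 (σ k) hAX' hBY' d2).2.2.1, hσ k, (key X Y A0 B0 k hAX hBY d1).2.2.1]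
    exact hk

end Pool.Agent.H95.FL
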