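import Pool.Agent.H95.FL.Fin

/-!
# The pointwise inequality, all cases
-/

namespace H95FL

open H45FT H41FT Real

variable {a b c : ℝ}

/-! ### all sides at least `9/10` -/

theorem big1 (ha : 9/10 ≤ a) (hab : a ≤ b) (hbc : b ≤ c) (hc : c ≤ 1)
    (hg : 0 ≤ gram3 1 a b c) : 0 ≤ FF 1 a b c := by
  have h0 : 0 < a := by linarith
  have hb0 : 0 < b := by linarith
  have hc0 : 0 < c := by linarith
  have ha1 : a ≤ 1 := by linarith
  have hb1 : b ≤ 1 := by linarith
  have hu := csn h0.le ha1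
  have hv := csn hb0.le hb1
  have hw := csn hc0.le hc
  have huv := csa h0.le hab hb1
  have hvw := csa hb0.le hbc hc
  have lu := cos_le_one (π / 2 * a)
  have lv := cos_le_one (π / 2 * b)
  have lw := cos_le_one (π / 2 * c)
  have H4 : |1 * cos (π / 2 * b) - cos (π / 2 * c) * cos (π / 2 * a)| =
      cos (π / 2 * b) - cos (π / 2 * c) * cos (π / 2 * a) := by
    rw [one_mul]; exact abs_of_nonneg (by nlinarith)
  have H5 : |1 * cos (π / 2 * a) - cos (π / 2 * b) * cos (π / 2 * c)| =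
      cos (π / 2 * a) - cos (π / 2 * b) * cos (π / 2 * c) := by
    rw [one_mul]; exact abs_of_nonneg (by nlinarith)
  rcases le_total (cos (π / 2 * a) * cos (π / 2 * b)) (cos (π / 2 * c)) with h | h
  · rw [CH_acute h0 ha1 hb0 hb1 hc0 hc hg (by
      rw [one_mul]; exact abs_of_nonneg (by linarith)) H4 H5]
    refine R_Fs0 (by linarith) (by linarith) (by linarith) (by linarith) (by linarith)
      (by linarith) ?_
    rw [sin_comp, sin_comp, sin_comp]
    exact h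
  · rw [CH_obt h0 ha1 hb0 hb1 hc0 hc hg (by
      rw [one_mul, abs_of_nonpos (by linarith)]; ring) H4 H5]
    exact R_Fs1 (by linarith) (by linarith) (by linarith) (by linarith) (by linarith)
      (by linarith)

theorem big2 (ha : 9/10 ≤ a) (hab : a ≤ b) (hbc : b ≤ c) (hc : c ≤ 1)
    (hg : 0 ≤ gram3 (-1) a b c) : 0 ≤ FF (-1) a b c := by
  have h0 : 0 < a := by linarith
  have hb0 : 0 < b := by linarith
  have hc0 : 0 < c := by linarith
  have ha1 : a ≤ 1 := by linarith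
  have hb1 : b ≤ 1 := by linarith
  have hu := csn h0.le ha1
  have hv := csn hb0.le hb1
  have hw := csn hc0.le hc
  rw [CH_neg h0 ha1 hb0 hb1 hc0 hc hg
    (by rw [abs_of_nonpos (by nlinarith)]; ring)
    (by rw [abs_of_nonpos (by nlinarith)]; ring)
    (by rw [abs_of_nonpos (by nlinarith)]; ring)]
  exact R_Fs3 (by linarith) (by linarith) (by linarith) (by linarith) (by linarith)
    (by linarith)

/-! ### all sides small -/

theorem rho_ge {t : ℝ} (h : 0 ≤ t) : (2 - π / 2) * t ≤ rho t := by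
  unfold rho
  have h1 := Real.pi_gt_three
  have : 0 ≤ (π / 2 - 1) * t ^ 2 := mul_nonneg (by linarith) (sq_nonneg t)
  linarith

theorem rho_le {t : ℝ} (h : 0 ≤ t) (h1 : t ≤ 1) : rho t ≤ t := by
  unfold rho
  have h2 := Real.pi_gt_three
  have h3 : t ^ 2 ≤ t := by nlinarith
  have : (π / 2 - 1) * t ^ 2 ≤ (π / 2 - 1) * t := mul_le_mul_of_nonneg_left h3 (by linarith)
  linarith

theorem c_small (hc0 : 0 ≤ c) (hc : c ≤ 1) (hs : 989 / 1000 < cos (π / 2 * c)) :
    c < 96 / 1000 := by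
  by_contra hcon
  push Not at hcon
  have p1 := Real.pi_gt_d4
  have p2 := Real.pi_lt_d4
  have h1 := csa (x := 96 / 1000) (y := c) (by norm_num) hcon hc
  have h2 := Real.cos_bound (x := π / 2 * (96 / 1000)) (by
    rw [abs_of_nonneg (by positivity)]; nlinarith)
  rw [abs_le] at h2
  obtain ⟨-, h3⟩ := h2
  have hx0 : 0 ≤ π / 2 * (96 / 1000) := by positivity
  rw [abs_of_nonneg hx0] at h3
  have l1 : 15079 / 100000 ≤ π / 2 * (96 / 1000) := by linarith
  have l2 : π / 2 * (96 / 1000) ≤ 151 / 1000 := by linarith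
  have l3 : (15079 / 100000) ^ 2 ≤ (π / 2 * (96 / 1000)) ^ 2 := by
    exact pow_le_pow_left₀ (by norm_num) l1 2
  have l4 : (π / 2 * (96 / 1000)) ^ 4 ≤ (151 / 1000) ^ 4 := pow_le_pow_left₀ hx0 l2 4
  norm_num at l3 l4
  linarith

theorem uv_bd (ha0 : 0 ≤ a) (ha : a ≤ 1) (hb0 : 0 ≤ b) (hb : b ≤ 1) (hg : 0 ≤ gram3 1 a b c) :
    cos (π / 2 * a) * cos (π / 2 * b) * (cos (π / 2 * c) - cos (π / 2 * a) * cos (π / 2 * b)) ≤
      π ^ 2 / 4 * (a * b) := by
  have hp := Real.pi_pos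
  have hu := csn ha0 ha
  have hv := csn hb0 hb
  have lu := cos_le_one (π / 2 * a)
  have lv := cos_le_one (π / 2 * b)
  have sa := sn_nonneg ha0 ha
  have sb := sn_nonneg hb0 hb
  have ta : sin (π / 2 * a) ≤ π / 2 * a := sin_le (by positivity)
  have tb : sin (π / 2 * b) ≤ π / 2 * b := sin_le (by positivity)
  have g := gram_id (σ := 1) (by norm_num) a b c
  have h1 : cos (π / 2 * c) - cos (π / 2 * a) * cos (π / 2 * b) ≤
      sin (π / 2 * a) * sin (π / 2 * b) := by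
    have : (cos (π / 2 * c) - cos (π / 2 * a) * cos (π / 2 * b)) ^ 2 ≤
        (sin (π / 2 * a) * sin (π / 2 * b)) ^ 2 := by
      rw [one_mul] at g; linarith
    exact le_of_sq_le_sq' (mul_nonneg sa sb) this
  have h2 : sin (π / 2 * a) * sin (π / 2 * b) ≤ π ^ 2 / 4 * (a * b) := by
    have := mul_le_mul ta tb sb (by positivity)
    linarith
  have h3 : 0 ≤ cos (π / 2 * a) * cos (π / 2 * b) := mul_nonneg hu hv
  have h4 : cos (π / 2 * a) * cos (π / 2 * b) ≤ 1 := by nlinarith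
  have h5 : 0 ≤ π ^ 2 / 4 * (a * b) := by positivity
  have h6 : cos (π / 2 * a) * cos (π / 2 * b) * (cos (π / 2 * c) - cos (π / 2 * a) * cos (π / 2 * b)) ≤ cos (π / 2 * a) * cos (π / 2 * b) * (π ^ 2 / 4 * (a * b)) :=
    mul_le_mul_of_nonneg_left (h1.trans h2) h3
  nlinarith
where
  le_of_sq_le_sq' {x y : ℝ} (hy : 0 ≤ y) (h : x ^ 2 ≤ y ^ 2) : x ≤ y := abs_le_of_sq_le_sq' h hy |>.2

theorem pr_bd {x y g : ℝ} (hx0 : 0 ≤ x) (hx : x ≤ 1) (hy0 : 0 ≤ y) (hy : y ≤ 1) (hg : 0 ≤ g) :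
    rho x * rho y * (2 - rho g) ≤ 2 * (x * y) := by
  have r1 := rho_nonneg hx0
  have r2 := rho_nonneg hy0
  have r3 := rho_nonneg hg
  have q1 := rho_le hx0 hx
  have q2 := rho_le hy0 hy
  have h1 : rho x * rho y ≤ x * y := mul_le_mul q1 q2 r2 hx0
  have h2 : 0 ≤ rho x * rho y := mul_nonneg r1 r2
  nlinarith

theorem small (h0 : 0 ≤ a) (hab : a ≤ b) (hbc : b ≤ c) (hc : c ≤ 1)
    (hg : 0 ≤ gram3 1 a b c) (hs : 989 / 1000 < cos (π / 2 * c)) : 0 ≤ FF 1 a b c := by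
  have hb0 : 0 ≤ b := h0.trans hab
  have hc0 : 0 ≤ c := hb0.trans hbc
  have hcs := c_small hc0 hc hs
  have ha1 : a ≤ 1 := by linarith
  have hb1 : b ≤ 1 := by linarith
  have p1 := Real.pi_gt_d4
  have p2 := Real.pi_lt_d4
  have v1 := uv_bd (c := c) h0 ha1 hb0 hb1 hg
  have v2 := uv_bd (c := a) hb0 hb1 hc0 hc (by rw [← gram_rot]; exact hg)
  have v3 := uv_bd (c := b) hc0 hc h0 ha1 (by rw [← gram_rot, ← gram_rot]; exact hg)
  have w1 := pr_bd h0 ha1 hb0 hb1 (ang_nonneg (dih 1 a b c))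
  have w2 := pr_bd hb0 hb1 hc0 hc (ang_nonneg (dih 1 b c a))
  have w3 := pr_bd hc0 hc h0 ha1 (ang_nonneg (dih 1 c a b))
  have r1 := rho_ge h0
  have r2 := rho_ge hb0
  have r3 := rho_ge hc0
  have hpp : π ^ 2 / 4 ≤ 24675 / 10000 := by nlinarith
  have hab' : a * b ≤ 96 / 1000 * a := by nlinarith
  have hbc' : b * c ≤ 96 / 1000 * b := by nlinarith
  have hca' : c * a ≤ 96 / 1000 * c := by nlinarith
  have k1 : π ^ 2 / 4 * (a * b) ≤ 24675 / 10000 * (a * b) :=
    mul_le_mul_of_nonneg_right hpp (by positivity)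
  have k2 : π ^ 2 / 4 * (b * c) ≤ 24675 / 10000 * (b * c) :=
    mul_le_mul_of_nonneg_right hpp (by positivity)
  have k3 : π ^ 2 / 4 * (c * a) ≤ 24675 / 10000 * (c * a) :=
    mul_le_mul_of_nonneg_right hpp (by positivity)
  have o1 : 4291 / 10000 * (a + b + c) ≤ (2 - π / 2) * (a + b + c) :=
    mul_le_mul_of_nonneg_right (by linarith) (by positivity)
  unfold FF
  linarith [o1, k1, k2, k3, hab', hbc', hca', r1, r2, r3, w1, w2, w3, v1, v2, v3]

/-! ### the smallest side is zero -/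

theorem ang_of_one {t : ℝ} (h : |t| = 1) : ang t = 0 := by
  unfold ang; rw [h, arccos_one, mul_zero]

theorem zero2 (h0 : 0 ≤ b) (hb : b ≤ 1) (hc0 : 0 ≤ c) (hc : c ≤ 1)
    (hg : 0 ≤ gram3 (-1) 0 b c) : 0 ≤ FF (-1) 0 b c := by
  have hp := Real.pi_pos
  have hv := csn h0 hb
  have hw := csn hc0 hc
  unfold gram3 at hg
  rw [mul_zero, cos_zero] at hg
  have h1 : (cos (π / 2 * b) + cos (π / 2 * c)) ^ 2 ≤ 0 := by nlinarith
  have h2 : cos (π / 2 * b) = 0 := by nlinarith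
  have h3 : cos (π / 2 * c) = 0 := by nlinarith
  have one : ∀ {x : ℝ}, 0 ≤ x → x ≤ 1 → cos (π / 2 * x) = 0 → x = 1 := by
    intro x hx0 hx1 hx
    by_contra hne
    have := cs_pos hx0 (lt_of_le_of_ne hx1 hne)
    linarith
  have e1 := one h0 hb h2
  have e2 := one hc0 hc h3
  subst e1
  subst e2
  have e3 : ang (dih (-1) 1 1 0) = 0 := by
    apply ang_of_one
    unfold dih
    simp
  unfold FF
  rw [e3, h2, rho_zero]
  have : rho 1 = 1 := by unfold rho; ring
  rw [this]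
  norm_num

theorem zero1 (h0 : 0 ≤ b) (hbc : b ≤ c) (hc : c ≤ 1)
    (hg : 0 ≤ gram3 1 0 b c) : 0 ≤ FF 1 0 b c := by
  have hp := Real.pi_pos
  have hb1 : b ≤ 1 := hbc.trans hc
  have hc0 : 0 ≤ c := h0.trans hbc
  rcases lt_or_ge (989 / 1000) (cos (π / 2 * c)) with hs | hs
  · exact small le_rfl h0 hbc hc hg hs
  have hg' := hg
  unfold gram3 at hg'
  rw [mul_zero, cos_zero] at hg'
  have h1 : (cos (π / 2 * b) - cos (π / 2 * c)) ^ 2 ≤ 0 := by nlinarith
  have h2 : cos (π / 2 * b) = cos (π / 2 * c) := by nlinarith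
  have h3 : b = c := by
    have := injOn_cos (x₁ := π / 2 * b) (x₂ := π / 2 * c) ⟨by positivity, by nlinarith⟩
      ⟨by positivity, by nlinarith⟩ h2
    exact mul_left_cancel₀ (by positivity) this
  subst h3
  have hb0 : 0 < b := by
    rcases h0.eq_or_lt with h | h
    · rw [← h, mul_zero, cos_zero] at hs; linarith
    · exact h
  have hsb := snp hb0 hb1
  have hv := csn hb0.le hb1
  have lv := cos_le_one (π / 2 * b)
  have R := R_Fz1 (a := 0) (e := 1 - b) (m := 0) le_rfl (by norm_num) (by linarith) (by linarith)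
    le_rfl (by norm_num)
    (by rw [mul_zero, mul_zero, cos_zero, mul_one]
        have := sin_le_one (π / 2 * (1 - b)); linarith)
    (by rw [mul_zero, sub_zero, mul_zero, cos_zero, mul_one, sin_comp]; linarith)
  rw [Fz1_eq, zd_eq] at R
  simp only [mul_zero, zero_mul, sub_zero, cos_zero, sin_zero, mul_one, sin_comp, cos_comp] at R
  have e1 : √(sin (π / 2 * b) * sin (π / 2 * b) + 0 * 0) = sin (π / 2 * b) := by
    rw [mul_zero, add_zero]; exact Real.sqrt_mul_self hsb.le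
  have e3 := compl_half hb0.le hb1
  rw [zc_val1 (gx := 1) (gy := 1) (gz := 0) e1 e1 e3 e3 (by simp) (by simp) (by simp)] at R
  have e4 : ang (dih 1 b b 0) = 0 := by
    apply ang_of_one
    unfold dih
    rw [mul_zero, cos_zero]
    have : sin (π / 2 * b) * sin (π / 2 * b) = 1 * 1 - cos (π / 2 * b) * cos (π / 2 * b) := by
      have := sin_sq_add_cos_sq (π / 2 * b)
      linarith
    rw [← this, div_self (mul_pos hsb hsb).ne', abs_one]
  unfold FF
  rw [e4, mul_zero, cos_zero, rho_zero]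
  rw [rho_zero] at R
  linarith [R]

/-! ### sorted sides -/

theorem sorted1 (h0 : 0 ≤ a) (hab : a ≤ b) (hbc : b ≤ c) (hc : c ≤ 1)
    (hg : 0 ≤ gram3 1 a b c) : 0 ≤ FF 1 a b c := by
  rcases h0.eq_or_lt with h | h
  · rw [← h] at hg ⊢
    exact zero1 (by linarith) hbc hc hg
  rcases le_total a (9/10) with h' | h'
  · rcases lt_or_ge (989 / 1000) (cos (π / 2 * c)) with hs | hs
    · exact small h.le hab hbc hc hg hs
    · rcases le_total (cos (π / 2 * a) * cos (π / 2 * b)) (cos (π / 2 * c)) with h2 | h2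
      · exact case1 h h' hab hbc hc hg h2 hs
      · exact case2 h h' hab hbc hc hg h2 hs
  · exact big1 h' hab hbc hc hg

theorem sorted2 (h0 : 0 ≤ a) (hab : a ≤ b) (hbc : b ≤ c) (hc : c ≤ 1)
    (hg : 0 ≤ gram3 (-1) a b c) : 0 ≤ FF (-1) a b c := by
  rcases h0.eq_or_lt with h | h
  · rw [← h] at hg ⊢
    exact zero2 (by linarith) (by linarith) (by linarith) hc hg
  rcases le_total a (9/10) with h' | h'
  · exact case3 h h' hab hbc hc hg
  · exact big2 h' hab hbc hc hg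

theorem sorted {σ : ℝ} (hσ : σ = 1 ∨ σ = -1) (h0 : 0 ≤ a) (hab : a ≤ b) (hbc : b ≤ c)
    (hc : c ≤ 1) (hg : 0 ≤ gram3 σ a b c) : 0 ≤ FF σ a b c := by
  rcases hσ with rfl | rfl
  · exact sorted1 h0 hab hbc hc hg
  · exact sorted2 h0 hab hbc hc hg

theorem FF_nonneg {σ : ℝ} (hσ : σ = 1 ∨ σ = -1) (ha0 : 0 ≤ a) (ha : a ≤ 1) (hb0 : 0 ≤ b)
    (hb : b ≤ 1) (hc0 : 0 ≤ c) (hc : c ≤ 1) (hg : 0 ≤ gram3 σ a b c) : 0 ≤ FF σ a b c := by
  have r1 := gram_rot σ a b c
  have r2 := gram_rot σ b c a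
  have s1 := gram_swap σ a b c
  have s2 := gram_swap σ b c a
  have s3 := gram_swap σ c a b
  have f1 := FF_rot σ a b c
  have f2 := FF_rot σ b c a
  have t1 := FF_swap σ a b c
  have t2 := FF_swap σ b c a
  have t3 := FF_swap σ c a b
  rcases le_total a b with h1 | h1 <;> rcases le_total b c with h2 | h2 <;>
    rcases le_total a c with h3 | h3
  · exact sorted hσ ha0 h1 h2 hc hg
  · exact sorted hσ ha0 h1 h2 hc hg
  · -- a ≤ c ≤ b
    rw [f1, f2, t3]
    exact sorted hσ ha0 h3 h2 hb (by rw [← s3, ← r2, ← r1]; exact hg)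
  · -- c ≤ a ≤ b
    rw [f1, f2]
    exact sorted hσ hc0 h3 h1 hb (by rw [← r2, ← r1]; exact hg)
  · -- b ≤ a ≤ c
    rw [t1]
    exact sorted hσ hb0 h1 h3 hc (by rw [← s1]; exact hg)
  · -- b ≤ c ≤ a
    rw [f1]
    exact sorted hσ hb0 h2 h3 ha (by rw [← r1]; exact hg)
  · -- c ≤ b ≤ a
    rw [f1, t2]
    exact sorted hσ hc0 h2 h1 ha (by rw [← s2, ← r1]; exact hg)
  · rw [f1, t2]
    exact sorted hσ hc0 h2 h1 ha (by rw [← s2, ← r1]; exact hg)

/-- **The pointwise inequality holds.** -/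
theorem star : Star := by
  intro a ha b hb c hc σ hσ hg
  exact FF_nonneg hσ ha.1 ha.2 hb.1 hb.2 hc.1 hc.2 hg

end H95FL
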